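import Pool.Agent.Lib.MP_c95763_co.Final
import Mathlib.Combinatorics.SimpleGraph.Tutte

/-! Fractional perfect matchings of multigraphs: the polytope of Edmonds. -/

set_option autoImplicit false

namespace EdP

open Finset Classical OddFour

variable {V E : Type*} [Fintype E]

/-- total weight of the edges crossing `X` -/
noncomputable def wt (s t : E → V) (w : E → ℝ) (X : Finset V) : ℝ :=
  ∑ e, if cr s t X e then w e else 0

/-- `w` lies in the perfect matching polytope of the multigraph `(vs, E, s, t)` -/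
structure Frac (s t : E → V) (vs : Finset V) (w : E → ℝ) : Prop where
  nn : ∀ e, 0 ≤ w e
  ends : ∀ e, w e ≠ 0 → s e ∈ vs ∧ t e ∈ vs ∧ s e ≠ t e
  deg : ∀ v ∈ vs, wt s t w {v} = 1
  odd : ∀ X ⊆ vs, Odd X.card → 1 ≤ wt s t w X

/-- `M` is a perfect matching inside the support of `w` -/
structure PM (s t : E → V) (vs : Finset V) (w : E → ℝ) (M : Finset E) : Prop where
  pos : ∀ e ∈ M, w e ≠ 0
  one : ∀ v ∈ vs, cn s t M {v} = 1

lemma wt_eq_filter (s t : E → V) (w : E → ℝ) (X : Finset V) :
    wt s t w X = ∑ e ∈ univ.filter (cr s t X), w e := by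
  unfold wt
  rw [Finset.sum_filter]

lemma cr_sing {s t : E → V} {e : E} (h : s e ≠ t e) (v : V) :
    cr s t {v} e ↔ s e = v ∨ t e = v := by
  unfold cr
  simp only [mem_singleton]
  constructor
  · intro h'
    by_contra h2
    rw [not_or] at h2
    exact h' ⟨fun h3 => absurd h3 h2.1, fun h3 => absurd h3 h2.2⟩
  · rintro (h1 | h1) h2
    · exact h (h1.trans (h2.1 h1).symm)
    · exact h ((h2.2 h1).trans h1.symm)

section tutte

variable {s t : E → V} {vs : Finset V} {w : E → ℝ}

/-- the simple graph on `vs` formed by the support of `w` -/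
def sg (s t : E → V) (vs : Finset V) (w : E → ℝ) : SimpleGraph {v // v ∈ vs} where
  Adj u v := u ≠ v ∧ ∃ e, w e ≠ 0 ∧ s(s e, t e) = s((u : V), (v : V))
  symm := ⟨by
    rintro u v ⟨h, e, he, h1⟩
    exact ⟨h.symm, e, he, by rw [h1, Sym2.eq_swap]⟩⟩
  loopless := ⟨fun u h => h.1 rfl⟩

theorem pm_of_sg (hw : Frac s t vs w) (M : (sg s t vs w).Subgraph) (hM : M.IsPerfectMatching) :
    ∃ N, PM s t vs w N := by
  rcases isEmpty_or_nonempty E with hE | hE
  · refine ⟨∅, by simp, fun v hv => ?_⟩
    have := hw.deg v hv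
    unfold wt at this
    rw [Finset.univ_eq_empty, Finset.sum_empty] at this
    norm_num at this
  have hex : ∀ e ∈ M.edgeSet, ∃ d : E, w d ≠ 0 ∧
      s(s d, t d) = Sym2.map Subtype.val e := by
    intro e
    induction e using Sym2.ind with
    | _ u v =>
      intro he
      have ha : (sg s t vs w).Adj u v := M.adj_sub he
      obtain ⟨_, d, hd, h1⟩ := ha
      exact ⟨d, hd, by rw [Sym2.map_mk]; exact h1⟩
  choose! f hf hfs using hex
  refine ⟨univ.filter fun d => ∃ e ∈ M.edgeSet, d = f e, ?_, ?_⟩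
  · intro d hd
    rw [mem_filter] at hd
    obtain ⟨_, e, he, rfl⟩ := hd
    exact hf e he
  · intro v hv
    obtain ⟨u, hu, huniq⟩ := hM.1 (hM.2 ⟨v, hv⟩)
    have he : s((⟨v, hv⟩ : {v // v ∈ vs}), u) ∈ M.edgeSet := hu
    rw [cn_eq_card, card_eq_one]
    refine ⟨f s(⟨v, hv⟩, u), ?_⟩
    ext d
    simp only [mem_filter, mem_univ, true_and, mem_singleton]
    constructor
    · rintro ⟨⟨e, he', rfl⟩, hcr⟩
      have h3 := hfs e he'
      have hne := (hw.ends _ (hf e he')).2.2
      rw [cr_sing hne] at hcr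
      have hmem : v ∈ s(s (f e), t (f e)) := by
        rw [Sym2.mem_iff]
        rcases hcr with h | h
        · exact Or.inl h.symm
        · exact Or.inr h.symm
      rw [h3, Sym2.mem_map] at hmem
      obtain ⟨a, ha, hav⟩ := hmem
      have haa : a = ⟨v, hv⟩ := Subtype.ext hav
      subst haa
      obtain ⟨b, rfl⟩ := ha
      have : b = u := huniq b he'
      rw [this]
    · intro h
      subst h
      refine ⟨⟨_, he, rfl⟩, ?_⟩
      have hne := (hw.ends _ (hf _ he)).2.2
      rw [cr_sing hne]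
      have h3 := hfs _ he
      rw [Sym2.map_mk, Sym2.eq_iff] at h3
      rcases h3 with ⟨a, b⟩ | ⟨a, b⟩
      · exact Or.inl a
      · exact Or.inr b

/-- Tutte's theorem for the support of a point of the polytope -/
theorem exists_pm (hw : Frac s t vs w) : ∃ N, PM s t vs w N := by
  by_contra hno
  have hnot : ¬ ∃ M : (sg s t vs w).Subgraph, M.IsPerfectMatching := fun ⟨M, hM⟩ =>
    hno (pm_of_sg hw M hM)
  rw [SimpleGraph.tutte] at hnot
  push Not at hnot
  obtain ⟨u, hu⟩ := hnot
  unfold SimpleGraph.IsTutteViolator at hu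
  set S : (sg s t vs w).Subgraph := (⊤ : (sg s t vs w).Subgraph).deleteVerts u with hS
  set H := S.coe with hH
  have hverts : ∀ x : {v // v ∈ vs}, x ∈ S.verts ↔ x ∉ u := by
    intro x
    simp [hS]
  haveI : Finite S.verts := Subtype.finite
  haveI : Finite H.ConnectedComponent := Quot.finite _
  haveI : Fintype H.ConnectedComponent := Fintype.ofFinite _
  set U : Finset V := vs.filter fun v => ∃ h : v ∈ vs, (⟨v, h⟩ : {v // v ∈ vs}) ∈ u with hU
  have hUsub : U ⊆ vs := filter_subset _ _
  have hUcard : U.card = u.ncard := by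
    rw [← Set.ncard_coe_finset]
    have : (U : Set V) = Subtype.val '' u := by
      ext v
      simp only [hU, coe_filter, Set.mem_setOf_eq, Set.mem_image]
      constructor
      · rintro ⟨_, h, h'⟩; exact ⟨_, h', rfl⟩
      · rintro ⟨⟨w, hw⟩, h, rfl⟩; exact ⟨hw, hw, h⟩
    rw [this, Set.ncard_image_of_injective _ Subtype.val_injective]
  set Q : H.ConnectedComponent → Finset V := fun c => vs.filter fun v =>
    ∃ (h : v ∈ vs) (h' : (⟨v, h⟩ : {v // v ∈ vs}) ∈ S.verts),
      H.connectedComponentMk ⟨⟨v, h⟩, h'⟩ = c with hQ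
  have hQsub : ∀ c, Q c ⊆ vs := fun c => filter_subset _ _
  have hQcard : ∀ c, (Q c).card = c.supp.ncard := by
    intro c
    rw [← Set.ncard_coe_finset]
    have : (Q c : Set V) = (fun x : S.verts => ((x : {v // v ∈ vs}) : V)) '' c.supp := by
      ext v
      simp only [hQ, coe_filter, Set.mem_setOf_eq, Set.mem_image,
        SimpleGraph.ConnectedComponent.mem_supp_iff]
      constructor
      · rintro ⟨_, h, h', h''⟩; exact ⟨_, h'', rfl⟩
      · rintro ⟨⟨⟨w, hw⟩, hw'⟩, h, rfl⟩; exact ⟨hw, hw, hw', h⟩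
    rw [this, Set.ncard_image_of_injective]
    intro x y hxy
    exact Subtype.ext (Subtype.ext hxy)
  have hQdis : ∀ c c', c ≠ c' → Disjoint (Q c) (Q c') := by
    intro c c' hcc
    rw [Finset.disjoint_left]
    intro v hv hv'
    simp only [hQ, mem_filter] at hv hv'
    obtain ⟨_, h, h1, h2⟩ := hv
    obtain ⟨_, h', h1', h2'⟩ := hv'
    exact hcc (h2.symm.trans h2')
  have hQU : ∀ c, Disjoint (Q c) U := by
    intro c
    rw [Finset.disjoint_left]
    intro v hv hv'
    simp only [hQ, mem_filter] at hv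
    simp only [hU, mem_filter] at hv'
    obtain ⟨_, h, h1, h2⟩ := hv
    obtain ⟨_, h', h1'⟩ := hv'
    exact (hverts _).1 h1 h1'
  have hleave : ∀ c (a b : V), a ∈ Q c → b ∉ Q c → b ∈ vs → a ≠ b →
      (∃ e, w e ≠ 0 ∧ s(s e, t e) = s(a, b)) → b ∈ U := by
    intro c a b ha hb hbv hab hex
    by_contra hnU
    have hnu : (⟨b, hbv⟩ : {v // v ∈ vs}) ∉ u := by
      intro h
      exact hnU (by simp only [hU, mem_filter]; exact ⟨hbv, hbv, h⟩)
    have hv2 := (hverts _).mpr hnu
    simp only [hQ, mem_filter] at ha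
    obtain ⟨hpv, h, h', h''⟩ := ha
    apply hb
    simp only [hQ, mem_filter]
    refine ⟨hbv, hbv, hv2, ?_⟩
    rw [← h'']
    apply SimpleGraph.ConnectedComponent.sound
    apply SimpleGraph.Adj.reachable
    have hadj : (sg s t vs w).Adj ⟨b, hbv⟩ ⟨a, h⟩ := by
      refine ⟨fun h => hab (congrArg Subtype.val h).symm, ?_⟩
      obtain ⟨e, he, hs⟩ := hex
      exact ⟨e, he, by rw [hs, Sym2.eq_swap]⟩
    show S.Adj _ _
    exact (SimpleGraph.Subgraph.deleteVerts_adj (G' := (⊤ : (sg s t vs w).Subgraph)) (s := u)).mpr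
      ⟨Set.mem_univ _, (hverts _).mp hv2, Set.mem_univ _, (hverts _).mp h', hadj⟩
  set OC : Finset H.ConnectedComponent := univ.filter fun c => c ∈ H.oddComponents with hOC
  have hOCcard : OC.card = H.oddComponents.ncard := by
    rw [← Set.ncard_coe_finset]
    congr 1
    ext c
    simp [hOC]
  have hodd : ∀ c ∈ OC, Odd (Q c).card := by
    intro c hc
    rw [hQcard]
    have : c ∈ H.oddComponents := (mem_filter.mp hc).2
    exact this
  have hlow : (OC.card : ℝ) ≤ ∑ c ∈ OC, wt s t w (Q c) := by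
    have h1 : ∑ c ∈ OC, (1 : ℝ) ≤ ∑ c ∈ OC, wt s t w (Q c) :=
      Finset.sum_le_sum fun c hc => hw.odd _ (hQsub c) (hodd c hc)
    rwa [Finset.sum_const, nsmul_eq_mul, mul_one] at h1
  have hup : ∑ c ∈ OC, wt s t w (Q c) ≤ ∑ v ∈ U, wt s t w {v} := by
    unfold wt
    rw [Finset.sum_comm, Finset.sum_comm (s := U)]
    refine Finset.sum_le_sum fun e _ => ?_
    by_cases he : w e = 0
    · simp [he]
    obtain ⟨h1, h2, h3⟩ := hw.ends e he
    by_cases hc : ∃ c ∈ OC, cr s t (Q c) e
    · obtain ⟨c, hcO, hcr⟩ := hc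
      -- the end in `U`
      have hend : ∃ v ∈ U, cr s t {v} e := by
        unfold cr at hcr
        by_cases ha : s e ∈ Q c
        · have hb : t e ∉ Q c := fun hb => hcr ⟨fun _ => hb, fun _ => ha⟩
          exact ⟨t e, hleave c _ _ ha hb h2 h3 ⟨e, he, rfl⟩, (cr_sing h3 _).2 (Or.inr rfl)⟩
        · have hb : t e ∈ Q c := by
            by_contra hb
            exact hcr ⟨fun h => absurd h ha, fun h => absurd h hb⟩
          exact ⟨s e, hleave c _ _ hb ha h1 h3.symm ⟨e, he, Sym2.eq_swap⟩,
            (cr_sing h3 _).2 (Or.inl rfl)⟩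
      have huq : ∀ c' ∈ OC, c' ≠ c → ¬ cr s t (Q c') e := by
        intro c' _ hne hcr'
        have d1 := Finset.disjoint_left.1 (hQdis c' c hne)
        have key : ∀ (x y : V), x ∈ Q c → y ∉ Q c → y ∈ vs → x ≠ y →
            (∃ e, w e ≠ 0 ∧ s(s e, t e) = s(x, y)) → x ∈ Q c' ∨ y ∈ Q c' → False := by
          intro x y hx hy hyv hxy hex h
          have hyU := hleave c x y hx hy hyv hxy hex
          rcases h with h | h
          · exact d1 h hx
          · exact (Finset.disjoint_left.1 (hQU c')) h hyU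
        unfold cr at hcr hcr'
        have hor : s e ∈ Q c' ∨ t e ∈ Q c' := by
          by_contra hh
          rw [not_or] at hh
          exact hcr' ⟨fun h => absurd h hh.1, fun h => absurd h hh.2⟩
        by_cases ha : s e ∈ Q c
        · have hb : t e ∉ Q c := fun hb => hcr ⟨fun _ => hb, fun _ => ha⟩
          exact key _ _ ha hb h2 h3 ⟨e, he, rfl⟩ hor
        · have hb : t e ∈ Q c := by
            by_contra hb
            exact hcr ⟨fun h => absurd h ha, fun h => absurd h hb⟩
          exact key _ _ hb ha h1 h3.symm ⟨e, he, Sym2.eq_swap⟩ hor.symm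
      rw [Finset.sum_eq_single_of_mem c hcO fun c' hc' hne => if_neg (huq c' hc' hne), if_pos hcr]
      obtain ⟨v, hv, hvc⟩ := hend
      refine le_trans (le_of_eq ?_) (Finset.single_le_sum (f := fun v =>
        if cr s t {v} e then w e else 0) (fun v _ => ?_) hv)
      · simp only [if_pos hvc]
      · show (0 : ℝ) ≤ if cr s t {v} e then w e else 0
        split_ifs
        · exact hw.nn e
        · exact le_refl _
    · have : ∑ c ∈ OC, (if cr s t (Q c) e then w e else 0) = 0 :=
        Finset.sum_eq_zero fun c hc' => if_neg fun h => hc ⟨c, hc', h⟩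
      rw [this]
      refine Finset.sum_nonneg fun v _ => ?_
      split_ifs
      · exact hw.nn e
      · exact le_refl _
  have hsum : ∑ v ∈ U, wt s t w {v} = U.card := by
    rw [Finset.sum_congr rfl fun v hv => hw.deg v (hUsub hv), Finset.sum_const, nsmul_eq_mul,
      mul_one]
  rw [← hOCcard, ← hUcard] at hu
  have : (OC.card : ℝ) ≤ U.card := by rw [← hsum]; exact hlow.trans hup
  exact absurd (Nat.cast_le.1 this) (not_le.2 hu)

end tutte

end EdP
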