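import Pool.Agent.Lib.EdP.Cyclic

/-! Three perfect matchings with common part of small cost. -/

set_option autoImplicit false
set_option linter.unusedSectionVars false

namespace EdP

open Finset Classical OddFour

variable {V E : Type*} [Fintype V] [Fintype E]

lemma sum_indc (w c : E → ℝ) (A : Finset E) :
    ∑ e, w e * (if e ∈ A then c e else 0) = ∑ e ∈ A, w e * c e := by
  rw [← Finset.sum_filter_add_sum_filter_not univ (fun e => e ∈ A)]
  have h1' : (univ.filter fun e => e ∈ A) = A := by ext e; simp
  rw [h1']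
  have h2 : ∑ e ∈ univ.filter (fun e => e ∉ A), w e * (if e ∈ A then c e else 0) = 0 :=
    Finset.sum_eq_zero fun e he => by rw [if_neg (mem_filter.1 he).2, mul_zero]
  rw [h2, add_zero]
  exact Finset.sum_congr rfl fun e he => by rw [if_pos he]

section cubic

variable {s t : E → V} (hst : ∀ e, s e ≠ t e) (hcub : ∀ v, cn s t univ {v} = 3)
  (hcut : ∀ X : Finset V, Odd X.card → 3 ≤ cn s t univ X)

include hst hcub hcut in
/-- Let `k ≥ 5` be odd and let `J` be a perfect matching meeting all 3-edge cuts once, such that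
every odd cut contained in `J` has at least `k` edges and every odd cut with exactly two edges
outside `J` and two sides which are not bipartite has three or at least `(k + 5) / 2` edges.
Then for every real cost there are two more perfect matchings such that the common part of the
three costs at most `1 / (k (k + 2))` times the cost of `J` -/
theorem three_cost (k : ℕ) (hk : 5 ≤ k) (hko : Odd k) {J : Finset E}
    (hJ : ∀ v, cn s t J {v} = 1)
    (hJ3 : ∀ X : Finset V, Odd X.card → cn s t univ X = 3 → cn s t J X = 1)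
    (ha : ∀ X : Finset V, Odd X.card → cn s t univ X = cn s t J X → k ≤ cn s t J X)
    (hb : ∀ X : Finset V, Odd X.card → ¬ Bip s t X → ¬ Bip s t (univ \ X) →
      cn s t univ X = cn s t J X + 2 → cn s t univ X = 3 ∨ k + 5 ≤ 2 * cn s t univ X)
    (c : E → ℝ) :
    ∃ M N : Finset E, (∀ v, cn s t M {v} = 1) ∧ (∀ v, cn s t N {v} = 1) ∧
      k * (k + 2) * ∑ e ∈ J ∩ M ∩ N, c e ≤ ∑ e ∈ J, c e := by
  have hle : ∀ (A : Finset E) (X : Finset V), cn s t A X ≤ cn s t univ X :=
    fun A X => cn_mono (subset_univ A) X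
  have hkR : (5 : ℝ) ≤ k := by exact_mod_cast hk
  have hk0 : (0 : ℝ) < k := by linarith
  have hcJ := card_pm hst hJ
  have hodd_sd : ∀ X : Finset V, Odd X.card → Odd (univ \ X : Finset V).card := by
    intro X hX
    have h1 : (univ \ X : Finset V).card + X.card = (univ : Finset V).card :=
      card_sdiff_add_card_eq_card (subset_univ X)
    rw [card_univ] at h1
    obtain ⟨a, ha⟩ := hX
    exact ⟨J.card - a - 1, by omega⟩
  set K : ℝ := (k : ℝ) with hK
  -- the second matching
  have hw2 : Frac s t univ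
      (fun e => (K - 1) / (2 * K) - (K - 3) / (2 * K) * (if e ∈ J then 1 else 0) -
        0 * (if e ∈ J then 1 else 0)) := by
    refine ⟨fun e => ?_, fun e _ => ⟨mem_univ _, mem_univ _, hst e⟩, ?_, ?_⟩
    · split_ifs
      · have : (K - 1) / (2 * K) - (K - 3) / (2 * K) * 1 - 0 * 1 = 1 / K := by
          field_simp
          ring
        rw [this]
        positivity
      · have : (K - 1) / (2 * K) - (K - 3) / (2 * K) * 0 - 0 * 0 = (K - 1) / (2 * K) := by
          ring
        rw [this]
        exact div_nonneg (by linarith) (by linarith)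
    · intro v _
      rw [wt_lin, hcub v, hJ v]
      push_cast
      field_simp
      ring
    · intro X _ hX
      rw [wt_lin]
      have h1 : (K - 1) / (2 * K) * (cn s t univ X : ℝ) - (K - 3) / (2 * K) * (cn s t J X : ℝ) -
          0 * (cn s t J X : ℝ) =
          ((K - 1) * cn s t univ X - (K - 3) * cn s t J X) / (2 * K) := by ring
      rw [h1, le_div_iff₀ (by linarith)]
      have h3 : (3 : ℝ) ≤ cn s t univ X := by exact_mod_cast hcut X hX
      by_cases h2 : cn s t univ X = cn s t J X
      · have h4 : K ≤ cn s t J X := by rw [hK]; exact_mod_cast ha X hX h2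
        rw [h2]
        nlinarith
      · have h4 : cn s t J X + 2 ≤ cn s t univ X := by
          obtain ⟨a, ha⟩ := pm_odd hst hJ hX
          obtain ⟨b, hb⟩ := odd_univ hst hcub hX
          have := hle J X
          omega
        have h5 : (cn s t J X : ℝ) + 2 ≤ cn s t univ X := by exact_mod_cast h4
        nlinarith
  obtain ⟨M, hM, hMT, hMc⟩ := edm_tight hst hw2
    (univ.filter fun X => Odd X.card ∧ (cn s t univ X = 3 ∨
      (cn s t univ X = k ∧ cn s t J X = k))) (by
      intro Z hZ
      rw [mem_filter] at hZ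
      refine ⟨hZ.2.1, ?_⟩
      rw [wt_lin]
      rcases hZ.2.2 with h | ⟨h, h'⟩
      · rw [h, hJ3 Z hZ.2.1 h]
        push_cast
        field_simp
        ring
      · rw [h, h', ← hK]
        field_simp
        ring) (fun e => if e ∈ J then c e else 0)
  have hM3 : ∀ X : Finset V, Odd X.card → cn s t univ X = 3 → cn s t M X = 1 :=
    fun X hX h => hMT X (mem_filter.2 ⟨mem_univ _, hX, Or.inl h⟩)
  have hM5 : ∀ X : Finset V, Odd X.card → cn s t univ X = k → cn s t J X = k →
      cn s t M X = 1 :=
    fun X hX h h' => hMT X (mem_filter.2 ⟨mem_univ _, hX, Or.inr ⟨h, h'⟩⟩)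
  have hb2 : K * ∑ e ∈ J ∩ M, c e ≤ ∑ e ∈ J, c e := by
    rw [sum_indc] at hMc
    have h1 : ∑ e ∈ M, (if e ∈ J then c e else 0) = ∑ e ∈ J ∩ M, c e := by
      rw [Finset.sum_ite_mem, inter_comm]
    have h2 : ∑ e ∈ J, ((K - 1) / (2 * K) - (K - 3) / (2 * K) * (if e ∈ J then 1 else 0) -
        0 * (if e ∈ J then 1 else 0)) * c e = (∑ e ∈ J, c e) / K := by
      rw [Finset.sum_div]
      refine Finset.sum_congr rfl fun e he => ?_
      rw [if_pos he]
      field_simp
      ring
    rw [h1, h2, le_div_iff₀ hk0] at hMc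
    linarith
  -- the third matching
  have hden : (0 : ℝ) < 4 * (K + 2) := by linarith
  have hnn3 : ∀ e, 0 ≤ (fun e => (2 * K + 2) / (4 * (K + 2)) - (K - 1) / (4 * (K + 2)) *
      (if e ∈ J then 1 else 0) - (K - 1) / (4 * (K + 2)) * (if e ∈ M then 1 else 0)) e := by
    intro e
    have h1 : ∀ a b : ℝ, (2 * K + 2) / (4 * (K + 2)) - (K - 1) / (4 * (K + 2)) * a -
        (K - 1) / (4 * (K + 2)) * b = (2 * K + 2 - (K - 1) * (a + b)) / (4 * (K + 2)) := by
      intro a b
      ring
    simp only
    rw [h1]
    apply div_nonneg _ hden.le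
    split_ifs <;> nlinarith
  have hdeg3 : ∀ v, wt s t (fun e => (2 * K + 2) / (4 * (K + 2)) - (K - 1) / (4 * (K + 2)) *
      (if e ∈ J then 1 else 0) - (K - 1) / (4 * (K + 2)) * (if e ∈ M then 1 else 0)) {v} = 1 := by
    intro v
    rw [wt_lin, hcub v, hJ v, hM v]
    push_cast
    field_simp
    ring
  have hw3 : Frac s t univ
      (fun e => (2 * K + 2) / (4 * (K + 2)) - (K - 1) / (4 * (K + 2)) *
        (if e ∈ J then 1 else 0) - (K - 1) / (4 * (K + 2)) * (if e ∈ M then 1 else 0)) := by
    refine ⟨hnn3, fun e _ => ⟨mem_univ _, mem_univ _, hst e⟩, fun v _ => hdeg3 v, ?_⟩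
    intro X _ hX
    by_cases hB1 : Bip s t X
    · exact bip_wt hst hnn3 hdeg3 hX hB1
    by_cases hB2 : Bip s t (univ \ X)
    · rw [← wt_univ_sdiff]
      exact bip_wt hst hnn3 hdeg3 (hodd_sd X hX) hB2
    rw [wt_lin]
    have h1 : (2 * K + 2) / (4 * (K + 2)) * (cn s t univ X : ℝ) -
        (K - 1) / (4 * (K + 2)) * (cn s t J X : ℝ) -
        (K - 1) / (4 * (K + 2)) * (cn s t M X : ℝ) =
        ((2 * K + 2) * cn s t univ X - (K - 1) * (cn s t J X + cn s t M X)) /
          (4 * (K + 2)) := by ring
    rw [h1, le_div_iff₀ hden, one_mul]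
    have hJl := hle J X
    have hMl := hle M X
    obtain ⟨a, hao⟩ := pm_odd hst hJ hX
    obtain ⟨b, hbo⟩ := pm_odd hst hM hX
    obtain ⟨d', hco⟩ := odd_univ hst hcub hX
    have h3 := hcut X hX
    have h3R : (3 : ℝ) ≤ cn s t univ X := by exact_mod_cast h3
    -- the sum of the two deficits
    by_cases h4 : cn s t J X + cn s t M X + 4 ≤ 2 * cn s t univ X
    · have h5 : (cn s t J X : ℝ) + cn s t M X + 4 ≤ 2 * cn s t univ X := by exact_mod_cast h4
      nlinarith
    · by_cases h5 : cn s t univ X = cn s t J X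
      · have h6 := ha X hX h5
        by_cases h7 : cn s t univ X = cn s t M X
        · have h8 : k + 2 ≤ cn s t univ X := by
            by_contra h9
            have h10 : cn s t univ X = k := by
              obtain ⟨d, hd⟩ := hko
              omega
            have h11 := hM5 X hX h10 (by omega)
            omega
          have h9 : K + 2 ≤ cn s t univ X := by rw [hK]; exact_mod_cast h8
          rw [← h5, ← h7]
          nlinarith
        · have h8 : cn s t M X + 2 = cn s t univ X := by omega
          have h9 : (cn s t M X : ℝ) = cn s t univ X - 2 := by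
            have : (cn s t M X : ℝ) + 2 = cn s t univ X := by exact_mod_cast h8
            linarith
          have h10 : K ≤ cn s t univ X := by rw [hK, h5]; exact_mod_cast h6
          rw [← h5, h9]
          nlinarith
      · have h6 : cn s t univ X = cn s t J X + 2 := by omega
        have h7 : cn s t univ X = cn s t M X := by omega
        rcases hb X hX hB1 hB2 h6 with h8 | h8
        · have h9 := hM3 X hX h8
          omega
        · have h9 : K + 5 ≤ 2 * cn s t univ X := by rw [hK]; exact_mod_cast h8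
          have h10 : (cn s t J X : ℝ) = cn s t univ X - 2 := by
            have : (cn s t univ X : ℝ) = cn s t J X + 2 := by exact_mod_cast h6
            linarith
          rw [← h7, h10]
          nlinarith
  obtain ⟨N, hN, -, hNc⟩ := edm_tight hst hw3 ∅ (fun Z hZ => absurd hZ (notMem_empty Z))
    (fun e => if e ∈ J ∩ M then c e else 0)
  have hb3 : (K + 2) * ∑ e ∈ J ∩ M ∩ N, c e ≤ ∑ e ∈ J ∩ M, c e := by
    rw [sum_indc] at hNc
    have h1 : ∑ e ∈ N, (if e ∈ J ∩ M then c e else 0) = ∑ e ∈ J ∩ M ∩ N, c e := by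
      rw [Finset.sum_ite_mem, inter_comm]
    have hk2 : (0 : ℝ) < K + 2 := by linarith
    have h2 : ∑ e ∈ J ∩ M, ((2 * K + 2) / (4 * (K + 2)) - (K - 1) / (4 * (K + 2)) *
        (if e ∈ J then 1 else 0) - (K - 1) / (4 * (K + 2)) * (if e ∈ M then 1 else 0)) * c e =
        (∑ e ∈ J ∩ M, c e) / (K + 2) := by
      rw [Finset.sum_div]
      refine Finset.sum_congr rfl fun e he => ?_
      rw [if_pos (mem_inter.1 he).1, if_pos (mem_inter.1 he).2]
      field_simp
      ring
    rw [h1, h2, le_div_iff₀ hk2] at hNc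
    linarith
  refine ⟨M, N, hM, hN, ?_⟩
  have h1 : K * ((K + 2) * ∑ e ∈ J ∩ M ∩ N, c e) ≤ K * ∑ e ∈ J ∩ M, c e :=
    mul_le_mul_of_nonneg_left hb3 hk0.le
  linarith

end cubic

end EdP
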