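import Pool.Agent.Lib.EdP.Main

/-! Three perfect matchings of a bridgeless cubic multigraph with small common part. -/

set_option autoImplicit false
set_option linter.unusedSectionVars false

namespace EdP

open Finset Classical OddFour

variable {V E : Type*} [Fintype V] [Fintype E]

lemma pm_odd {s t : E → V} (hst : ∀ e, s e ≠ t e) {M : Finset E}
    (hM : ∀ v, cn s t M {v} = 1) {Z : Finset V} (hZ : Odd Z.card) : Odd (cn s t M Z) := by
  rw [odd_cn fun e _ => hst e]
  · exact hZ
  · intro v _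
    rw [hM v]
    decide

/-- Edmonds' theorem with prescribed tight sets -/
theorem edm_tight {s t : E → V} (hst : ∀ e, s e ≠ t e) {w : E → ℝ}
    (hw : Frac s t univ w) (T : Finset (Finset V))
    (hT : ∀ Z ∈ T, Odd Z.card ∧ wt s t w Z = 1) (c : E → ℝ) :
    ∃ M : Finset E, (∀ v, cn s t M {v} = 1) ∧ (∀ Z ∈ T, cn s t M Z = 1) ∧
      ∑ e ∈ M, c e ≤ ∑ e, w e * c e := by
  set K : ℝ := ∑ e, |c e| + |∑ e, w e * c e| + 1 with hK
  have hK0 : 0 < K := by
    have h1 : 0 ≤ ∑ e, |c e| := Finset.sum_nonneg fun e _ => abs_nonneg _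
    have h2 := abs_nonneg (∑ e, w e * c e)
    linarith
  obtain ⟨M, hM, hc⟩ := edm _ s t univ w rfl hw
    (fun e => c e + K * ∑ Z ∈ T, (ci s t Z e : ℝ))
  have hM1 : ∀ v, cn s t M {v} = 1 := fun v => hM.one v (mem_univ v)
  have e1 : ∑ e ∈ M, (c e + K * ∑ Z ∈ T, (ci s t Z e : ℝ)) =
      ∑ e ∈ M, c e + K * ∑ Z ∈ T, (cn s t M Z : ℝ) := by
    rw [Finset.sum_add_distrib, ← Finset.mul_sum, Finset.sum_comm]
    congr 2
    refine Finset.sum_congr rfl fun Z _ => ?_
    unfold cn
    push_cast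
    rfl
  have e2 : ∑ e, w e * (c e + K * ∑ Z ∈ T, (ci s t Z e : ℝ)) =
      ∑ e, w e * c e + K * T.card := by
    have h1 : ∀ e, w e * (c e + K * ∑ Z ∈ T, (ci s t Z e : ℝ)) =
        w e * c e + K * ∑ Z ∈ T, w e * (ci s t Z e : ℝ) := by
      intro e
      rw [← Finset.mul_sum]
      ring
    rw [Finset.sum_congr rfl fun e _ => h1 e, Finset.sum_add_distrib, ← Finset.mul_sum,
      Finset.sum_comm]
    congr 2
    have h2 : ∀ Z ∈ T, ∑ e, w e * (ci s t Z e : ℝ) = 1 := by
      intro Z hZ
      rw [← (hT Z hZ).2]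
      unfold wt ci
      refine Finset.sum_congr rfl fun e _ => ?_
      split_ifs <;> simp
    rw [Finset.sum_congr rfl h2, Finset.sum_const, nsmul_eq_mul, mul_one]
  rw [e1, e2] at hc
  have hge : ∀ Z ∈ T, 1 ≤ cn s t M Z := fun Z hZ => (pm_odd hst hM1 (hT Z hZ).1).pos
  have hlow : -∑ e, |c e| ≤ ∑ e ∈ M, c e := by
    have h1 : ∑ e ∈ M, -|c e| ≤ ∑ e ∈ M, c e :=
      Finset.sum_le_sum fun e _ => neg_abs_le _
    have h2 : ∑ e ∈ M, |c e| ≤ ∑ e, |c e| :=
      Finset.sum_le_sum_of_subset_of_nonneg (subset_univ _) fun e _ _ => abs_nonneg _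
    rw [Finset.sum_neg_distrib] at h1
    linarith
  have hup : ∑ e, w e * c e ≤ |∑ e, w e * c e| := le_abs_self _
  have hsum : (T.card : ℝ) ≤ ∑ Z ∈ T, (cn s t M Z : ℝ) := by
    have : ∑ Z ∈ T, (1 : ℝ) ≤ ∑ Z ∈ T, (cn s t M Z : ℝ) :=
      Finset.sum_le_sum fun Z hZ => by exact_mod_cast hge Z hZ
    rwa [Finset.sum_const, nsmul_eq_mul, mul_one] at this
  have hall : ∀ Z ∈ T, cn s t M Z = 1 := by
    by_contra hcon
    push Not at hcon
    obtain ⟨Z0, hZ0, hne⟩ := hcon
    have h1 : (T.card : ℝ) + 1 ≤ ∑ Z ∈ T, (cn s t M Z : ℝ) := by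
      have h2 : (T.card : ℝ) + 1 = ∑ Z ∈ T, ((1 : ℝ) + if Z = Z0 then 1 else 0) := by
        rw [Finset.sum_add_distrib, Finset.sum_const, nsmul_eq_mul, mul_one,
          Finset.sum_ite_eq' T Z0, if_pos hZ0]
      rw [h2]
      refine Finset.sum_le_sum fun Z hZ => ?_
      have h3 := hge Z hZ
      split_ifs with h4
      · subst h4
        have h5 : 2 ≤ cn s t M Z := by omega
        have h6 : (2 : ℝ) ≤ cn s t M Z := by exact_mod_cast h5
        linarith
      · have h6 : (1 : ℝ) ≤ cn s t M Z := by exact_mod_cast h3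
        linarith
    have h2 : K * ((T.card : ℝ) + 1) ≤ K * ∑ Z ∈ T, (cn s t M Z : ℝ) :=
      mul_le_mul_of_nonneg_left h1 hK0.le
    linarith
  refine ⟨M, hM1, hall, ?_⟩
  have h2 : K * (T.card : ℝ) ≤ K * ∑ Z ∈ T, (cn s t M Z : ℝ) :=
    mul_le_mul_of_nonneg_left hsum hK0.le
  linarith

/-- weights `a - b [e ∈ J] - d [e ∈ M]` -/
lemma wt_lin (s t : E → V) (a b d : ℝ) (J M : Finset E) (X : Finset V) :
    wt s t (fun e => a - b * (if e ∈ J then 1 else 0) - d * (if e ∈ M then 1 else 0)) X =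
      a * cn s t univ X - b * cn s t J X - d * cn s t M X := by
  rw [cn_cast, cn_cast, cn_cast]
  unfold wt
  rw [Finset.mul_sum, Finset.mul_sum, Finset.mul_sum, ← Finset.sum_sub_distrib,
    ← Finset.sum_sub_distrib]
  refine Finset.sum_congr rfl fun e _ => ?_
  split_ifs <;> simp_all

lemma sum_ind (w : E → ℝ) (A : Finset E) :
    ∑ e, w e * (if e ∈ A then (1 : ℝ) else 0) = ∑ e ∈ A, w e := by
  rw [← Finset.sum_filter_add_sum_filter_not univ (fun e => e ∈ A)]
  have h1' : (univ.filter fun e => e ∈ A) = A := by ext e; simp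
  rw [h1']
  have h2 : ∑ e ∈ univ.filter (fun e => e ∉ A), w e * (if e ∈ A then (1 : ℝ) else 0) = 0 :=
    Finset.sum_eq_zero fun e he => by rw [if_neg (mem_filter.1 he).2, mul_zero]
  rw [h2, add_zero]
  exact Finset.sum_congr rfl fun e he => by rw [if_pos he, mul_one]

lemma card_pm {s t : E → V} (hst : ∀ e, s e ≠ t e) {M : Finset E}
    (hM : ∀ v, cn s t M {v} = 1) : 2 * M.card = Fintype.card V := by
  have h1 := sum_cn (s := s) (t := t) (A := M) (fun e _ => hst e) (univ : Finset V)
  rw [Finset.sum_congr rfl fun v _ => hM v, Finset.sum_const, smul_eq_mul, mul_one,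
    card_univ] at h1
  have h2 : cn s t M univ = 0 := by
    rw [cn_eq_zero]
    intro e _
    unfold cr
    simp
  have h3 : inn s t M univ = M.card := by
    unfold inn
    simp
  rw [h2, h3, zero_add] at h1
  exact h1.symm

section cubic

variable {s t : E → V} (hst : ∀ e, s e ≠ t e) (hcub : ∀ v, cn s t univ {v} = 3)
  (hcut : ∀ X : Finset V, Odd X.card → 3 ≤ cn s t univ X)

include hst hcub in
lemma odd_univ {X : Finset V} (hX : Odd X.card) : Odd (cn s t univ X) := by
  rw [odd_cn fun e _ => hst e]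
  · exact hX
  · intro v _
    rw [hcub v]
    decide

include hst hcub hcut in
/-- a perfect matching meeting all 3-edge cuts once -/
theorem exists_J : ∃ J : Finset E, (∀ v, cn s t J {v} = 1) ∧
    ∀ X : Finset V, Odd X.card → cn s t univ X = 3 → cn s t J X = 1 := by
  have hw : Frac s t univ (fun _ => (1 / 3 : ℝ)) := by
    have hwt : ∀ X, wt s t (fun _ => (1 / 3 : ℝ)) X = 1 / 3 * cn s t univ X := by
      intro X
      have := wt_lin s t (1 / 3) 0 0 ∅ ∅ X
      simpa using this
    refine ⟨fun _ => by norm_num, fun e _ => ⟨mem_univ _, mem_univ _, hst e⟩, ?_, ?_⟩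
    · intro v _
      rw [hwt, hcub v]
      norm_num
    · intro X _ hX
      rw [hwt]
      have : (3 : ℝ) ≤ cn s t univ X := by exact_mod_cast hcut X hX
      linarith
  obtain ⟨J, h1, h2, -⟩ := edm_tight hst hw
    (univ.filter fun X => Odd X.card ∧ cn s t univ X = 3) (by
      intro Z hZ
      rw [mem_filter] at hZ
      refine ⟨hZ.2.1, ?_⟩
      have := wt_lin s t (1 / 3) 0 0 ∅ ∅ Z
      have h3 : wt s t (fun _ => (1 / 3 : ℝ)) Z = 1 / 3 * cn s t univ Z := by simpa using this
      rw [h3, hZ.2.2]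
      norm_num) (fun _ => 0)
  exact ⟨J, h1, fun X hX h3 => h2 X (mem_filter.2 ⟨mem_univ _, hX, h3⟩)⟩

include hst hcub hcut in
/-- Let `k ≥ 5` be odd such that all odd cuts with fewer than `k` edges have at most three edges.
For every perfect matching `J` meeting all 3-edge cuts once there are two more perfect
matchings such that the three have at most `n / (2 k (k + 2))` edges in common -/
theorem three (k : ℕ) (hk : 5 ≤ k) (hko : Odd k)
    (hcon : ∀ X : Finset V, Odd X.card → cn s t univ X < k → cn s t univ X ≤ 3)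
    {J : Finset E} (hJ : ∀ v, cn s t J {v} = 1)
    (hJ3 : ∀ X : Finset V, Odd X.card → cn s t univ X = 3 → cn s t J X = 1) :
    ∃ M N : Finset E, (∀ v, cn s t M {v} = 1) ∧ (∀ v, cn s t N {v} = 1) ∧
      2 * k * (J ∩ M).card ≤ Fintype.card V ∧
      2 * k * (k + 2) * (J ∩ M ∩ N).card ≤ Fintype.card V := by
  have hle : ∀ (A : Finset E) (X : Finset V), cn s t A X ≤ cn s t univ X :=
    fun A X => cn_mono (subset_univ A) X
  have hcase : ∀ X : Finset V, Odd X.card → cn s t univ X = 3 ∨ k ≤ cn s t univ X := by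
    intro X hX
    have h1 := hcut X hX
    by_cases h2 : cn s t univ X < k
    · left
      have := hcon X hX h2
      omega
    · right
      omega
  have hkR : (5 : ℝ) ≤ k := by exact_mod_cast hk
  have hk0 : (0 : ℝ) < k := by linarith
  set K : ℝ := (k : ℝ) with hK
  -- the second matching
  have hw2 : Frac s t univ
      (fun e => (K - 1) / (2 * K) - (K - 3) / (2 * K) * (if e ∈ J then 1 else 0) -
        0 * (if e ∈ J then 1 else 0)) := by
    refine ⟨fun e => ?_, fun e _ => ⟨mem_univ _, mem_univ _, hst e⟩, ?_, ?_⟩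
    · split_ifs
      · have : (K - 1) / (2 * K) - (K - 3) / (2 * K) * 1 - 0 * 1 = 1 / K := by
          field_simp
          ring
        rw [this]
        positivity
      · have : (K - 1) / (2 * K) - (K - 3) / (2 * K) * 0 - 0 * 0 = (K - 1) / (2 * K) := by
          ring
        rw [this]
        exact div_nonneg (by linarith) (by linarith)
    · intro v _
      rw [wt_lin, hcub v, hJ v]
      push_cast
      field_simp
      ring
    · intro X _ hX
      rw [wt_lin]
      have h1 : (K - 1) / (2 * K) * (cn s t univ X : ℝ) - (K - 3) / (2 * K) * (cn s t J X : ℝ) -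
          0 * (cn s t J X : ℝ) =
          ((K - 1) * cn s t univ X - (K - 3) * cn s t J X) / (2 * K) := by ring
      rw [h1, le_div_iff₀ (by linarith)]
      rcases hcase X hX with h3 | h3
      · rw [h3, hJ3 X hX h3]
        push_cast
        linarith
      · have h5 : K ≤ cn s t univ X := by rw [hK]; exact_mod_cast h3
        have h6 : (cn s t J X : ℝ) ≤ cn s t univ X := by exact_mod_cast hle J X
        nlinarith
  obtain ⟨M, hM, hMT, hMc⟩ := edm_tight hst hw2
    (univ.filter fun X => Odd X.card ∧ (cn s t univ X = 3 ∨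
      (cn s t univ X = k ∧ cn s t J X = k))) (by
      intro Z hZ
      rw [mem_filter] at hZ
      refine ⟨hZ.2.1, ?_⟩
      rw [wt_lin]
      rcases hZ.2.2 with h | ⟨h, h'⟩
      · rw [h, hJ3 Z hZ.2.1 h]
        push_cast
        field_simp
        ring
      · rw [h, h', ← hK]
        field_simp
        ring) (fun e => if e ∈ J then 1 else 0)
  have hM3 : ∀ X : Finset V, Odd X.card → cn s t univ X = 3 → cn s t M X = 1 :=
    fun X hX h => hMT X (mem_filter.2 ⟨mem_univ _, hX, Or.inl h⟩)
  have hM5 : ∀ X : Finset V, Odd X.card → cn s t univ X = k → cn s t J X = k →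
      cn s t M X = 1 :=
    fun X hX h h' => hMT X (mem_filter.2 ⟨mem_univ _, hX, Or.inr ⟨h, h'⟩⟩)
  have hb : K * ((J ∩ M).card : ℝ) ≤ J.card := by
    rw [sum_ind] at hMc
    have h1 : ∑ e ∈ M, (if e ∈ J then (1 : ℝ) else 0) = (J ∩ M).card := by
      rw [Finset.sum_ite_mem, Finset.sum_const, nsmul_eq_mul, mul_one, inter_comm]
    have h2 : ∑ e ∈ J, ((K - 1) / (2 * K) - (K - 3) / (2 * K) * (if e ∈ J then 1 else 0) -
        0 * (if e ∈ J then 1 else 0)) = J.card / K := by
      rw [Finset.sum_congr rfl (fun e he => by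
        rw [if_pos he] : ∀ e ∈ J, ((K - 1) / (2 * K) - (K - 3) / (2 * K) *
        (if e ∈ J then 1 else 0) - 0 * (if e ∈ J then 1 else 0)) =
          (K - 1) / (2 * K) - (K - 3) / (2 * K) * 1 - 0 * 1), Finset.sum_const,
        nsmul_eq_mul]
      field_simp
      ring
    rw [h1, h2, le_div_iff₀ hk0] at hMc
    linarith
  -- the third matching
  have hw3 : Frac s t univ
      (fun e => (2 * K + 2) / (4 * (K + 2)) - (K - 1) / (4 * (K + 2)) *
        (if e ∈ J then 1 else 0) - (K - 1) / (4 * (K + 2)) * (if e ∈ M then 1 else 0)) := by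
    have hden : (0 : ℝ) < 4 * (K + 2) := by linarith
    refine ⟨fun e => ?_, fun e _ => ⟨mem_univ _, mem_univ _, hst e⟩, ?_, ?_⟩
    · have h1 : ∀ a b : ℝ, (2 * K + 2) / (4 * (K + 2)) - (K - 1) / (4 * (K + 2)) * a -
          (K - 1) / (4 * (K + 2)) * b = (2 * K + 2 - (K - 1) * (a + b)) / (4 * (K + 2)) := by
        intro a b
        ring
      rw [h1]
      apply div_nonneg _ hden.le
      split_ifs <;> nlinarith
    · intro v _
      rw [wt_lin, hcub v, hJ v, hM v]
      push_cast
      field_simp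
      ring
    · intro X _ hX
      rw [wt_lin]
      have h1 : (2 * K + 2) / (4 * (K + 2)) * (cn s t univ X : ℝ) -
          (K - 1) / (4 * (K + 2)) * (cn s t J X : ℝ) -
          (K - 1) / (4 * (K + 2)) * (cn s t M X : ℝ) =
          ((2 * K + 2) * cn s t univ X - (K - 1) * (cn s t J X + cn s t M X)) /
            (4 * (K + 2)) := by ring
      rw [h1, le_div_iff₀ hden, one_mul]
      have hJl : (cn s t J X : ℝ) ≤ cn s t univ X := by exact_mod_cast hle J X
      have hMl : (cn s t M X : ℝ) ≤ cn s t univ X := by exact_mod_cast hle M X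
      rcases hcase X hX with h3 | h3
      · rw [h3, hJ3 X hX h3, hM3 X hX h3]
        push_cast
        linarith
      · by_cases h5 : cn s t univ X = k
        · by_cases h6 : cn s t J X = k
          · rw [hM5 X hX h5 h6, h5, h6, ← hK]
            push_cast
            nlinarith
          · have h7 : cn s t J X + 2 ≤ k := by
              obtain ⟨a, ha⟩ := pm_odd hst hJ hX
              obtain ⟨b, hb⟩ := hko
              have := hle J X
              omega
            have h8 : (cn s t J X : ℝ) + 2 ≤ K := by rw [hK]; exact_mod_cast h7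
            rw [h5, ← hK] at hMl ⊢
            nlinarith
        · have h7 : k + 2 ≤ cn s t univ X := by
            obtain ⟨a, ha⟩ := odd_univ hst hcub hX
            obtain ⟨b, hb⟩ := hko
            omega
          have h8 : K + 2 ≤ cn s t univ X := by rw [hK]; exact_mod_cast h7
          nlinarith
  obtain ⟨N, hN, -, hNc⟩ := edm_tight hst hw3 ∅ (fun Z hZ => absurd hZ (notMem_empty Z))
    (fun e => if e ∈ J ∩ M then 1 else 0)
  have hb3 : (K + 2) * ((J ∩ M ∩ N).card : ℝ) ≤ (J ∩ M).card := by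
    rw [sum_ind] at hNc
    have h1 : ∑ e ∈ N, (if e ∈ J ∩ M then (1 : ℝ) else 0) = (J ∩ M ∩ N).card := by
      rw [Finset.sum_ite_mem, Finset.sum_const, nsmul_eq_mul, mul_one, inter_comm]
    have hk2 : (0 : ℝ) < K + 2 := by linarith
    have h2 : ∑ e ∈ J ∩ M, ((2 * K + 2) / (4 * (K + 2)) - (K - 1) / (4 * (K + 2)) *
        (if e ∈ J then 1 else 0) - (K - 1) / (4 * (K + 2)) * (if e ∈ M then 1 else 0)) =
        (J ∩ M).card / (K + 2) := by
      rw [Finset.sum_congr rfl (fun e he => by
        rw [if_pos (mem_inter.1 he).1, if_pos (mem_inter.1 he).2] :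
          ∀ e ∈ J ∩ M, ((2 * K + 2) / (4 * (K + 2)) - (K - 1) / (4 * (K + 2)) *
        (if e ∈ J then 1 else 0) - (K - 1) / (4 * (K + 2)) * (if e ∈ M then 1 else 0)) =
        (2 * K + 2) / (4 * (K + 2)) - (K - 1) / (4 * (K + 2)) * 1 -
          (K - 1) / (4 * (K + 2)) * 1),
        Finset.sum_const, nsmul_eq_mul]
      field_simp
      ring
    rw [h1, h2, le_div_iff₀ hk2] at hNc
    linarith
  have hc := card_pm hst hJ
  refine ⟨M, N, hM, hN, ?_, ?_⟩
  · have h1 : 2 * K * ((J ∩ M).card : ℝ) ≤ 2 * J.card := by linarith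
    rw [hK] at h1
    have h2 : 2 * k * (J ∩ M).card ≤ 2 * J.card := by exact_mod_cast h1
    omega
  · have h1 : 2 * K * (K + 2) * ((J ∩ M ∩ N).card : ℝ) ≤ 2 * J.card := by nlinarith
    rw [hK] at h1
    have h2 : 2 * k * (k + 2) * (J ∩ M ∩ N).card ≤ 2 * J.card := by exact_mod_cast h1
    omega

end cubic

end EdP
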