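import Pool.Agent.Lib.EdP.Cubic

/-! Three perfect matchings with small common part: conditions on closed cuts and on cuts with
two sides which are not bipartite. -/

set_option autoImplicit false
set_option linter.unusedSectionVars false

namespace EdP

open Finset Classical OddFour

variable {V E : Type*} [Fintype V] [Fintype E]

/-- the edges with both ends in `X` form a bipartite graph -/
def Bip (s t : E → V) (X : Finset V) : Prop :=
  ∃ A : Finset V, ∀ e, s e ∈ X → t e ∈ X → (s e ∈ A ↔ t e ∉ A)

lemma sum_wt_sing {s t : E → V} (hst : ∀ e, s e ≠ t e) (w : E → ℝ) (P : Finset V) :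
    ∑ v ∈ P, wt s t w {v} =
      ∑ e, w e * ((if s e ∈ P then 1 else 0) + (if t e ∈ P then 1 else 0)) := by
  unfold wt
  rw [Finset.sum_comm]
  refine Finset.sum_congr rfl fun e _ => ?_
  have h1 : ∀ v ∈ P, (if cr s t {v} e then w e else 0) =
      w e * (if s e = v then 1 else 0) + w e * (if t e = v then 1 else 0) := by
    intro v _
    rw [if_congr (cr_sing (hst e) v) rfl rfl]
    by_cases h2 : s e = v
    · have h3 : t e ≠ v := fun h => hst e (h2.trans h.symm)
      simp [h2, h3]
    · by_cases h3 : t e = v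
      · simp [h2, h3]
      · simp [h2, h3]
  rw [Finset.sum_congr rfl h1, Finset.sum_add_distrib, ← Finset.mul_sum, ← Finset.mul_sum,
    Finset.sum_ite_eq, Finset.sum_ite_eq]
  ring

/-- an odd set spanning a bipartite graph satisfies its inequality -/
lemma bip_wt {s t : E → V} (hst : ∀ e, s e ≠ t e) {w : E → ℝ} (h0 : ∀ e, 0 ≤ w e)
    (h1 : ∀ v, wt s t w {v} = 1) {X : Finset V} (hX : Odd X.card) (hb : Bip s t X) :
    1 ≤ wt s t w X := by
  obtain ⟨A, hA⟩ := hb
  have hP := sum_wt_sing hst w (X ∩ A)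
  have hQ := sum_wt_sing hst w (X \ A)
  rw [Finset.sum_congr rfl fun v _ => h1 v, Finset.sum_const, nsmul_eq_mul, mul_one] at hP hQ
  have key : ∀ e, |w e * ((if s e ∈ X ∩ A then (1 : ℝ) else 0) +
      (if t e ∈ X ∩ A then 1 else 0)) - w e * ((if s e ∈ X \ A then 1 else 0) +
      (if t e ∈ X \ A then 1 else 0))| ≤ if cr s t X e then w e else 0 := by
    intro e
    have h2 := h0 e
    have h3 := hA e
    unfold cr
    by_cases hs : s e ∈ X <;> by_cases ht : t e ∈ X <;> by_cases hsA : s e ∈ A <;>
      by_cases htA : t e ∈ A <;> simp_all [abs_of_nonneg]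
  have hsum : |((X ∩ A).card : ℝ) - ((X \ A).card : ℝ)| ≤ wt s t w X := by
    rw [hP, hQ, ← Finset.sum_sub_distrib]
    refine (Finset.abs_sum_le_sum_abs _ _).trans ?_
    exact Finset.sum_le_sum fun e _ => key e
  have hcard : (X ∩ A).card + (X \ A).card = X.card := card_inter_add_card_sdiff X A
  refine le_trans ?_ hsum
  have hne : (X ∩ A).card ≠ (X \ A).card := by
    intro h
    rw [← hcard, h] at hX
    exact (Nat.not_even_iff_odd.2 hX) ⟨_, rfl⟩
  rcases lt_or_gt_of_ne hne with h | h
  · have h4 : ((X ∩ A).card : ℝ) + 1 ≤ ((X \ A).card : ℝ) := by exact_mod_cast h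
    rw [abs_sub_comm]
    exact le_trans (by linarith) (le_abs_self _)
  · have h4 : ((X \ A).card : ℝ) + 1 ≤ ((X ∩ A).card : ℝ) := by exact_mod_cast h
    exact le_trans (by linarith) (le_abs_self _)

lemma wt_univ_sdiff (s t : E → V) (w : E → ℝ) (X : Finset V) :
    wt s t w (univ \ X) = wt s t w X := by
  unfold wt
  refine Finset.sum_congr rfl fun e _ => ?_
  have h : cr s t (univ \ X) e ↔ cr s t X e := by
    unfold cr
    simp only [mem_sdiff, mem_univ, true_and]
    tauto
  rw [if_congr h rfl rfl]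

section cubic

variable {s t : E → V} (hst : ∀ e, s e ≠ t e) (hcub : ∀ v, cn s t univ {v} = 3)
  (hcut : ∀ X : Finset V, Odd X.card → 3 ≤ cn s t univ X)

include hst hcub hcut in
/-- Let `k ≥ 5` be odd and let `J` be a perfect matching meeting all 3-edge cuts once, such that
every odd cut contained in `J` has at least `k` edges and every odd cut with exactly two edges
outside `J` and two sides which are not bipartite has three or at least `(k + 5) / 2` edges.
Then there are two more perfect matchings such that the three have at most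
`n / (2 k (k + 2))` edges in common -/
theorem three' (k : ℕ) (hk : 5 ≤ k) (hko : Odd k) {J : Finset E}
    (hJ : ∀ v, cn s t J {v} = 1)
    (hJ3 : ∀ X : Finset V, Odd X.card → cn s t univ X = 3 → cn s t J X = 1)
    (ha : ∀ X : Finset V, Odd X.card → cn s t univ X = cn s t J X → k ≤ cn s t J X)
    (hb : ∀ X : Finset V, Odd X.card → ¬ Bip s t X → ¬ Bip s t (univ \ X) →
      cn s t univ X = cn s t J X + 2 → cn s t univ X = 3 ∨ k + 5 ≤ 2 * cn s t univ X) :
    ∃ M N : Finset E, (∀ v, cn s t M {v} = 1) ∧ (∀ v, cn s t N {v} = 1) ∧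
      2 * k * (J ∩ M).card ≤ Fintype.card V ∧
      2 * k * (k + 2) * (J ∩ M ∩ N).card ≤ Fintype.card V := by
  have hle : ∀ (A : Finset E) (X : Finset V), cn s t A X ≤ cn s t univ X :=
    fun A X => cn_mono (subset_univ A) X
  have hkR : (5 : ℝ) ≤ k := by exact_mod_cast hk
  have hk0 : (0 : ℝ) < k := by linarith
  have hcJ := card_pm hst hJ
  have hodd_sd : ∀ X : Finset V, Odd X.card → Odd (univ \ X : Finset V).card := by
    intro X hX
    have h1 : (univ \ X : Finset V).card + X.card = (univ : Finset V).card :=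
      card_sdiff_add_card_eq_card (subset_univ X)
    rw [card_univ] at h1
    obtain ⟨a, ha⟩ := hX
    exact ⟨J.card - a - 1, by omega⟩
  set K : ℝ := (k : ℝ) with hK
  -- the second matching
  have hw2 : Frac s t univ
      (fun e => (K - 1) / (2 * K) - (K - 3) / (2 * K) * (if e ∈ J then 1 else 0) -
        0 * (if e ∈ J then 1 else 0)) := by
    refine ⟨fun e => ?_, fun e _ => ⟨mem_univ _, mem_univ _, hst e⟩, ?_, ?_⟩
    · split_ifs
      · have : (K - 1) / (2 * K) - (K - 3) / (2 * K) * 1 - 0 * 1 = 1 / K := by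
          field_simp
          ring
        rw [this]
        positivity
      · have : (K - 1) / (2 * K) - (K - 3) / (2 * K) * 0 - 0 * 0 = (K - 1) / (2 * K) := by
          ring
        rw [this]
        exact div_nonneg (by linarith) (by linarith)
    · intro v _
      rw [wt_lin, hcub v, hJ v]
      push_cast
      field_simp
      ring
    · intro X _ hX
      rw [wt_lin]
      have h1 : (K - 1) / (2 * K) * (cn s t univ X : ℝ) - (K - 3) / (2 * K) * (cn s t J X : ℝ) -
          0 * (cn s t J X : ℝ) =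
          ((K - 1) * cn s t univ X - (K - 3) * cn s t J X) / (2 * K) := by ring
      rw [h1, le_div_iff₀ (by linarith)]
      have h3 : (3 : ℝ) ≤ cn s t univ X := by exact_mod_cast hcut X hX
      by_cases h2 : cn s t univ X = cn s t J X
      · have h4 : K ≤ cn s t J X := by rw [hK]; exact_mod_cast ha X hX h2
        rw [h2]
        nlinarith
      · have h4 : cn s t J X + 2 ≤ cn s t univ X := by
          obtain ⟨a, ha⟩ := pm_odd hst hJ hX
          obtain ⟨b, hb⟩ := odd_univ hst hcub hX
          have := hle J X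
          omega
        have h5 : (cn s t J X : ℝ) + 2 ≤ cn s t univ X := by exact_mod_cast h4
        nlinarith
  obtain ⟨M, hM, hMT, hMc⟩ := edm_tight hst hw2
    (univ.filter fun X => Odd X.card ∧ (cn s t univ X = 3 ∨
      (cn s t univ X = k ∧ cn s t J X = k))) (by
      intro Z hZ
      rw [mem_filter] at hZ
      refine ⟨hZ.2.1, ?_⟩
      rw [wt_lin]
      rcases hZ.2.2 with h | ⟨h, h'⟩
      · rw [h, hJ3 Z hZ.2.1 h]
        push_cast
        field_simp
        ring
      · rw [h, h', ← hK]
        field_simp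
        ring) (fun e => if e ∈ J then 1 else 0)
  have hM3 : ∀ X : Finset V, Odd X.card → cn s t univ X = 3 → cn s t M X = 1 :=
    fun X hX h => hMT X (mem_filter.2 ⟨mem_univ _, hX, Or.inl h⟩)
  have hM5 : ∀ X : Finset V, Odd X.card → cn s t univ X = k → cn s t J X = k →
      cn s t M X = 1 :=
    fun X hX h h' => hMT X (mem_filter.2 ⟨mem_univ _, hX, Or.inr ⟨h, h'⟩⟩)
  have hb2 : K * ((J ∩ M).card : ℝ) ≤ J.card := by
    rw [sum_ind] at hMc
    have h1 : ∑ e ∈ M, (if e ∈ J then (1 : ℝ) else 0) = (J ∩ M).card := by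
      rw [Finset.sum_ite_mem, Finset.sum_const, nsmul_eq_mul, mul_one, inter_comm]
    have h2 : ∑ e ∈ J, ((K - 1) / (2 * K) - (K - 3) / (2 * K) * (if e ∈ J then 1 else 0) -
        0 * (if e ∈ J then 1 else 0)) = J.card / K := by
      rw [Finset.sum_congr rfl (fun e he => by
        rw [if_pos he] : ∀ e ∈ J, ((K - 1) / (2 * K) - (K - 3) / (2 * K) *
        (if e ∈ J then 1 else 0) - 0 * (if e ∈ J then 1 else 0)) =
          (K - 1) / (2 * K) - (K - 3) / (2 * K) * 1 - 0 * 1), Finset.sum_const,
        nsmul_eq_mul]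
      field_simp
      ring
    rw [h1, h2, le_div_iff₀ hk0] at hMc
    linarith
  -- the third matching
  have hden : (0 : ℝ) < 4 * (K + 2) := by linarith
  have hnn3 : ∀ e, 0 ≤ (fun e => (2 * K + 2) / (4 * (K + 2)) - (K - 1) / (4 * (K + 2)) *
      (if e ∈ J then 1 else 0) - (K - 1) / (4 * (K + 2)) * (if e ∈ M then 1 else 0)) e := by
    intro e
    have h1 : ∀ a b : ℝ, (2 * K + 2) / (4 * (K + 2)) - (K - 1) / (4 * (K + 2)) * a -
        (K - 1) / (4 * (K + 2)) * b = (2 * K + 2 - (K - 1) * (a + b)) / (4 * (K + 2)) := by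
      intro a b
      ring
    simp only
    rw [h1]
    apply div_nonneg _ hden.le
    split_ifs <;> nlinarith
  have hdeg3 : ∀ v, wt s t (fun e => (2 * K + 2) / (4 * (K + 2)) - (K - 1) / (4 * (K + 2)) *
      (if e ∈ J then 1 else 0) - (K - 1) / (4 * (K + 2)) * (if e ∈ M then 1 else 0)) {v} = 1 := by
    intro v
    rw [wt_lin, hcub v, hJ v, hM v]
    push_cast
    field_simp
    ring
  have hw3 : Frac s t univ
      (fun e => (2 * K + 2) / (4 * (K + 2)) - (K - 1) / (4 * (K + 2)) *
        (if e ∈ J then 1 else 0) - (K - 1) / (4 * (K + 2)) * (if e ∈ M then 1 else 0)) := by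
    refine ⟨hnn3, fun e _ => ⟨mem_univ _, mem_univ _, hst e⟩, fun v _ => hdeg3 v, ?_⟩
    intro X _ hX
    by_cases hB1 : Bip s t X
    · exact bip_wt hst hnn3 hdeg3 hX hB1
    by_cases hB2 : Bip s t (univ \ X)
    · rw [← wt_univ_sdiff]
      exact bip_wt hst hnn3 hdeg3 (hodd_sd X hX) hB2
    rw [wt_lin]
    have h1 : (2 * K + 2) / (4 * (K + 2)) * (cn s t univ X : ℝ) -
        (K - 1) / (4 * (K + 2)) * (cn s t J X : ℝ) -
        (K - 1) / (4 * (K + 2)) * (cn s t M X : ℝ) =
        ((2 * K + 2) * cn s t univ X - (K - 1) * (cn s t J X + cn s t M X)) /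
          (4 * (K + 2)) := by ring
    rw [h1, le_div_iff₀ hden, one_mul]
    have hJl := hle J X
    have hMl := hle M X
    obtain ⟨a, hao⟩ := pm_odd hst hJ hX
    obtain ⟨b, hbo⟩ := pm_odd hst hM hX
    obtain ⟨c, hco⟩ := odd_univ hst hcub hX
    have h3 := hcut X hX
    have h3R : (3 : ℝ) ≤ cn s t univ X := by exact_mod_cast h3
    -- the sum of the two deficits
    by_cases h4 : cn s t J X + cn s t M X + 4 ≤ 2 * cn s t univ X
    · have h5 : (cn s t J X : ℝ) + cn s t M X + 4 ≤ 2 * cn s t univ X := by exact_mod_cast h4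
      nlinarith
    · by_cases h5 : cn s t univ X = cn s t J X
      · have h6 := ha X hX h5
        by_cases h7 : cn s t univ X = cn s t M X
        · have h8 : k + 2 ≤ cn s t univ X := by
            by_contra h9
            have h10 : cn s t univ X = k := by
              obtain ⟨d, hd⟩ := hko
              omega
            have h11 := hM5 X hX h10 (by omega)
            omega
          have h9 : K + 2 ≤ cn s t univ X := by rw [hK]; exact_mod_cast h8
          rw [← h5, ← h7]
          nlinarith
        · have h8 : cn s t M X + 2 = cn s t univ X := by omega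
          have h9 : (cn s t M X : ℝ) = cn s t univ X - 2 := by
            have : (cn s t M X : ℝ) + 2 = cn s t univ X := by exact_mod_cast h8
            linarith
          have h10 : K ≤ cn s t univ X := by rw [hK, h5]; exact_mod_cast h6
          rw [← h5, h9]
          nlinarith
      · have h6 : cn s t univ X = cn s t J X + 2 := by omega
        have h7 : cn s t univ X = cn s t M X := by omega
        rcases hb X hX hB1 hB2 h6 with h8 | h8
        · have h9 := hM3 X hX h8
          omega
        · have h9 : K + 5 ≤ 2 * cn s t univ X := by rw [hK]; exact_mod_cast h8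
          have h10 : (cn s t J X : ℝ) = cn s t univ X - 2 := by
            have : (cn s t univ X : ℝ) = cn s t J X + 2 := by exact_mod_cast h6
            linarith
          rw [← h7, h10]
          nlinarith
  obtain ⟨N, hN, -, hNc⟩ := edm_tight hst hw3 ∅ (fun Z hZ => absurd hZ (notMem_empty Z))
    (fun e => if e ∈ J ∩ M then 1 else 0)
  have hb3 : (K + 2) * ((J ∩ M ∩ N).card : ℝ) ≤ (J ∩ M).card := by
    rw [sum_ind] at hNc
    have h1 : ∑ e ∈ N, (if e ∈ J ∩ M then (1 : ℝ) else 0) = (J ∩ M ∩ N).card := by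
      rw [Finset.sum_ite_mem, Finset.sum_const, nsmul_eq_mul, mul_one, inter_comm]
    have hk2 : (0 : ℝ) < K + 2 := by linarith
    have h2 : ∑ e ∈ J ∩ M, ((2 * K + 2) / (4 * (K + 2)) - (K - 1) / (4 * (K + 2)) *
        (if e ∈ J then 1 else 0) - (K - 1) / (4 * (K + 2)) * (if e ∈ M then 1 else 0)) =
        (J ∩ M).card / (K + 2) := by
      rw [Finset.sum_congr rfl (fun e he => by
        rw [if_pos (mem_inter.1 he).1, if_pos (mem_inter.1 he).2] :
          ∀ e ∈ J ∩ M, ((2 * K + 2) / (4 * (K + 2)) - (K - 1) / (4 * (K + 2)) *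
        (if e ∈ J then 1 else 0) - (K - 1) / (4 * (K + 2)) * (if e ∈ M then 1 else 0)) =
        (2 * K + 2) / (4 * (K + 2)) - (K - 1) / (4 * (K + 2)) * 1 -
          (K - 1) / (4 * (K + 2)) * 1),
        Finset.sum_const, nsmul_eq_mul]
      field_simp
      ring
    rw [h1, h2, le_div_iff₀ hk2] at hNc
    linarith
  refine ⟨M, N, hM, hN, ?_, ?_⟩
  · have h1 : 2 * K * ((J ∩ M).card : ℝ) ≤ 2 * J.card := by linarith
    rw [hK] at h1
    have h2 : 2 * k * (J ∩ M).card ≤ 2 * J.card := by exact_mod_cast h1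
    omega
  · have h1 : 2 * K * (K + 2) * ((J ∩ M ∩ N).card : ℝ) ≤ 2 * J.card := by nlinarith
    rw [hK] at h1
    have h2 : 2 * k * (k + 2) * (J ∩ M ∩ N).card ≤ 2 * J.card := by exact_mod_cast h1
    omega

end cubic

end EdP
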