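import Pool.Agent.Results.MP_c95763_co.ThreeTwoFactorsCuts

/-! Special cases of the theorem on three 2-factors. -/

set_option autoImplicit false

namespace EdP

open Finset OddFour Pool.Agent.Results.MP_c95763_co.ThreeTwoFactorsCuts

section

variable {V E : Type*} [Fintype V] [Fintype E] [DecidableEq V] [DecidableEq E]

omit [Fintype V] [DecidableEq E] in
lemma mem_cut' (G : Multigraph V E) (Z : Finset V) (e : E) :
    e ∈ cut G Z ↔ cr G.src G.tgt Z e := by
  unfold cut cr
  simp

/-- an odd vertex set left by no edge of a 2-factor does not induce a bipartite graph -/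
lemma not_bipartite_of_closed (G : Multigraph V E) (C : Finset E) (hC : G.IsTwoFactor C)
    (Z : Finset V) (hZ : Odd Z.card) (h : ∀ e ∈ cut G Z, e ∉ C) : ¬ InducesBipartite G Z := by
  rename_i dV dE
  obtain rfl : dV = fun a b => Classical.propDecidable (a = b) := Subsingleton.elim _ _
  obtain rfl : dE = fun a b => Classical.propDecidable (a = b) := Subsingleton.elim _ _
  classical
  intro hb
  have hwt : ∀ X : Finset V, wt G.src G.tgt (fun e => if e ∈ C then (1 / 2 : ℝ) else 0) X =
      1 / 2 * cn G.src G.tgt C X := by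
    intro X
    rw [cn_cast, Finset.mul_sum]
    unfold wt
    refine Finset.sum_congr rfl fun e _ => ?_
    split_ifs <;> simp [*]
  have h1 := bip_wt (s := G.src) (t := G.tgt) G.loopless
    (w := fun e => if e ∈ C then (1 / 2 : ℝ) else 0)
    (fun e => by
      show (0 : ℝ) ≤ if e ∈ C then (1 / 2 : ℝ) else 0
      split_ifs <;> norm_num)
    (fun v => by
      rw [hwt, ← deg_eq, hC v]
      norm_num) hZ hb
  rw [hwt] at h1
  have h2 : cn G.src G.tgt C Z = 0 := by
    rw [cn_eq_zero]
    intro e he hc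
    exact h e ((mem_cut' G Z e).2 hc) he
  rw [h2] at h1
  norm_num at h1

/-- the two conditions hold if `C` meets every 3-edge cut and all odd cuts with two sides which
are not bipartite have three or at least `k` edges -/
theorem cuts_of_cyclic (G : Multigraph V E) (hcubic : G.Cubic) (C : Finset E)
    (hC : G.IsTwoFactor C) (h3 : ∀ Z : Finset V, (cut G Z).card = 3 → ∃ e ∈ cut G Z, e ∈ C)
    (k : ℕ) (hk : 5 ≤ k)
    (h : ∀ Z : Finset V, Odd Z.card → ¬ InducesBipartite G Z → ¬ InducesBipartite G (univ \ Z) →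
      (cut G Z).card = 3 ∨ k ≤ (cut G Z).card) :
    ClosedCutsAtLeast G C k ∧ CyclicCutsAtLeast G C k := by
  constructor
  · intro Z hZ hcl
    have hev : Even (Fintype.card V) := by
      have h1 : (univ : Finset V).card = Fintype.card V := card_univ
      rw [← h1, ← Nat.not_odd_iff_even]
      intro ho
      classical
      have h2 : Odd (cn G.src G.tgt univ (univ : Finset V)) := by
        rw [odd_cn fun e _ => G.loopless e]
        · exact ho
        · intro v _
          rw [← deg_eq, hcubic v]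
          decide
      have h3 : cn G.src G.tgt univ (univ : Finset V) = 0 := by
        rw [cn_eq_zero]
        intro e _
        unfold cr
        simp
      rw [h3] at h2
      exact (by decide : ¬ Odd 0) h2
    have hZ' : Odd (univ \ Z : Finset V).card := by
      have h1 : (univ \ Z : Finset V).card + Z.card = (univ : Finset V).card :=
        card_sdiff_add_card_eq_card (subset_univ Z)
      rw [card_univ] at h1
      obtain ⟨a, ha⟩ := hZ
      obtain ⟨b, hb⟩ := hev
      exact ⟨b - a - 1, by omega⟩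
    have hcl' : ∀ e ∈ cut G (univ \ Z), e ∉ C := by
      intro e he
      refine hcl e ?_
      rw [mem_cut'] at he ⊢
      unfold cr at he ⊢
      simp only [mem_sdiff, mem_univ, true_and] at he
      tauto
    rcases h Z hZ (not_bipartite_of_closed G C hC Z hZ hcl)
      (not_bipartite_of_closed G C hC _ hZ' hcl') with h1 | h1
    · obtain ⟨e, he, heC⟩ := h3 Z h1
      exact absurd heC (hcl e he)
    · exact h1
  · intro Z hZ h1 h2 _
    rcases h Z hZ h1 h2 with h4 | h4
    · exact Or.inl h4
    · right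
      omega

/-- some 2-factor meets every 3-edge cut -/
theorem exists_meeting (G : Multigraph V E) (hcubic : G.Cubic) (hbridgeless : G.Bridgeless) :
    ∃ C1 : Finset E, G.IsTwoFactor C1 ∧
      ∀ Z : Finset V, (cut G Z).card = 3 → ∃ e ∈ cut G Z, e ∈ C1 := by
  rename_i dV dE
  obtain rfl : dV = fun a b => Classical.propDecidable (a = b) := Subsingleton.elim _ _
  obtain rfl : dE = fun a b => Classical.propDecidable (a = b) := Subsingleton.elim _ _
  classical
  have hst : ∀ e, G.src e ≠ G.tgt e := G.loopless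
  have card_cut : ∀ Z : Finset V, (cut G Z).card = cn G.src G.tgt univ Z := by
    intro Z
    rw [cn_eq_card]
    congr 1
    ext e
    simp [mem_cut']
  have hcub : ∀ v, cn G.src G.tgt univ {v} = 3 := fun v => by rw [← deg_eq]; exact hcubic v
  have hcut := oddcut_of_bridgeless G hcubic hbridgeless
  obtain ⟨J, hJ, hJ3⟩ := EdP.exists_J hst hcub hcut
  refine ⟨univ \ J, fun v => ?_, fun Z hZ => ?_⟩
  · have e1 := cn_union (s := G.src) (t := G.tgt) (sdiff_disjoint : Disjoint (univ \ J) J) {v}
    rw [sdiff_union_of_subset (subset_univ J), ← deg_eq, ← deg_eq G (univ \ J), hcubic v,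
      hJ v] at e1
    omega
  rw [card_cut] at hZ
  have hodd : Odd Z.card := by
    rw [← odd_cn (s := G.src) (t := G.tgt) (A := univ) (fun e _ => hst e)]
    · rw [hZ]; decide
    · intro v _
      rw [hcub v]
      decide
  have h1 := hJ3 Z hodd hZ
  by_contra hcon
  push Not at hcon
  have h2 : cn G.src G.tgt univ Z = cn G.src G.tgt J Z := by
    unfold cn
    symm
    refine Finset.sum_subset (subset_univ J) fun e _ he => ?_
    rw [ci_eq_zero]
    intro hc
    exact hcon e ((mem_cut' G Z e).2 hc) (mem_sdiff.2 ⟨mem_univ _, he⟩)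
  omega

/-- the number of uncovered edges -/
theorem card_form (G : Multigraph V E) (hcubic : G.Cubic) (hbridgeless : G.Bridgeless)
    (C1 : Finset E) (hC1 : G.IsTwoFactor C1) (k : ℕ) (hk : 5 ≤ k) (hko : Odd k)
    (hcl : ClosedCutsAtLeast G C1 k) (hcy : CyclicCutsAtLeast G C1 k) :
    ∃ C2 C3 : Finset E, G.IsTwoFactor C2 ∧ G.IsTwoFactor C3 ∧
      2 * k * (k + 2) * (univ \ (C1 ∪ C2 ∪ C3)).card ≤ Fintype.card V := by
  obtain ⟨C2, C3, h2, h3, h⟩ := result G hcubic hbridgeless C1 hC1 k hk hko hcl hcy fun _ => 1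
  refine ⟨C2, C3, h2, h3, ?_⟩
  rename_i dV dE
  obtain rfl : dV = fun a b => Classical.propDecidable (a = b) := Subsingleton.elim _ _
  obtain rfl : dE = fun a b => Classical.propDecidable (a = b) := Subsingleton.elim _ _
  classical
  have hst : ∀ e, G.src e ≠ G.tgt e := G.loopless
  have hJ : ∀ v, cn G.src G.tgt (univ \ C1) {v} = 1 := by
    intro v
    have e1 := cn_union (s := G.src) (t := G.tgt) (sdiff_disjoint : Disjoint (univ \ C1) C1) {v}
    rw [sdiff_union_of_subset (subset_univ C1), ← deg_eq, ← deg_eq G C1, hcubic v, hC1 v] at e1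
    omega
  have hc := card_pm hst hJ
  rw [Finset.sum_const, Finset.sum_const, nsmul_eq_mul, nsmul_eq_mul, mul_one, mul_one] at h
  have h4 : k * (k + 2) * (univ \ (C1 ∪ C2 ∪ C3)).card ≤ (univ \ C1).card := by exact_mod_cast h
  rw [← hc]
  calc 2 * k * (k + 2) * (univ \ (C1 ∪ C2 ∪ C3)).card =
      2 * (k * (k + 2) * (univ \ (C1 ∪ C2 ∪ C3)).card) := by ring
    _ ≤ 2 * (univ \ C1).card := Nat.mul_le_mul_left _ h4

/-- the theorem with one condition on the cuts with two sides which are not bipartite; for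
`k = 5` the condition always holds -/
theorem three_two_factors (G : Multigraph V E) (hcubic : G.Cubic) (hbridgeless : G.Bridgeless) :
    (∃ C1 : Finset E, G.IsTwoFactor C1 ∧
      ∀ Z : Finset V, (cut G Z).card = 3 → ∃ e ∈ cut G Z, e ∈ C1) ∧
    ∀ C1 : Finset E, G.IsTwoFactor C1 →
      (∀ Z : Finset V, (cut G Z).card = 3 → ∃ e ∈ cut G Z, e ∈ C1) →
      ∀ k : ℕ, 5 ≤ k → Odd k →
      (∀ Z : Finset V, Odd Z.card → ¬ InducesBipartite G Z → ¬ InducesBipartite G (univ \ Z) →
        (cut G Z).card = 3 ∨ k ≤ (cut G Z).card) →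
      ∃ C2 C3 : Finset E, G.IsTwoFactor C2 ∧ G.IsTwoFactor C3 ∧
        2 * k * (k + 2) * (univ \ (C1 ∪ C2 ∪ C3)).card ≤ Fintype.card V := by
  refine ⟨exists_meeting G hcubic hbridgeless, fun C1 hC1 h3 k hk hko h => ?_⟩
  obtain ⟨h1, h2⟩ := cuts_of_cyclic G hcubic C1 hC1 h3 k hk h
  exact card_form G hcubic hbridgeless C1 hC1 k hk hko h1 h2

/-- every bridgeless cubic multigraph: three 2-factors up to `n / 70` edges -/
theorem seventy (G : Multigraph V E) (hcubic : G.Cubic) (hbridgeless : G.Bridgeless)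
    (C1 : Finset E) (hC1 : G.IsTwoFactor C1)
    (h3 : ∀ Z : Finset V, (cut G Z).card = 3 → ∃ e ∈ cut G Z, e ∈ C1) :
    ∃ C2 C3 : Finset E, G.IsTwoFactor C2 ∧ G.IsTwoFactor C3 ∧
      70 * (univ \ (C1 ∪ C2 ∪ C3)).card ≤ Fintype.card V := by
  refine (three_two_factors G hcubic hbridgeless).2 C1 hC1 h3 5 le_rfl (by decide)
    fun Z hZ hn1 hn2 => ?_
  rename_i dV dE
  obtain rfl : dV = fun a b => Classical.propDecidable (a = b) := Subsingleton.elim _ _
  obtain rfl : dE = fun a b => Classical.propDecidable (a = b) := Subsingleton.elim _ _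
  classical
  have e1 : (cut G Z).card = cn G.src G.tgt univ Z := by
    rw [cn_eq_card]
    congr 1
    ext e
    simp [mem_cut']
  have h4 := oddcut_of_bridgeless G hcubic hbridgeless Z hZ
  have h5 : Odd (cn G.src G.tgt univ Z) := by
    rw [odd_cn fun e _ => G.loopless e]
    · exact hZ
    · intro v _
      rw [← deg_eq, hcubic v]
      decide
  obtain ⟨a, ha⟩ := h5
  omega

/-- the earlier form of the theorem -/
theorem three_two_factors_old (G : Multigraph V E) (hcubic : G.Cubic)
    (hbridgeless : G.Bridgeless) :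
    (∃ C1 : Finset E, G.IsTwoFactor C1 ∧
      ∀ Z : Finset V, (cut G Z).card = 3 → ∃ e ∈ cut G Z, e ∈ C1) ∧
    ∀ C1 : Finset E, G.IsTwoFactor C1 →
      (∀ Z : Finset V, (cut G Z).card = 3 → ∃ e ∈ cut G Z, e ∈ C1) →
      ∀ k : ℕ, 5 ≤ k → Odd k →
      (∀ Z : Finset V, Odd (cut G Z).card → (cut G Z).card < k → (cut G Z).card ≤ 3) →
      ∃ C2 C3 : Finset E, G.IsTwoFactor C2 ∧ G.IsTwoFactor C3 ∧
        2 * k * (k + 2) * (univ \ (C1 ∪ C2 ∪ C3)).card ≤ Fintype.card V := by
  obtain ⟨r1, r2⟩ := three_two_factors G hcubic hbridgeless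
  refine ⟨r1, fun C1 hC1 h3 k hk hko hcon => r2 C1 hC1 h3 k hk hko fun Z hZ _ _ => ?_⟩
  rename_i dV dE _ _
  obtain rfl : dV = fun a b => Classical.propDecidable (a = b) := Subsingleton.elim _ _
  obtain rfl : dE = fun a b => Classical.propDecidable (a = b) := Subsingleton.elim _ _
  classical
  have e1 : (cut G Z).card = cn G.src G.tgt univ Z := by
    rw [cn_eq_card]
    congr 1
    ext e
    simp [mem_cut']
  have h4 := oddcut_of_bridgeless G hcubic hbridgeless Z hZ
  have h5 : Odd (cn G.src G.tgt univ Z) := by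
    rw [odd_cn fun e _ => G.loopless e]
    · exact hZ
    · intro v _
      rw [← deg_eq, hcubic v]
      decide
  rw [← e1] at h4 h5
  by_cases h6 : (cut G Z).card < k
  · left
    have := hcon Z h5 h6
    omega
  · right
    omega

end

end EdP
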