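import Pool.Agent.Lib.EdP.FewCuts

/-! A perfect matching containing no small odd cut, if there are few small odd cuts. -/

set_option autoImplicit false
set_option linter.unusedSectionVars false

namespace EdP

open Finset Classical OddFour

variable {V E : Type*} [Fintype V] [Fintype E]

section cubic

variable {s t : E → V} (hst : ∀ e, s e ≠ t e) (hcub : ∀ v, cn s t univ {v} = 3)
  (hcut : ∀ X : Finset V, Odd X.card → 3 ≤ cn s t univ X)

include hst hcub hcut in
/-- a perfect matching meeting all 3-edge cuts once and containing no cut of the family `S` of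
edge sets -/
theorem exists_J_fewE (S : Finset (Finset E))
    (hS : ∀ D ∈ S, 5 ≤ D.card ∧ ∃ X : Finset V, Odd X.card ∧ ∀ e, e ∈ D ↔ cr s t X e)
    (hsum : ∑ D ∈ S, ((D.card : ℝ) - 3) / ((D.card : ℝ) - 1) < 3) :
    ∃ J : Finset E, (∀ v, cn s t J {v} = 1) ∧
      (∀ X : Finset V, Odd X.card → cn s t univ X = 3 → cn s t J X = 1) ∧
      ∀ D ∈ S, ¬ D ⊆ J := by
  have hwt : ∀ X, wt s t (fun _ => (1 / 3 : ℝ)) X = 1 / 3 * cn s t univ X := by
    intro X
    have := wt_lin s t (1 / 3) 0 0 ∅ ∅ X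
    simpa using this
  have hw : Frac s t univ (fun _ => (1 / 3 : ℝ)) := by
    refine ⟨fun _ => by norm_num, fun e _ => ⟨mem_univ _, mem_univ _, hst e⟩, ?_, ?_⟩
    · intro v _
      rw [hwt, hcub v]
      norm_num
    · intro X _ hX
      rw [hwt]
      have : (3 : ℝ) ≤ cn s t univ X := by exact_mod_cast hcut X hX
      linarith
  obtain ⟨J, hJ, h2, h3⟩ := edm_tight hst hw
    (univ.filter fun X => Odd X.card ∧ cn s t univ X = 3) (by
      intro Z hZ
      rw [mem_filter] at hZ
      refine ⟨hZ.2.1, ?_⟩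
      rw [hwt, hZ.2.2]
      norm_num) (fun e => ∑ D ∈ S, (if e ∈ D then (1 : ℝ) else 0) / ((D.card : ℝ) - 1))
  refine ⟨J, hJ, fun X hX h3 => h2 X (mem_filter.2 ⟨mem_univ _, hX, h3⟩), ?_⟩
  have hcost : ∀ A : Finset E,
      ∑ e ∈ A, ∑ D ∈ S, (if e ∈ D then (1 : ℝ) else 0) / ((D.card : ℝ) - 1) =
      ∑ D ∈ S, ((A ∩ D).card : ℝ) / ((D.card : ℝ) - 1) := by
    intro A
    rw [Finset.sum_comm]
    refine Finset.sum_congr rfl fun D _ => ?_
    rw [← Finset.sum_div, Finset.sum_ite_mem, Finset.sum_const, nsmul_eq_mul, mul_one]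
  rw [← Finset.mul_sum, hcost, hcost] at h3
  simp only [univ_inter] at h3
  have h5 : ∀ D ∈ S, (5 : ℝ) ≤ D.card := fun D hD => by exact_mod_cast (hS D hD).1
  have h6 : ∑ D ∈ S, (((J ∩ D).card : ℝ) - 1) / ((D.card : ℝ) - 1) ≤
      1 / 3 * ∑ D ∈ S, ((D.card : ℝ) - 3) / ((D.card : ℝ) - 1) := by
    have e1 : ∑ D ∈ S, (((J ∩ D).card : ℝ) - 1) / ((D.card : ℝ) - 1) =
        ∑ D ∈ S, ((J ∩ D).card : ℝ) / ((D.card : ℝ) - 1) -
          ∑ D ∈ S, 1 / ((D.card : ℝ) - 1) := by
      rw [← Finset.sum_sub_distrib]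
      exact Finset.sum_congr rfl fun D _ => by ring
    have e2 : 1 / 3 * ∑ D ∈ S, ((D.card : ℝ) - 3) / ((D.card : ℝ) - 1) =
        1 / 3 * ∑ D ∈ S, (D.card : ℝ) / ((D.card : ℝ) - 1) -
          ∑ D ∈ S, 1 / ((D.card : ℝ) - 1) := by
      rw [Finset.mul_sum, Finset.mul_sum, ← Finset.sum_sub_distrib]
      exact Finset.sum_congr rfl fun D _ => by ring
    rw [e1, e2]
    linarith
  intro D0 hD0 hcon
  have h7 : (J ∩ D0).card = D0.card := by rw [inter_eq_right.2 hcon]
  have hterm : ∀ D ∈ S, 0 ≤ (((J ∩ D).card : ℝ) - 1) / ((D.card : ℝ) - 1) := by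
    intro D hD
    obtain ⟨h8, X, hX, hXD⟩ := hS D hD
    have h9 : cn s t J X = (J ∩ D).card := by
      rw [cn_eq_card]
      congr 1
      ext e
      rw [mem_filter, mem_inter, hXD]
    have h10 : 1 ≤ (J ∩ D).card := by
      rw [← h9]
      exact (pm_odd hst hJ hX).pos
    have h11 : (1 : ℝ) ≤ (J ∩ D).card := by exact_mod_cast h10
    have h12 := h5 D hD
    exact div_nonneg (by linarith) (by linarith)
  have h8 := Finset.single_le_sum hterm hD0
  rw [h7] at h8
  have h9 : ((D0.card : ℝ) - 1) / ((D0.card : ℝ) - 1) = 1 := by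
    have := h5 D0 hD0
    exact div_self (by linarith)
  rw [h9] at h8
  linarith

include hst hcub hcut in
/-- if the sum of `(c - 3) / (c - 1)` over the odd cuts with `c` edges, `5 ≤ c < k`, and two
sides which are not bipartite is less than three, then some perfect matching meets all 3-edge
cuts once and contains no odd cut with less than `k` edges, except possibly cuts with less than
four edges if `k ≤ 3` -/
theorem exists_few (k : ℕ)
    (hs : ∑ D ∈ univ.filter (fun D : Finset E => 5 ≤ D.card ∧ D.card < k ∧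
      ∃ X : Finset V, Odd X.card ∧ (∀ e, e ∈ D ↔ cr s t X e) ∧ ¬ Bip s t X ∧
        ¬ Bip s t (univ \ X)), ((D.card : ℝ) - 3) / ((D.card : ℝ) - 1) < 3) :
    ∃ J : Finset E, (∀ v, cn s t J {v} = 1) ∧
      (∀ X : Finset V, Odd X.card → cn s t univ X = 3 → cn s t J X = 1) ∧
      ∀ X : Finset V, Odd X.card → (∀ e, cr s t X e → e ∈ J) → k ≤ cn s t univ X := by
  obtain ⟨J, hJ, hJ3, hJS⟩ := exists_J_fewE hst hcub hcut _
    (fun D hD => by
      obtain ⟨-, h1, h2, X, hX, hXD, -⟩ := mem_filter.1 hD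
      exact ⟨h1, X, hX, hXD⟩) hs
  refine ⟨J, hJ, hJ3, fun X hX hXJ => ?_⟩
  by_contra hlt
  have hc : cn s t univ X = cn s t J X := by
    unfold cn
    symm
    refine Finset.sum_subset (subset_univ J) fun e _ he => ?_
    rw [ci_eq_zero]
    exact fun h => he (hXJ e h)
  have h3 := hcut X hX
  obtain ⟨b, hb⟩ := odd_univ hst hcub hX
  have h4 : cn s t univ X ≠ 3 := by
    intro h5
    have := hJ3 X hX h5
    omega
  have hcomp : ∀ A : Finset E, cn s t A (univ \ X) = cn s t A X := by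
    intro A
    unfold cn
    refine Finset.sum_congr rfl fun e _ => ?_
    have h : cr s t (univ \ X) e ↔ cr s t X e := by
      unfold cr
      simp only [mem_sdiff, mem_univ, true_and]
      tauto
    unfold ci
    rw [if_congr h rfl rfl]
  have hev := card_pm hst hJ
  have hodd : Odd (univ \ X : Finset V).card := by
    have h1 : (univ \ X : Finset V).card + X.card = (univ : Finset V).card :=
      card_sdiff_add_card_eq_card (subset_univ X)
    rw [card_univ] at h1
    obtain ⟨a, ha⟩ := hX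
    exact ⟨J.card - a - 1, by omega⟩
  have hcard : (univ.filter (cr s t X)).card = cn s t univ X := (cn_eq_card ..).symm
  refine hJS (univ.filter (cr s t X)) (mem_filter.2 ⟨mem_univ _, ?_, ?_, X, hX, fun e => ?_,
    not_bip_of_closed hst hcub hJ hX hc,
    not_bip_of_closed hst hcub hJ hodd (by rw [hcomp, hcomp, hc])⟩) fun e he => ?_
  · rw [hcard]
    omega
  · rw [hcard]
    omega
  · rw [mem_filter]
    exact ⟨fun h => h.2, fun h => ⟨mem_univ _, h⟩⟩
  · exact hXJ e (mem_filter.1 he).2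

end cubic

end EdP
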