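import Pool.Agent.Lib.EdP.Cyclic

/-! A perfect matching `J` containing no small odd cut, and a second one `M` such that the
common part contains no odd cut. -/

set_option autoImplicit false
set_option linter.unusedSectionVars false

namespace EdP

open Finset Classical OddFour

variable {V E : Type*} [Fintype V] [Fintype E]

section cubic

variable {s t : E → V} (hst : ∀ e, s e ≠ t e) (hcub : ∀ v, cn s t univ {v} = 3)
  (hcut : ∀ X : Finset V, Odd X.card → 3 ≤ cn s t univ X)

include hst hcub in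
/-- an odd set whose cut lies in a perfect matching is not bipartite -/
lemma not_bip_of_closed {J : Finset E} (hJ : ∀ v, cn s t J {v} = 1) {X : Finset V}
    (hX : Odd X.card) (hc : cn s t univ X = cn s t J X) : ¬ Bip s t X := by
  intro hb
  have hwt : ∀ Y : Finset V, wt s t (fun e => (1 / 2 : ℝ) - 1 / 2 * (if e ∈ J then 1 else 0) -
      0 * (if e ∈ J then 1 else 0)) Y = 1 / 2 * cn s t univ Y - 1 / 2 * cn s t J Y := by
    intro Y
    rw [wt_lin]
    ring
  have h1 := bip_wt hst (w := fun e => (1 / 2 : ℝ) - 1 / 2 * (if e ∈ J then 1 else 0) -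
      0 * (if e ∈ J then 1 else 0))
    (fun e => by
      show (0 : ℝ) ≤ (1 / 2 : ℝ) - 1 / 2 * (if e ∈ J then 1 else 0) -
        0 * (if e ∈ J then 1 else 0)
      split_ifs <;> norm_num)
    (fun v => by
      rw [hwt, hcub v, hJ v]
      norm_num) hX hb
  rw [hwt, hc] at h1
  linarith

include hst hcub hcut in
/-- the second perfect matching -/
theorem second (k : ℕ) (hk : 5 ≤ k) {J : Finset E}
    (hJ : ∀ v, cn s t J {v} = 1)
    (ha : ∀ X : Finset V, Odd X.card → cn s t univ X = cn s t J X → k ≤ cn s t J X) :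
    ∃ M : Finset E, (∀ v, cn s t M {v} = 1) ∧
      (∀ X : Finset V, Odd X.card → cn s t univ X = k → cn s t J X = k → cn s t M X = 1) ∧
      2 * k * (J ∩ M).card ≤ Fintype.card V := by
  have hle : ∀ (A : Finset E) (X : Finset V), cn s t A X ≤ cn s t univ X :=
    fun A X => cn_mono (subset_univ A) X
  have hkR : (5 : ℝ) ≤ k := by exact_mod_cast hk
  have hk0 : (0 : ℝ) < k := by linarith
  have hcJ := card_pm hst hJ
  set K : ℝ := (k : ℝ) with hK
  have hw2 : Frac s t univ
      (fun e => (K - 1) / (2 * K) - (K - 3) / (2 * K) * (if e ∈ J then 1 else 0) -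
        0 * (if e ∈ J then 1 else 0)) := by
    refine ⟨fun e => ?_, fun e _ => ⟨mem_univ _, mem_univ _, hst e⟩, ?_, ?_⟩
    · split_ifs
      · have : (K - 1) / (2 * K) - (K - 3) / (2 * K) * 1 - 0 * 1 = 1 / K := by
          field_simp
          ring
        rw [this]
        positivity
      · have : (K - 1) / (2 * K) - (K - 3) / (2 * K) * 0 - 0 * 0 = (K - 1) / (2 * K) := by
          ring
        rw [this]
        exact div_nonneg (by linarith) (by linarith)
    · intro v _
      rw [wt_lin, hcub v, hJ v]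
      push_cast
      field_simp
      ring
    · intro X _ hX
      rw [wt_lin]
      have h1 : (K - 1) / (2 * K) * (cn s t univ X : ℝ) - (K - 3) / (2 * K) * (cn s t J X : ℝ) -
          0 * (cn s t J X : ℝ) =
          ((K - 1) * cn s t univ X - (K - 3) * cn s t J X) / (2 * K) := by ring
      rw [h1, le_div_iff₀ (by linarith)]
      have h3 : (3 : ℝ) ≤ cn s t univ X := by exact_mod_cast hcut X hX
      by_cases h2 : cn s t univ X = cn s t J X
      · have h4 : K ≤ cn s t J X := by rw [hK]; exact_mod_cast ha X hX h2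
        rw [h2]
        nlinarith
      · have h4 : cn s t J X + 2 ≤ cn s t univ X := by
          obtain ⟨a, ha⟩ := pm_odd hst hJ hX
          obtain ⟨b, hb⟩ := odd_univ hst hcub hX
          have := hle J X
          omega
        have h5 : (cn s t J X : ℝ) + 2 ≤ cn s t univ X := by exact_mod_cast h4
        nlinarith
  obtain ⟨M, hM, hMT, hMc⟩ := edm_tight hst hw2
    (univ.filter fun X => Odd X.card ∧ cn s t univ X = k ∧ cn s t J X = k) (by
      intro Z hZ
      rw [mem_filter] at hZ
      refine ⟨hZ.2.1, ?_⟩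
      rw [wt_lin]
      obtain ⟨h, h'⟩ := hZ.2.2
      rw [h, h', ← hK]
      field_simp
      ring) (fun e => if e ∈ J then 1 else 0)
  refine ⟨M, hM, fun X hX h h' => hMT X (mem_filter.2 ⟨mem_univ _, hX, h, h'⟩), ?_⟩
  have hb2 : K * ((J ∩ M).card : ℝ) ≤ J.card := by
    rw [sum_ind] at hMc
    have h1 : ∑ e ∈ M, (if e ∈ J then (1 : ℝ) else 0) = (J ∩ M).card := by
      rw [Finset.sum_ite_mem, Finset.sum_const, nsmul_eq_mul, mul_one, inter_comm]
    have h2 : ∑ e ∈ J, ((K - 1) / (2 * K) - (K - 3) / (2 * K) * (if e ∈ J then 1 else 0) -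
        0 * (if e ∈ J then 1 else 0)) = J.card / K := by
      rw [Finset.sum_congr rfl (fun e he => by
        rw [if_pos he] : ∀ e ∈ J, ((K - 1) / (2 * K) - (K - 3) / (2 * K) *
        (if e ∈ J then 1 else 0) - 0 * (if e ∈ J then 1 else 0)) =
          (K - 1) / (2 * K) - (K - 3) / (2 * K) * 1 - 0 * 1), Finset.sum_const,
        nsmul_eq_mul]
      field_simp
      ring
    rw [h1, h2, le_div_iff₀ hk0] at hMc
    linarith
  have h1 : 2 * K * ((J ∩ M).card : ℝ) ≤ 2 * J.card := by linarith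
  rw [hK] at h1
  have h2 : 2 * k * (J ∩ M).card ≤ 2 * J.card := by exact_mod_cast h1
  omega

include hst hcub hcut in
/-- if all odd cuts contained in `J` have at least `k` edges and there are less than
`2 k (k + 2)` vertices, then some perfect matching has no odd cut in common with `J` -/
theorem no_common_cut (k : ℕ) (hk : 5 ≤ k) (hko : Odd k) {J : Finset E}
    (hJ : ∀ v, cn s t J {v} = 1)
    (ha : ∀ X : Finset V, Odd X.card → cn s t univ X = cn s t J X → k ≤ cn s t J X)
    (hn : Fintype.card V < 2 * k * (k + 2)) :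
    ∃ M : Finset E, (∀ v, cn s t M {v} = 1) ∧
      ∀ Z : Finset V, (∀ g, cr s t Z g → g ∈ M ∩ J) → Even (cn s t univ Z) := by
  obtain ⟨M, hM, hM5, hMc⟩ := second hst hcub hcut k hk hJ ha
  refine ⟨M, hM, fun Z hZ => ?_⟩
  have hsub : ∀ A : Finset E, (∀ g, cr s t Z g → g ∈ A) → cn s t univ Z = cn s t A Z := by
    intro A hA
    unfold cn
    symm
    refine Finset.sum_subset (subset_univ A) fun e _ he => ?_
    rw [ci_eq_zero]
    exact fun hc => he (hA e hc)
  have h1 := hsub J fun g hg => (mem_inter.1 (hZ g hg)).2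
  have h2 := hsub M fun g hg => (mem_inter.1 (hZ g hg)).1
  have h3 := hsub (J ∩ M) fun g hg => by
    rw [inter_comm]
    exact hZ g hg
  by_cases hX : Odd Z.card
  · exfalso
    have h4 := ha Z hX h1
    have h5 : k + 2 ≤ cn s t univ Z := by
      by_contra h6
      obtain ⟨d, hd⟩ := hko
      obtain ⟨b, hb⟩ := odd_univ hst hcub hX
      have h7 := hM5 Z hX (by omega) (by omega)
      omega
    have h6 : cn s t (J ∩ M) Z ≤ (J ∩ M).card := by
      rw [cn_eq_card]
      exact card_le_card (filter_subset _ _)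
    have h7 : k + 2 ≤ (J ∩ M).card := by omega
    have h8 : 2 * k * (k + 2) ≤ 2 * k * (J ∩ M).card := Nat.mul_le_mul_left _ h7
    omega
  · rw [← Nat.not_odd_iff_even]
    intro ho
    rw [odd_cn fun e _ => hst e] at ho
    · exact hX ho
    · intro v _
      rw [hcub v]
      decide

include hst hcub hcut in
/-- a perfect matching meeting all 3-edge cuts once and containing no cut of the family `S` -/
theorem exists_J_few (S : Finset (Finset V)) (hS : ∀ X ∈ S, Odd X.card ∧ 5 ≤ cn s t univ X)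
    (hSc : ∀ X ∈ S, univ \ X ∈ S)
    (hsum : ∑ X ∈ S, ((cn s t univ X : ℝ) - 3) / ((cn s t univ X : ℝ) - 1) < 6) :
    ∃ J : Finset E, (∀ v, cn s t J {v} = 1) ∧
      (∀ X : Finset V, Odd X.card → cn s t univ X = 3 → cn s t J X = 1) ∧
      ∀ X ∈ S, cn s t J X < cn s t univ X := by
  have hwt : ∀ X, wt s t (fun _ => (1 / 3 : ℝ)) X = 1 / 3 * cn s t univ X := by
    intro X
    have := wt_lin s t (1 / 3) 0 0 ∅ ∅ X
    simpa using this
  have hw : Frac s t univ (fun _ => (1 / 3 : ℝ)) := by
    refine ⟨fun _ => by norm_num, fun e _ => ⟨mem_univ _, mem_univ _, hst e⟩, ?_, ?_⟩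
    · intro v _
      rw [hwt, hcub v]
      norm_num
    · intro X _ hX
      rw [hwt]
      have : (3 : ℝ) ≤ cn s t univ X := by exact_mod_cast hcut X hX
      linarith
  obtain ⟨J, hJ, h2, h3⟩ := edm_tight hst hw
    (univ.filter fun X => Odd X.card ∧ cn s t univ X = 3) (by
      intro Z hZ
      rw [mem_filter] at hZ
      refine ⟨hZ.2.1, ?_⟩
      rw [hwt, hZ.2.2]
      norm_num) (fun e => ∑ X ∈ S, (ci s t X e : ℝ) / ((cn s t univ X : ℝ) - 1))
  refine ⟨J, hJ, fun X hX h3 => h2 X (mem_filter.2 ⟨mem_univ _, hX, h3⟩), ?_⟩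
  have hcost : ∀ A : Finset E, ∑ e ∈ A, ∑ X ∈ S, (ci s t X e : ℝ) / ((cn s t univ X : ℝ) - 1) =
      ∑ X ∈ S, (cn s t A X : ℝ) / ((cn s t univ X : ℝ) - 1) := by
    intro A
    rw [Finset.sum_comm]
    refine Finset.sum_congr rfl fun X _ => ?_
    rw [← Finset.sum_div]
    unfold cn
    push_cast
    rfl
  rw [← Finset.mul_sum, hcost, hcost] at h3
  have h5 : ∀ X ∈ S, (5 : ℝ) ≤ cn s t univ X := fun X hX => by exact_mod_cast (hS X hX).2
  have h6 : ∑ X ∈ S, ((cn s t J X : ℝ) - 1) / ((cn s t univ X : ℝ) - 1) ≤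
      1 / 3 * ∑ X ∈ S, ((cn s t univ X : ℝ) - 3) / ((cn s t univ X : ℝ) - 1) := by
    have e1 : ∑ X ∈ S, ((cn s t J X : ℝ) - 1) / ((cn s t univ X : ℝ) - 1) =
        ∑ X ∈ S, (cn s t J X : ℝ) / ((cn s t univ X : ℝ) - 1) -
          ∑ X ∈ S, 1 / ((cn s t univ X : ℝ) - 1) := by
      rw [← Finset.sum_sub_distrib]
      exact Finset.sum_congr rfl fun X _ => by ring
    have e2 : 1 / 3 * ∑ X ∈ S, ((cn s t univ X : ℝ) - 3) / ((cn s t univ X : ℝ) - 1) =
        1 / 3 * ∑ X ∈ S, (cn s t univ X : ℝ) / ((cn s t univ X : ℝ) - 1) -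
          ∑ X ∈ S, 1 / ((cn s t univ X : ℝ) - 1) := by
      rw [Finset.mul_sum, Finset.mul_sum, ← Finset.sum_sub_distrib]
      exact Finset.sum_congr rfl fun X _ => by ring
    rw [e1, e2]
    linarith
  intro X0 hX0
  by_contra hcon
  have hle := cn_mono (s := s) (t := t) (subset_univ J) X0
  have h7 : cn s t J X0 = cn s t univ X0 := by omega
  have hcomp : ∀ A : Finset E, cn s t A (univ \ X0) = cn s t A X0 := by
    intro A
    unfold cn
    refine Finset.sum_congr rfl fun e _ => ?_
    have h : cr s t (univ \ X0) e ↔ cr s t X0 e := by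
      unfold cr
      simp only [mem_sdiff, mem_univ, true_and]
      tauto
    unfold ci
    rw [if_congr h rfl rfl]
  have hne : X0 ≠ univ \ X0 := by
    intro h
    have h8 : X0.Nonempty := card_pos.1 (hS X0 hX0).1.pos
    obtain ⟨v, hv⟩ := h8
    have h9 := hv
    rw [h, mem_sdiff] at h9
    exact h9.2 hv
  have hterm : ∀ X ∈ S, 0 ≤ ((cn s t J X : ℝ) - 1) / ((cn s t univ X : ℝ) - 1) := by
    intro X hX
    have h8 : 1 ≤ cn s t J X := (pm_odd hst hJ (hS X hX).1).pos
    have h9 : (1 : ℝ) ≤ cn s t J X := by exact_mod_cast h8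
    have h10 := h5 X hX
    exact div_nonneg (by linarith) (by linarith)
  have hone : ∀ X, X = X0 ∨ X = univ \ X0 →
      ((cn s t J X : ℝ) - 1) / ((cn s t univ X : ℝ) - 1) = 1 := by
    rintro X (rfl | rfl)
    · rw [h7]
      have := h5 X hX0
      exact div_self (by linarith)
    · rw [hcomp, hcomp, h7]
      have := h5 X0 hX0
      exact div_self (by linarith)
  have h8 : ∑ X ∈ ({X0, univ \ X0} : Finset (Finset V)),
      ((cn s t J X : ℝ) - 1) / ((cn s t univ X : ℝ) - 1) ≤
      ∑ X ∈ S, ((cn s t J X : ℝ) - 1) / ((cn s t univ X : ℝ) - 1) := by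
    refine Finset.sum_le_sum_of_subset_of_nonneg ?_ fun X hX _ => hterm X hX
    intro X hX
    rw [mem_insert, mem_singleton] at hX
    rcases hX with rfl | rfl
    · exact hX0
    · exact hSc X0 hX0
  rw [Finset.sum_pair hne, hone X0 (Or.inl rfl), hone (univ \ X0) (Or.inr rfl)] at h8
  linarith

end cubic

end EdP
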