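import Pool.Agent.Lib.EdP.Basic

/-! Contraction of a tight odd set and gluing. -/

set_option autoImplicit false
set_option linter.unusedSectionVars false

namespace EdP

open Finset Classical OddFour

variable {V E : Type*} [Fintype E]

/-- map the set `Z` to the point `z` -/
noncomputable def rp (Z : Finset V) (z v : V) : V := if v ∈ Z then z else v

/-- weights after contraction of `Z` -/
noncomputable def cw (s t : E → V) (w : E → ℝ) (Z : Finset V) (e : E) : ℝ :=
  if s e ∈ Z ∧ t e ∈ Z then 0 else w e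

/-- pull back of a set of vertices of the contracted graph -/
noncomputable def pb (Z X : Finset V) (z : V) : Finset V := if z ∈ X then X ∪ Z else X

section contr

variable {s t : E → V} {vs Z : Finset V} {w : E → ℝ} {z : V}

lemma mem_rp (hz : z ∈ Z) {X : Finset V} (hX : X ⊆ insert z (vs \ Z)) (v : V) :
    rp Z z v ∈ X ↔ v ∈ pb Z X z := by
  unfold rp pb
  by_cases hv : v ∈ Z
  · rw [if_pos hv]
    by_cases hzX : z ∈ X
    · rw [if_pos hzX]
      exact ⟨fun _ => mem_union_right _ hv, fun _ => hzX⟩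
    · rw [if_neg hzX]
      refine ⟨fun h => absurd h hzX, fun h => ?_⟩
      exfalso
      rcases mem_insert.1 (hX h) with h1 | h1
      · rw [h1] at h; exact hzX h
      · exact (mem_sdiff.1 h1).2 hv
  · rw [if_neg hv]
    by_cases hzX : z ∈ X
    · rw [if_pos hzX, mem_union]
      exact ⟨fun h => Or.inl h, fun h => h.resolve_right hv⟩
    · rw [if_neg hzX]

lemma cr_contr (hz : z ∈ Z) {X : Finset V} (hX : X ⊆ insert z (vs \ Z)) (e : E) :
    cr (fun e => rp Z z (s e)) (fun e => rp Z z (t e)) X e ↔ cr s t (pb Z X z) e := by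
  unfold cr
  rw [mem_rp hz hX, mem_rp hz hX]

lemma pb_out {X : Finset V} (hX : X ⊆ insert z (vs \ Z)) {v : V} (hv : v ∈ Z) :
    v ∈ pb Z X z ↔ z ∈ X := by
  unfold pb
  by_cases hzX : z ∈ X
  · rw [if_pos hzX]
    exact ⟨fun _ => hzX, fun _ => mem_union_right _ hv⟩
  · rw [if_neg hzX]
    refine ⟨fun h => ?_, fun h => absurd h hzX⟩
    rcases mem_insert.1 (hX h) with h1 | h1
    · rw [h1] at h; exact h
    · exact absurd hv (mem_sdiff.1 h1).2

lemma wt_contr (hz : z ∈ Z) {X : Finset V} (hX : X ⊆ insert z (vs \ Z)) :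
    wt (fun e => rp Z z (s e)) (fun e => rp Z z (t e)) (cw s t w Z) X
      = wt s t w (pb Z X z) := by
  unfold wt
  refine Finset.sum_congr rfl fun e _ => ?_
  by_cases h : cr s t (pb Z X z) e
  · rw [if_pos h, if_pos ((cr_contr hz hX e).2 h)]
    unfold cw
    rw [if_neg]
    rintro ⟨h1, h2⟩
    apply h
    rw [pb_out hX h1, pb_out hX h2]
  · rw [if_neg h, if_neg fun h' => h ((cr_contr hz hX e).1 h')]

lemma pb_sub (hZ : Z ⊆ vs) (hz : z ∈ Z) {X : Finset V} (hX : X ⊆ insert z (vs \ Z)) :
    pb Z X z ⊆ vs := by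
  have h1 : insert z (vs \ Z) ⊆ vs := insert_subset (hZ hz) sdiff_subset
  unfold pb
  split_ifs
  · exact union_subset (hX.trans h1) hZ
  · exact hX.trans h1

lemma pb_odd (hz : z ∈ Z) (hodd : Odd Z.card) {X : Finset V}
    (hX : X ⊆ insert z (vs \ Z)) (h : Odd X.card) : Odd (pb Z X z).card := by
  unfold pb
  split_ifs with hzX
  · have h1 : X ∪ Z = (X.erase z) ∪ Z := by
      ext v
      simp only [mem_union, mem_erase]
      constructor
      · rintro (h1 | h1)
        · by_cases h2 : v = z
          · right; rw [h2]; exact hz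
          · exact Or.inl ⟨h2, h1⟩
        · exact Or.inr h1
      · rintro (h1 | h1)
        · exact Or.inl h1.2
        · exact Or.inr h1
    have hdis : Disjoint (X.erase z) Z := by
      rw [Finset.disjoint_left]
      intro v hv hvZ
      rw [mem_erase] at hv
      rcases mem_insert.1 (hX hv.2) with h2 | h2
      · exact hv.1 h2
      · exact (mem_sdiff.1 h2).2 hvZ
    rw [h1, card_union_of_disjoint hdis, card_erase_of_mem hzX]
    have hpos : 0 < X.card := card_pos.2 ⟨z, hzX⟩
    obtain ⟨a, ha⟩ := h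
    obtain ⟨b, hb⟩ := hodd
    exact ⟨a + b, by omega⟩
  · exact h

theorem frac_contr (hw : Frac s t vs w) (hZ : Z ⊆ vs) (hz : z ∈ Z) (hodd : Odd Z.card)
    (ht : wt s t w Z = 1) :
    Frac (fun e => rp Z z (s e)) (fun e => rp Z z (t e)) (insert z (vs \ Z)) (cw s t w Z) where
  nn := fun e => by
    unfold cw
    split_ifs
    · exact le_refl _
    · exact hw.nn e
  ends := fun e he => by
    unfold cw at he
    split_ifs at he with h
    · exact absurd rfl he
    obtain ⟨h1, h2, h3⟩ := hw.ends e he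
    unfold rp
    refine ⟨?_, ?_, ?_⟩
    · split_ifs with h4
      · exact mem_insert_self _ _
      · exact mem_insert_of_mem (mem_sdiff.2 ⟨h1, h4⟩)
    · split_ifs with h4
      · exact mem_insert_self _ _
      · exact mem_insert_of_mem (mem_sdiff.2 ⟨h2, h4⟩)
    · split_ifs with h4 h5 h5
      · exact absurd ⟨h4, h5⟩ h
      · intro h6; rw [← h6] at h5; exact h5 hz
      · intro h6; rw [h6] at h4; exact h4 hz
      · exact h3
  deg := fun v hv => by
    have hX : ({v} : Finset V) ⊆ insert z (vs \ Z) := singleton_subset_iff.2 hv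
    rw [wt_contr hz hX]
    unfold pb
    by_cases h : z ∈ ({v} : Finset V)
    · rw [if_pos h]
      rw [mem_singleton] at h
      subst h
      have : ({z} : Finset V) ∪ Z = Z := by
        rw [union_eq_right, singleton_subset_iff]; exact hz
      rw [this]
      exact ht
    · rw [if_neg h]
      rw [mem_singleton] at h
      rcases mem_insert.1 hv with h1 | h1
      · exact absurd h1.symm h
      · exact hw.deg v (mem_sdiff.1 h1).1
  odd := fun X hX hXo => by
    rw [wt_contr hz hX]
    exact hw.odd _ (pb_sub hZ hz hX) (pb_odd hz hodd hX hXo)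

lemma cn_contr (hz : z ∈ Z) {X : Finset V} (hX : X ⊆ insert z (vs \ Z)) (N : Finset E) :
    cn (fun e => rp Z z (s e)) (fun e => rp Z z (t e)) N X = cn s t N (pb Z X z) := by
  unfold cn ci
  refine Finset.sum_congr rfl fun e _ => ?_
  rw [if_congr (cr_contr hz hX e) rfl rfl]

end contr

section glue

variable {s t : E → V} {vs Z : Finset V} {w : E → ℝ}

lemma cr_comp (hw : Frac s t vs w) {e : E} (he : w e ≠ 0) (X : Finset V) :
    cr s t (vs \ X) e ↔ cr s t X e := by
  obtain ⟨h1, h2, _⟩ := hw.ends e he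
  exact cr_compl h1 h2 X

lemma wt_comp (hw : Frac s t vs w) (X : Finset V) : wt s t w (vs \ X) = wt s t w X := by
  unfold wt
  refine Finset.sum_congr rfl fun e _ => ?_
  by_cases he : w e = 0
  · simp [he]
  · rw [if_congr (cr_comp hw he X) rfl rfl]

lemma even_vs (hw : Frac s t vs w) : Even vs.card := by
  by_contra h
  rw [Nat.not_even_iff_odd] at h
  have h1 := hw.odd vs (Finset.Subset.refl _) h
  have h2 : wt s t w vs = 0 := by
    unfold wt
    refine Finset.sum_eq_zero fun e _ => ?_
    by_cases he : w e = 0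
    · simp [he]
    · rw [if_neg]
      obtain ⟨h3, h4, _⟩ := hw.ends e he
      unfold cr
      simp [h3, h4]
  rw [h2] at h1
  norm_num at h1

/-- Edmonds' theorem in cost form, for the data given -/
def Edm (s t : E → V) (vs : Finset V) (w : E → ℝ) : Prop :=
  ∀ c : E → ℝ, ∃ M : Finset E, PM s t vs w M ∧ ∑ e ∈ M, c e ≤ ∑ e, w e * c e

/-- perfect matchings of the graph in which the complement of `Z` is contracted -/
def Side (s t : E → V) (w : E → ℝ) (Z : Finset V) (N : Finset E) : Prop :=
  (∀ e ∈ N, w e ≠ 0 ∧ (s e ∈ Z ∨ t e ∈ Z)) ∧ (∀ v ∈ Z, cn s t N {v} = 1) ∧ cn s t N Z = 1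

lemma side (hE : ∀ (s t : E → V) (vs' : Finset V) (w : E → ℝ), vs'.card < vs.card →
      Frac s t vs' w → Edm s t vs' w)
    (hw : Frac s t vs w) (hZ : Z ⊆ vs) (hodd : Odd Z.card) (ht : wt s t w Z = 1)
    (h2 : 2 ≤ (vs \ Z).card) (c : E → ℝ) :
    ∃ N, Side s t w Z N ∧
      ∑ e ∈ N, c e ≤ ∑ e, (if s e ∈ Z ∨ t e ∈ Z then w e else 0) * c e := by
  obtain ⟨z, hz⟩ : (vs \ Z).Nonempty := card_pos.1 (by omega)
  have hYs : vs \ Z ⊆ vs := sdiff_subset
  have hYo : Odd (vs \ Z).card := by
    rw [card_sdiff_of_subset hZ]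
    have h1 := even_vs hw
    have h3 := card_le_card hZ
    rw [Nat.odd_sub h3]
    constructor
    · intro h; exact absurd h (Nat.not_odd_iff_even.2 h1)
    · intro h; exact absurd hodd (Nat.not_odd_iff_even.2 h)
  have hYt : wt s t w (vs \ Z) = 1 := by rw [wt_comp hw]; exact ht
  have hfr := frac_contr hw hYs hz hYo hYt
  have hYY : vs \ (vs \ Z) = Z := by
    exact Finset.sdiff_sdiff_eq_self hZ
  have hzZ : z ∉ Z := (mem_sdiff.1 hz).2
  have hcard : (insert z (vs \ (vs \ Z))).card < vs.card := by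
    rw [hYY, card_insert_of_notMem hzZ]
    rw [card_sdiff_of_subset hZ] at h2
    omega
  obtain ⟨N, hN, hcost⟩ := hE _ _ _ _ hcard hfr c
  refine ⟨N, ⟨?_, ?_, ?_⟩, ?_⟩
  · intro e he
    have h1 := hN.pos e he
    unfold cw at h1
    split_ifs at h1 with h3
    · exact absurd rfl h1
    refine ⟨h1, ?_⟩
    obtain ⟨h4, h5, _⟩ := hw.ends e h1
    by_contra h6
    rw [not_or] at h6
    exact h3 ⟨mem_sdiff.2 ⟨h4, h6.1⟩, mem_sdiff.2 ⟨h5, h6.2⟩⟩
  · intro v hv
    have hX : ({v} : Finset V) ⊆ insert z (vs \ (vs \ Z)) := by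
      rw [hYY, singleton_subset_iff]; exact mem_insert_of_mem hv
    have h1 := hN.one v (singleton_subset_iff.1 hX)
    rw [cn_contr hz hX] at h1
    unfold pb at h1
    rw [if_neg] at h1
    · exact h1
    · rw [mem_singleton]; intro h; rw [h] at hzZ; exact hzZ hv
  · have hX : ({z} : Finset V) ⊆ insert z (vs \ (vs \ Z)) := by
      rw [singleton_subset_iff]; exact mem_insert_self _ _
    have h1 := hN.one z (singleton_subset_iff.1 hX)
    rw [cn_contr hz hX] at h1
    unfold pb at h1
    rw [if_pos (mem_singleton_self _)] at h1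
    have h3 : ({z} : Finset V) ∪ (vs \ Z) = vs \ Z := by
      rw [union_eq_right, singleton_subset_iff]; exact hz
    rw [h3] at h1
    rw [← h1]
    unfold cn ci
    refine Finset.sum_congr rfl fun e he => ?_
    have h4 := hN.pos e he
    unfold cw at h4
    split_ifs at h4 with h5
    · exact absurd rfl h4
    rw [if_congr (cr_comp hw h4 Z) rfl rfl]
  · refine hcost.trans (le_of_eq (Finset.sum_congr rfl fun e _ => ?_))
    congr 1
    unfold cw
    by_cases he : w e = 0
    · simp [he]
    obtain ⟨h4, h5, _⟩ := hw.ends e he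
    by_cases h6 : s e ∈ Z <;> by_cases h7 : t e ∈ Z <;> simp [h4, h5, h6, h7]

/-- the part of the cost inside `Z` -/
noncomputable def inc (s t : E → V) (c : E → ℝ) (Z : Finset V) (N : Finset E) : ℝ :=
  ∑ e ∈ N.filter (fun e => ¬ cr s t Z e), c e

/-- the matchings of the `Z` side through `e` -/
noncomputable def thr (s t : E → V) (w : E → ℝ) (Z : Finset V) (e : E) : Finset (Finset E) :=
  univ.filter fun N => Side s t w Z N ∧ e ∈ N

/-- cheapest completion inside `Z` of the edge `e` -/
noncomputable def bet (s t : E → V) (w c : E → ℝ) (Z : Finset V) (e : E) : ℝ :=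
  if h : (thr s t w Z e).Nonempty then (thr s t w Z e).inf' h (inc s t c Z) else 0

lemma bet_le {c : E → ℝ} {e : E} {N : Finset E} (hN : Side s t w Z N) (he : e ∈ N) :
    bet s t w c Z e ≤ inc s t c Z N := by
  have hm : N ∈ thr s t w Z e := mem_filter.2 ⟨mem_univ _, hN, he⟩
  unfold bet
  rw [dif_pos ⟨N, hm⟩]
  exact Finset.inf'_le _ hm

lemma bet_eq {c : E → ℝ} {e : E} (h : ∃ N, Side s t w Z N ∧ e ∈ N) :
    ∃ N, Side s t w Z N ∧ e ∈ N ∧ inc s t c Z N = bet s t w c Z e := by
  obtain ⟨N, hN, he⟩ := h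
  have hne : (thr s t w Z e).Nonempty := ⟨N, mem_filter.2 ⟨mem_univ _, hN, he⟩⟩
  obtain ⟨N', hN', h'⟩ := Finset.exists_mem_eq_inf' hne (inc s t c Z)
  obtain ⟨_, h1, h2⟩ := mem_filter.1 hN'
  refine ⟨N', h1, h2, ?_⟩
  unfold bet
  rw [dif_pos hne, h']

/-- the crossing edge of a matching -/
lemma cross (N : Finset E) (h : cn s t N Z = 1) :
    ∃ e ∈ N, cr s t Z e ∧ N.filter (cr s t Z) = {e} := by
  rw [cn_eq_card, card_eq_one] at h
  obtain ⟨e, he⟩ := h
  have : e ∈ N.filter (cr s t Z) := by rw [he]; exact mem_singleton_self _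
  rw [mem_filter] at this
  exact ⟨e, this.1, this.2, he⟩

lemma sum_split (N : Finset E) {e : E} (h : N.filter (cr s t Z) = {e}) (f : E → ℝ) :
    ∑ x ∈ N, f x = f e + ∑ x ∈ N.filter (fun x => ¬ cr s t Z x), f x := by
  rw [← Finset.sum_filter_add_sum_filter_not N (cr s t Z), h, Finset.sum_singleton]

theorem glue (hE : ∀ (s t : E → V) (vs' : Finset V) (w : E → ℝ), vs'.card < vs.card →
      Frac s t vs' w → Edm s t vs' w)
    (hw : Frac s t vs w) (hZ : Z ⊆ vs) (hodd : Odd Z.card) (ht : wt s t w Z = 1)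
    (h1 : 2 ≤ Z.card) (h2 : 2 ≤ (vs \ Z).card) : Edm s t vs w := by
  intro c
  have hYs : vs \ Z ⊆ vs := sdiff_subset
  have hYY : vs \ (vs \ Z) = Z := Finset.sdiff_sdiff_eq_self hZ
  have hYo : Odd (vs \ Z).card := by
    rw [card_sdiff_of_subset hZ]
    have h1 := even_vs hw
    have h3 := card_le_card hZ
    rw [Nat.odd_sub h3]
    constructor
    · intro h; exact absurd h (Nat.not_odd_iff_even.2 h1)
    · intro h; exact absurd hodd (Nat.not_odd_iff_even.2 h)
  have hYt : wt s t w (vs \ Z) = 1 := by rw [wt_comp hw]; exact ht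
  -- matchings of the `Z` side through any crossing edge
  have hthr : ∀ e, w e ≠ 0 → cr s t Z e → ∃ N, Side s t w Z N ∧ e ∈ N := by
    intro e he hcr
    obtain ⟨N, hN, hc⟩ := side hE hw hZ hodd ht h2 (fun f => if f = e then -1 else 0)
    refine ⟨N, hN, ?_⟩
    by_contra hne
    have e1 : ∑ f ∈ N, (if f = e then (-1 : ℝ) else 0) = 0 :=
      Finset.sum_eq_zero fun f hf => if_neg fun h => hne (by rw [← h]; exact hf)
    have e2 : ∑ f, (if s f ∈ Z ∨ t f ∈ Z then w f else 0) * (if f = e then (-1 : ℝ) else 0)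
        = - w e := by
      rw [Finset.sum_eq_single e]
      · rw [if_pos rfl, if_pos]
        · ring
        · unfold cr at hcr
          by_contra hh
          rw [not_or] at hh
          exact hcr ⟨fun h => absurd h hh.1, fun h => absurd h hh.2⟩
      · intro f _ hf
        rw [if_neg hf, mul_zero]
      · intro h; exact absurd (mem_univ _) h
    rw [e1, e2] at hc
    have := hw.nn e
    have : w e = 0 := by linarith
    exact he this
  -- first inequality
  have hI : ∑ e, (if cr s t Z e then w e * bet s t w c Z e else 0) ≤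
      ∑ e, (if s e ∈ Z ∧ t e ∈ Z then w e * c e else 0) := by
    obtain ⟨N, hN, hc⟩ := side hE hw hZ hodd ht h2
      (fun f => if cr s t Z f then - bet s t w c Z f else c f)
    obtain ⟨e0, he0, hcr0, hfil⟩ := cross N hN.2.2
    have e1 : ∑ f ∈ N, (if cr s t Z f then - bet s t w c Z f else c f)
        = - bet s t w c Z e0 + inc s t c Z N := by
      rw [sum_split N hfil, if_pos hcr0]
      congr 1
      unfold inc
      exact Finset.sum_congr rfl fun x hx => if_neg (mem_filter.1 hx).2
    have e2 := bet_le (c := c) hN he0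
    have e3 : ∑ f, (if s f ∈ Z ∨ t f ∈ Z then w f else 0) *
        (if cr s t Z f then - bet s t w c Z f else c f) =
        ∑ e, (if s e ∈ Z ∧ t e ∈ Z then w e * c e else 0) -
        ∑ e, (if cr s t Z e then w e * bet s t w c Z e else 0) := by
      rw [← Finset.sum_sub_distrib]
      refine Finset.sum_congr rfl fun f _ => ?_
      unfold cr
      by_cases h1 : s f ∈ Z <;> by_cases h2 : t f ∈ Z <;> simp [h1, h2]
    rw [e1, e3] at hc
    linarith
  -- second inequality
  obtain ⟨M', hM', hc'⟩ := side hE hw hYs hYo hYt (by rw [hYY]; exact h1)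
    (fun f => if cr s t Z f then c f + bet s t w c Z f else c f)
  have hM'Z : cn s t M' Z = 1 := by
    rw [← hM'.2.2]
    unfold cn ci
    refine Finset.sum_congr rfl fun e he => ?_
    rw [if_congr (cr_comp hw (hM'.1 e he).1 Z) rfl rfl]
  obtain ⟨e0, he0, hcr0, hfil⟩ := cross M' hM'Z
  have hwe0 := (hM'.1 e0 he0).1
  obtain ⟨N, hN, heN, hbN⟩ := bet_eq (c := c) (hthr e0 hwe0 hcr0)
  -- the crossing edge of `N` is `e0`
  obtain ⟨e1, he1, hcr1, hfil1⟩ := cross N hN.2.2
  have he10 : e1 = e0 := by
    have : e0 ∈ N.filter (cr s t Z) := mem_filter.2 ⟨heN, hcr0⟩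
    rw [hfil1, mem_singleton] at this
    exact this.symm
  subst he10
  set N1 : Finset E := N.filter (fun e => ¬ cr s t Z e) with hN1
  have hN1in : ∀ e ∈ N1, s e ∈ Z ∧ t e ∈ Z := by
    intro e he
    rw [hN1, mem_filter] at he
    have h3 := (hN.1 e he.1).2
    have h4 := he.2
    unfold cr at h4
    rw [not_not] at h4
    rcases h3 with h | h
    · exact ⟨h, h4.1 h⟩
    · exact ⟨h4.2 h, h⟩
  have hdis : Disjoint M' N1 := by
    rw [Finset.disjoint_left]
    intro e he heN
    have h3 := (hM'.1 e he).2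
    have h4 := hN1in e heN
    rcases h3 with h | h
    · exact (mem_sdiff.1 h).2 h4.1
    · exact (mem_sdiff.1 h).2 h4.2
  refine ⟨M' ∪ N1, ⟨?_, ?_⟩, ?_⟩
  · intro e he
    rcases mem_union.1 he with h | h
    · exact (hM'.1 e h).1
    · exact (hN.1 e (mem_filter.1 h).1).1
  · intro v hv
    rw [cn_union hdis]
    by_cases hvZ : v ∈ Z
    · have e1' : cn s t M' {v} = ci s t {v} e1 := by
        unfold cn
        rw [← Finset.sum_filter_add_sum_filter_not M' (cr s t Z), hfil, Finset.sum_singleton]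
        rw [Finset.sum_eq_zero, add_zero]
        intro e he
        rw [mem_filter] at he
        rw [ci_eq_zero]
        have h3 := (hM'.1 e he.1)
        have h4 := (hw.ends e h3.1)
        rw [cr_sing h4.2.2]
        have h5 : s e ∉ Z ∧ t e ∉ Z := by
          have h6 := he.2
          unfold cr at h6
          rw [not_not] at h6
          rcases h3.2 with h | h
          · have := (mem_sdiff.1 h).2
            exact ⟨this, fun h' => this (h6.2 h')⟩
          · have := (mem_sdiff.1 h).2
            exact ⟨fun h' => this (h6.1 h'), this⟩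
        rintro (h | h)
        · exact h5.1 (by rw [h]; exact hvZ)
        · exact h5.2 (by rw [h]; exact hvZ)
      have e2' : cn s t N {v} = ci s t {v} e1 + cn s t N1 {v} := by
        unfold cn
        rw [← Finset.sum_filter_add_sum_filter_not N (cr s t Z), hfil1, Finset.sum_singleton]
      rw [e1', ← e2']
      exact hN.2.1 v hvZ
    · have e1' : cn s t N1 {v} = 0 := by
        rw [cn_eq_zero]
        intro e he
        have h3 := hN1in e he
        have h4 := hw.ends e ((hN.1 e (mem_filter.1 he).1).1)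
        rw [cr_sing h4.2.2]
        rintro (h | h)
        · exact hvZ (by rw [← h]; exact h3.1)
        · exact hvZ (by rw [← h]; exact h3.2)
      rw [e1', add_zero]
      exact hM'.2.1 v (mem_sdiff.2 ⟨hv, hvZ⟩)
  · rw [Finset.sum_union hdis]
    have e1' : ∑ f ∈ M', (if cr s t Z f then c f + bet s t w c Z f else c f)
        = ∑ f ∈ M', c f + bet s t w c Z e1 := by
      rw [sum_split M' hfil, if_pos hcr0, sum_split M' hfil c]
      have : ∑ x ∈ M'.filter (fun x => ¬ cr s t Z x),
          (if cr s t Z x then c x + bet s t w c Z x else c x) =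
          ∑ x ∈ M'.filter (fun x => ¬ cr s t Z x), c x :=
        Finset.sum_congr rfl fun x hx => if_neg (mem_filter.1 hx).2
      rw [this]
      ring
    have e2' : ∑ x ∈ N1, c x = bet s t w c Z e1 := by rw [← hbN]; rfl
    rw [e1'] at hc'
    rw [e2']
    refine hc'.trans ?_
    have e3 : ∑ f, (if s f ∈ vs \ Z ∨ t f ∈ vs \ Z then w f else 0) *
        (if cr s t Z f then c f + bet s t w c Z f else c f) =
        ∑ e, (if s e ∈ Z ∧ t e ∈ Z then 0 else w e * c e) +
        ∑ e, (if cr s t Z e then w e * bet s t w c Z e else 0) := by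
      rw [← Finset.sum_add_distrib]
      refine Finset.sum_congr rfl fun f _ => ?_
      by_cases hf : w f = 0
      · simp [hf]
      obtain ⟨h4, h5, _⟩ := hw.ends f hf
      unfold cr
      by_cases h1 : s f ∈ Z <;> by_cases h2 : t f ∈ Z <;> simp [h1, h2, h4, h5, mul_add]
    have e4 : ∑ e, w e * c e = ∑ e, (if s e ∈ Z ∧ t e ∈ Z then 0 else w e * c e) +
        ∑ e, (if s e ∈ Z ∧ t e ∈ Z then w e * c e else 0) := by
      rw [← Finset.sum_add_distrib]
      refine Finset.sum_congr rfl fun f _ => ?_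
      split_ifs <;> ring
    rw [e3, e4]
    linarith

end glue

end EdP
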