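import Pool.Agent.Lib.EdP.Cubic

/-! Odd joins of cubic multigraphs of small weight: Edmonds' theorem for the graph in which every
vertex is replaced by a triangle. -/

set_option autoImplicit false
set_option linter.unusedSectionVars false

namespace EdP

open Finset Classical OddFour

section tri

variable {V E : Type*} [Fintype V] [Fintype E]

/-- the end of the half edge `a` -/
def att (s t : E → V) (a : E × Bool) : V := if a.2 then t a.1 else s a.1

lemma exists_enum {s t : E → V} (hst : ∀ e, s e ≠ t e) (hcub : ∀ v, cn s t univ {v} = 3) :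
    ∃ (ix : E × Bool → Fin 3) (da : V → Fin 3 → E × Bool),
      (∀ v i, att s t (da v i) = v) ∧ (∀ v i, ix (da v i) = i) ∧
      ∀ a, da (att s t a) (ix a) = a := by
  have hc : ∀ v, Fintype.card {a : E × Bool // att s t a = v} = 3 := by
    intro v
    rw [Fintype.card_subtype, ← hcub v, Finset.card_filter, Fintype.sum_prod_type]
    unfold cn
    refine Finset.sum_congr rfl fun e _ => ?_
    rw [Fintype.sum_bool]
    unfold ci att
    rw [if_congr (cr_sing (hst e) v) rfl rfl]
    by_cases h1 : s e = v
    · have h2 : t e ≠ v := fun h => hst e (h1.trans h.symm)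
      simp [h1, h2]
    · by_cases h2 : t e = v <;> simp [h1, h2]
  obtain ⟨φ⟩ : Nonempty (∀ v, {a : E × Bool // att s t a = v} ≃ Fin 3) :=
    ⟨fun v => Fintype.equivFinOfCardEq (hc v)⟩
  have key : ∀ (v : V) (a : E × Bool) (h : att s t a = v), φ (att s t a) ⟨a, rfl⟩ = φ v ⟨a, h⟩ := by
    intro v a h
    subst h
    rfl
  refine ⟨fun a => φ (att s t a) ⟨a, rfl⟩, fun v i => ((φ v).symm i).1,
    fun v i => ((φ v).symm i).2, fun v i => ?_, fun a => ?_⟩
  · show φ (att s t ((φ v).symm i).1) ⟨((φ v).symm i).1, rfl⟩ = i
    rw [key v _ ((φ v).symm i).2]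
    exact (φ v).apply_symm_apply i
  · simp

variable (s t : E → V) (ix : E × Bool → Fin 3) (da : V → Fin 3 → E × Bool) (x : E → ℝ)

/-- first end in the graph of triangles -/
def s3 : E ⊕ V × Fin 3 → V × Fin 3 :=
  Sum.elim (fun e => (s e, ix (e, false))) (fun p => (p.1, p.2 + 1))

/-- second end in the graph of triangles -/
def t3 : E ⊕ V × Fin 3 → V × Fin 3 :=
  Sum.elim (fun e => (t e, ix (e, true))) (fun p => (p.1, p.2 + 2))

/-- weight of the triangle edge opposite to `i` -/
noncomputable def z3 (y : Fin 3 → ℝ) (i : Fin 3) : ℝ := (1 - ∑ j, y j + 2 * y i) / 2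

/-- weights in the graph of triangles -/
noncomputable def w3 : E ⊕ V × Fin 3 → ℝ :=
  Sum.elim x (fun p => z3 (fun j => x (da p.1 j).1) p.2)

/-- weight of the crossing edges of one triangle -/
noncomputable def T3 (y : Fin 3 → ℝ) (p : Fin 3 → Prop) : ℝ :=
  ∑ l, if ¬ (p (l + 1) ↔ p (l + 2)) then z3 y l else 0

lemma T3_one (y : Fin 3 → ℝ) (p : Fin 3 → Prop) (i : Fin 3) (h : ∀ j, j ≠ i → (p j ↔ ¬ p i)) :
    T3 y p = 1 - y i := by
  have a1 : (0 : Fin 3) + 1 = 1 := rfl
  have a2 : (0 : Fin 3) + 2 = 2 := rfl
  have a3 : (1 : Fin 3) + 1 = 2 := rfl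
  have a4 : (1 : Fin 3) + 2 = 0 := rfl
  have a5 : (2 : Fin 3) + 1 = 0 := rfl
  have a6 : (2 : Fin 3) + 2 = 1 := rfl
  unfold T3 z3
  simp only [Fin.sum_univ_three, a1, a2, a3, a4, a5, a6]
  fin_cases i
  · have h1 := h 1 (by decide)
    have h2 := h 2 (by decide)
    simp only [Fin.zero_eta, Fin.isValue] at h1 h2 ⊢
    by_cases h0 : p 0 <;> simp only [h1, h2, h0] <;> simp <;> ring
  · have h1 := h 0 (by decide)
    have h2 := h 2 (by decide)
    simp only [Fin.mk_one, Fin.isValue] at h1 h2 ⊢
    by_cases h0 : p 1 <;> simp only [h1, h2, h0] <;> simp <;> ring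
  · have h1 := h 0 (by decide)
    have h2 := h 1 (by decide)
    simp only [Fin.reduceFinMk, Fin.isValue] at h1 h2 ⊢
    by_cases h0 : p 2 <;> simp only [h1, h2, h0] <;> simp <;> ring

lemma T3_nonneg (y : Fin 3 → ℝ) (hz : ∀ i, 0 ≤ z3 y i) (p : Fin 3 → Prop) : 0 ≤ T3 y p := by
  unfold T3
  refine Finset.sum_nonneg fun i _ => ?_
  split_ifs <;> first | exact hz i | exact le_refl _

lemma T3_zero (y : Fin 3 → ℝ) (p : Fin 3 → Prop) (h : ∀ i j, p i ↔ p j) : T3 y p = 0 := by
  unfold T3
  refine Finset.sum_eq_zero fun i _ => ?_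
  rw [if_neg]
  rw [not_not]
  exact h _ _

lemma wt3 (P : Finset (V × Fin 3)) :
    wt (s3 s ix) (t3 t ix) (w3 da x) P =
      (∑ e, if cr (s3 s ix) (t3 t ix) P (Sum.inl e) then x e else 0) +
        ∑ v, T3 (fun j => x (da v j).1) (fun i => (v, i) ∈ P) := by
  unfold wt
  rw [Fintype.sum_sum_type, Fintype.sum_prod_type]
  congr 1
  refine Finset.sum_congr rfl fun v _ => ?_
  unfold T3
  refine Finset.sum_congr rfl fun i _ => ?_
  have key : cr (s3 s ix) (t3 t ix) P (Sum.inr (v, i)) ↔
      ¬ ((v, i + 1) ∈ P ↔ (v, i + 2) ∈ P) := Iff.rfl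
  by_cases h : ((v, i + 1) ∈ P ↔ (v, i + 2) ∈ P)
  · rw [if_neg (fun h' => key.1 h' h), if_neg (not_not.2 h)]
  · rw [if_pos (key.2 h), if_pos h]
    rfl

/-- the three values of a property on `Fin 3`: all equal, or one differs from both others -/
lemma fin3_cases (p : Fin 3 → Prop) :
    (∀ i j, p i ↔ p j) ∨ ∃ i, ∀ j, j ≠ i → (p j ↔ ¬ p i) := by
  have key : ∀ f : Fin 3 → Bool, (∀ i j, f i = f j) ∨ ∃ i, ∀ j, j ≠ i → f j = !f i := by decide
  rcases key fun i => decide (p i) with h | ⟨i, h⟩
  · left
    intro i j
    have := h i j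
    simpa using this
  · right
    refine ⟨i, fun j hj => ?_⟩
    have := h j hj
    by_cases h1 : p i <;> by_cases h2 : p j <;> simp_all

lemma cr3_inl_iff {s t : E → V} {ix : E × Bool → Fin 3} {da : V → Fin 3 → E × Bool}
    (hix : ∀ v i, ix (da v i) = i) (hatt : ∀ v i, att s t (da v i) = v)
    (hda : ∀ a, da (att s t a) (ix a) = a) (v : V) (i : Fin 3) (a : E × Bool) :
    (att s t a, ix a) = (v, i) ↔ a = da v i := by
  constructor
  · intro h
    rw [← hda a]
    have h1 : att s t a = v := congrArg Prod.fst h
    have h2 : ix a = i := congrArg Prod.snd h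
    rw [h1, h2]
  · rintro rfl
    rw [hatt, hix]

/-- **Odd joins under a weight.** Let `x` be a weight between 0 and 1/2 on the edges of a cubic
multigraph such that odd cuts have weight at least one and no edge of a cut is heavier than all
others. Then, for every cost, some set of edges with odd degrees costs at most as much as `x`. -/
theorem exists_join {s t : E → V} (hst : ∀ e, s e ≠ t e) (hcub : ∀ v, cn s t univ {v} = 3)
    {x : E → ℝ} (h0 : ∀ e, 0 ≤ x e) (h2 : ∀ e, x e ≤ 1 / 2)
    (hodd : ∀ S : Finset V, Odd S.card → 1 ≤ wt s t x S)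
    (hne : ∀ (S : Finset V) (e : E), cr s t S e → ∃ e', e' ≠ e ∧ cr s t S e' ∧ x e ≤ x e')
    (c : E → ℝ) :
    ∃ J : Finset E, (∀ v, Odd (cn s t J {v})) ∧ ∑ e ∈ J, c e ≤ ∑ e, x e * c e := by
  obtain ⟨ix, da, hatt, hix, hda⟩ := exists_enum hst hcub
  have hz : ∀ (v : V) (i : Fin 3), 0 ≤ z3 (fun j => x (da v j).1) i := by
    intro v i
    unfold z3
    have a0 := h2 (da v 0).1
    have a1 := h2 (da v 1).1
    have a2 := h2 (da v 2).1
    have b0 := h0 (da v 0).1
    have b1 := h0 (da v 1).1
    have b2 := h0 (da v 2).1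
    rw [Fin.sum_univ_three]
    fin_cases i <;> simp <;> linarith
  have hst3 : ∀ f, s3 s ix f ≠ t3 t ix f := by
    rintro (e | ⟨v, i⟩) h
    · exact hst e (congrArg Prod.fst h)
    · have h1 : i + 1 = i + 2 := congrArg Prod.snd h
      revert h1
      fin_cases i <;> decide
  have hcr1 : ∀ (v : V) (i : Fin 3) (e : E),
      cr (s3 s ix) (t3 t ix) {(v, i)} (Sum.inl e) ↔ e = (da v i).1 := by
    intro v i e
    rw [cr_sing (hst3 _)]
    have e1 := cr3_inl_iff hix hatt hda v i (e, false)
    have e2 := cr3_inl_iff hix hatt hda v i (e, true)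
    have e1' : s3 s ix (Sum.inl e) = (v, i) ↔ (e, false) = da v i := e1
    have e2' : t3 t ix (Sum.inl e) = (v, i) ↔ (e, true) = da v i := e2
    rw [e1', e2']
    constructor
    · rintro (h | h) <;> rw [← h]
    · intro h
      rcases hb : (da v i).2 with _ | _
      · left
        exact Prod.ext h hb.symm
      · right
        exact Prod.ext h hb.symm
  have hw : Frac (s3 s ix) (t3 t ix) univ (w3 da x) := by
    refine ⟨?_, fun f _ => ⟨mem_univ _, mem_univ _, hst3 f⟩, ?_, ?_⟩
    · rintro (e | ⟨v, i⟩)
      · exact h0 e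
      · exact hz v i
    · rintro ⟨v, i⟩ -
      rw [wt3]
      have e1 : (∑ e, if cr (s3 s ix) (t3 t ix) {(v, i)} (Sum.inl e) then x e else 0) =
          x (da v i).1 := by
        rw [Finset.sum_congr rfl fun e _ => if_congr (hcr1 v i e) rfl rfl,
          Finset.sum_ite_eq' univ (da v i).1, if_pos (mem_univ _)]
      have e2 : ∑ u, T3 (fun j => x (da u j).1) (fun j => (u, j) ∈ ({(v, i)} : Finset _)) =
          1 - x (da v i).1 := by
        rw [Finset.sum_eq_single v]
        · refine T3_one _ _ i fun j hj => ?_
          simp [hj]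
        · intro u _ hu
          refine T3_zero _ _ fun j l => ?_
          simp [hu]
        · intro h
          exact absurd (mem_univ v) h
      rw [e1, e2]
      ring
    · intro P _ hP
      rw [wt3]
      have hE0 : 0 ≤ ∑ e, if cr (s3 s ix) (t3 t ix) P (Sum.inl e) then x e else 0 := by
        refine Finset.sum_nonneg fun e _ => ?_
        split_ifs
        · exact h0 e
        · exact le_refl _
      have hT0 : ∀ v, 0 ≤ T3 (fun j => x (da v j).1) (fun i => (v, i) ∈ P) :=
        fun v => T3_nonneg _ (hz v) _
      by_cases hsplit : ∃ v, ¬ ∀ i j, ((v, i) ∈ P ↔ (v, j) ∈ P)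
      · obtain ⟨v0, hv0⟩ := hsplit
        obtain ⟨i0, hi0⟩ := (fin3_cases fun i => (v0, i) ∈ P).resolve_left hv0
        have hT1 := T3_one (fun j => x (da v0 j).1) (fun i => (v0, i) ∈ P) i0 hi0
        by_cases hsplit1 : ∃ v1, v1 ≠ v0 ∧ ¬ ∀ i j, ((v1, i) ∈ P ↔ (v1, j) ∈ P)
        · obtain ⟨v1, hne1, hv1⟩ := hsplit1
          obtain ⟨i1, hi1⟩ := (fin3_cases fun i => (v1, i) ∈ P).resolve_left hv1
          have hT2 := T3_one (fun j => x (da v1 j).1) (fun i => (v1, i) ∈ P) i1 hi1
          have h3 : ∑ v ∈ ({v1, v0} : Finset V),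
              T3 (fun j => x (da v j).1) (fun i => (v, i) ∈ P) ≤
              ∑ v, T3 (fun j => x (da v j).1) (fun i => (v, i) ∈ P) :=
            Finset.sum_le_sum_of_subset_of_nonneg (subset_univ _) fun v _ _ => hT0 v
          rw [Finset.sum_pair hne1, hT1, hT2] at h3
          have h4 := h2 (da v0 i0).1
          have h5 := h2 (da v1 i1).1
          linarith
        · push Not at hsplit1
          set S : Finset V := univ.filter fun v => ∃ i, (v, i) ≠ (v0, i0) ∧ (v, i) ∈ P with hS
          have hmem : ∀ v i, (v, i) ≠ (v0, i0) → ((v, i) ∈ P ↔ v ∈ S) := by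
            intro v i hvi
            rw [hS, mem_filter]
            constructor
            · intro h
              exact ⟨mem_univ _, i, hvi, h⟩
            · rintro ⟨-, j, hvj, h⟩
              by_cases hv : v = v0
              · subst hv
                have hi : i ≠ i0 := fun h => hvi (by rw [h])
                have hj : j ≠ i0 := fun h => hvj (by rw [h])
                exact (hi0 i hi).2 ((hi0 j hj).1 h)
              · exact (hsplit1 v hv j i).1 h
          have hmem0 : (v0, i0) ∈ P ↔ v0 ∉ S := by
            obtain ⟨j, hj⟩ : ∃ j : Fin 3, j ≠ i0 := by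
              fin_cases i0
              · exact ⟨1, by decide⟩
              · exact ⟨0, by decide⟩
              · exact ⟨0, by decide⟩
            rw [← hmem v0 j (fun h => hj (congrArg Prod.snd h)), hi0 j hj, not_not]
          set e0 := (da v0 i0).1 with he0
          have hcrE : ∀ e, e ≠ e0 →
              (cr (s3 s ix) (t3 t ix) P (Sum.inl e) ↔ cr s t S e) := by
            intro e he
            have e1 : (s e, ix (e, false)) ≠ (v0, i0) := by
              intro h
              have := (cr3_inl_iff hix hatt hda v0 i0 (e, false)).1 h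
              exact he (congrArg Prod.fst this)
            have e2 : (t e, ix (e, true)) ≠ (v0, i0) := by
              intro h
              have := (cr3_inl_iff hix hatt hda v0 i0 (e, true)).1 h
              exact he (congrArg Prod.fst this)
            unfold cr
            rw [show s3 s ix (Sum.inl e) = (s e, ix (e, false)) from rfl,
              show t3 t ix (Sum.inl e) = (t e, ix (e, true)) from rfl, hmem _ _ e1, hmem _ _ e2]
          have hcr0 : cr (s3 s ix) (t3 t ix) P (Sum.inl e0) ↔ ¬ cr s t S e0 := by
            rcases hb : (da v0 i0).2 with _ | _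
            · have ha : (e0, false) = da v0 i0 := Prod.ext rfl hb.symm
              have e1 := (cr3_inl_iff hix hatt hda v0 i0 (e0, false)).2 ha
              have e1' : (s e0, ix (e0, false)) = (v0, i0) := e1
              have hs : s e0 = v0 := congrArg Prod.fst e1'
              have e2 : (t e0, ix (e0, true)) ≠ (v0, i0) := by
                intro h
                exact hst e0 (hs.trans (congrArg Prod.fst h).symm)
              unfold cr
              rw [show s3 s ix (Sum.inl e0) = (s e0, ix (e0, false)) from rfl,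
                show t3 t ix (Sum.inl e0) = (t e0, ix (e0, true)) from rfl, e1', hmem _ _ e2,
                hmem0, hs]
              tauto
            · have ha : (e0, true) = da v0 i0 := Prod.ext rfl hb.symm
              have e1 := (cr3_inl_iff hix hatt hda v0 i0 (e0, true)).2 ha
              have e1' : (t e0, ix (e0, true)) = (v0, i0) := e1
              have ht : t e0 = v0 := congrArg Prod.fst e1'
              have e2 : (s e0, ix (e0, false)) ≠ (v0, i0) := by
                intro h
                exact hst e0 ((congrArg Prod.fst h : s e0 = v0).trans ht.symm)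
              unfold cr
              rw [show s3 s ix (Sum.inl e0) = (s e0, ix (e0, false)) from rfl,
                show t3 t ix (Sum.inl e0) = (t e0, ix (e0, true)) from rfl, e1', hmem _ _ e2,
                hmem0, ht]
              tauto
          have hT3 : 1 - x e0 ≤ ∑ v, T3 (fun j => x (da v j).1) (fun i => (v, i) ∈ P) := by
            rw [← hT1]
            exact Finset.single_le_sum (f := fun v =>
              T3 (fun j => x (da v j).1) (fun i => (v, i) ∈ P)) (fun v _ => hT0 v) (mem_univ v0)
          have hE1 : x e0 ≤ ∑ e, if cr (s3 s ix) (t3 t ix) P (Sum.inl e) then x e else 0 := by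
            have hnn : ∀ e ∈ (univ : Finset E), 0 ≤
                (if cr (s3 s ix) (t3 t ix) P (Sum.inl e) then x e else 0) := by
              intro e _
              split_ifs
              · exact h0 e
              · exact le_refl _
            by_cases h3 : cr s t S e0
            · obtain ⟨e1, hne, h4, h5⟩ := hne S e0 h3
              have h6 := Finset.single_le_sum hnn (mem_univ e1)
              rw [if_pos ((hcrE e1 hne).2 h4)] at h6
              linarith
            · have h6 := Finset.single_le_sum hnn (mem_univ e0)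
              rwa [if_pos (hcr0.2 h3)] at h6
          linarith
      · push Not at hsplit
        set S : Finset V := univ.filter fun v => (v, (0 : Fin 3)) ∈ P with hS
        have hmem : ∀ v i, ((v, i) ∈ P ↔ v ∈ S) := by
          intro v i
          rw [hS, mem_filter, hsplit v i 0]
          simp
        have hPS : P = S ×ˢ (univ : Finset (Fin 3)) := by
          ext ⟨v, i⟩
          rw [hmem, mem_product]
          simp
        have hSodd : Odd S.card := by
          rw [hPS, card_product, card_univ, Fintype.card_fin] at hP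
          exact (Nat.odd_mul.1 hP).1
        have h3 := hodd S hSodd
        have h4 : wt s t x S =
            ∑ e, if cr (s3 s ix) (t3 t ix) P (Sum.inl e) then x e else 0 := by
          unfold wt
          refine Finset.sum_congr rfl fun e _ => if_congr ?_ rfl rfl
          unfold cr
          rw [show s3 s ix (Sum.inl e) = (s e, ix (e, false)) from rfl,
            show t3 t ix (Sum.inl e) = (t e, ix (e, true)) from rfl, hmem, hmem]
        have h5 : 0 ≤ ∑ v, T3 (fun j => x (da v j).1) (fun i => (v, i) ∈ P) :=
          Finset.sum_nonneg fun v _ => hT0 v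
        linarith
  obtain ⟨M, hM, hMc⟩ := edm _ (s3 s ix) (t3 t ix) univ (w3 da x) rfl hw (Sum.elim c fun _ => 0)
  refine ⟨univ.filter fun e => (Sum.inl e : E ⊕ V × Fin 3) ∈ M, fun v => ?_, ?_⟩
  · have h3 : Odd (cn (s3 s ix) (t3 t ix) M (({v} : Finset V) ×ˢ (univ : Finset (Fin 3)))) := by
      refine pm_odd hst3 (fun u => hM.one u (mem_univ u)) ?_
      rw [card_product, card_singleton, card_univ, Fintype.card_fin]
      decide
    have h4 : cn (s3 s ix) (t3 t ix) M (({v} : Finset V) ×ˢ (univ : Finset (Fin 3))) =
        cn s t (univ.filter fun e => (Sum.inl e : E ⊕ V × Fin 3) ∈ M) {v} := by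
      unfold cn
      rw [Finset.sum_filter, ← Finset.sum_filter_add_sum_filter_not M (fun f => f.isLeft)]
      have e1 : ∑ f ∈ M.filter (fun f => ¬ f.isLeft),
          ci (s3 s ix) (t3 t ix) (({v} : Finset V) ×ˢ (univ : Finset (Fin 3))) f = 0 := by
        refine Finset.sum_eq_zero fun f hf => ?_
        rcases f with e | ⟨u, i⟩
        · exact absurd rfl (mem_filter.1 hf).2
        · rw [ci_eq_zero]
          unfold cr s3 t3
          simp
      rw [e1, add_zero, ← Finset.sum_filter]
      refine Finset.sum_bij' (fun f hf => f.getLeft (mem_filter.1 hf).2)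
        (fun e _ => Sum.inl e) ?_ ?_ ?_ ?_ ?_
      · intro f hf
        rw [mem_filter] at hf ⊢
        refine ⟨mem_univ _, ?_⟩
        rw [Sum.inl_getLeft]
        exact hf.1
      · intro e he
        rw [mem_filter] at he ⊢
        exact ⟨he.2, rfl⟩
      · intro f hf
        exact Sum.inl_getLeft f _
      · intro e he
        rfl
      · intro f hf
        rcases f with e | f
        · unfold ci
          refine if_congr ?_ rfl rfl
          unfold cr s3 t3
          simp only [Sum.elim_inl, mem_product, mem_singleton, mem_univ, and_true,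
            Sum.getLeft_inl]
        · exact absurd (mem_filter.1 hf).2 (by simp)
    rw [← h4]
    exact h3
  · rw [Fintype.sum_sum_type] at hMc
    have e1 : ∑ p : V × Fin 3, w3 da x (Sum.inr p) * (Sum.elim c (fun _ => (0 : ℝ)) (Sum.inr p)) =
        0 := Finset.sum_eq_zero fun p _ => by simp
    have e2 : ∑ f ∈ M, Sum.elim c (fun _ => (0 : ℝ)) f =
        ∑ e ∈ univ.filter (fun e => (Sum.inl e : E ⊕ V × Fin 3) ∈ M), c e := by
      rw [Finset.sum_filter]
      have e3 : ∑ f ∈ M, Sum.elim c (fun _ => (0 : ℝ)) f =
          ∑ f : E ⊕ V × Fin 3, if f ∈ M then Sum.elim c (fun _ => (0 : ℝ)) f else 0 := by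
        rw [← Finset.sum_filter]
        congr 1
        ext f
        simp
      rw [e3, Fintype.sum_sum_type]
      simp
    rw [e1, add_zero, e2] at hMc
    exact hMc

end tri

end EdP
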