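import Pool.Agent.Lib.EdP.Glue

/-! Edmonds' theorem on the perfect matching polytope, in cost form. -/

set_option autoImplicit false
set_option linter.unusedSectionVars false

namespace EdP

open Finset Classical OddFour

variable {V E : Type*} [Fintype E]

lemma ratio {ι : Type*} (S : Finset ι) (p q : ι → ℝ) (hp : ∀ i ∈ S, 0 ≤ p i)
    (hpq : ∀ i ∈ S, 0 < q i → 0 < p i) (hex : ∃ i ∈ S, 0 < q i) :
    ∃ r : ℝ, 0 < r ∧ (∀ i ∈ S, 0 ≤ p i - r * q i) ∧ ∃ i ∈ S, 0 < q i ∧ p i - r * q i = 0 := by
  have hne : (S.filter fun i => 0 < q i).Nonempty := by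
    obtain ⟨i, hi, hq⟩ := hex
    exact ⟨i, mem_filter.2 ⟨hi, hq⟩⟩
  obtain ⟨i, hi, hmin⟩ := Finset.exists_min_image _ (fun i => p i / q i) hne
  rw [mem_filter] at hi
  refine ⟨p i / q i, div_pos (hpq i hi.1 hi.2) hi.2, ?_, i, hi.1, hi.2, ?_⟩
  · intro j hj
    by_cases hq : 0 < q j
    · have h1 := hmin j (mem_filter.2 ⟨hj, hq⟩)
      rw [le_div_iff₀ hq] at h1
      linarith
    · have h1 : p i / q i * q j ≤ 0 :=
        mul_nonpos_of_nonneg_of_nonpos (div_nonneg (hp i hi.1) hi.2.le) (not_lt.1 hq)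
      linarith [hp j hj]
  · rw [div_mul_cancel₀ _ hi.2.ne', sub_self]

variable {s t : E → V} {vs : Finset V} {w : E → ℝ}

/-- the point `w` moved away from `M` -/
noncomputable def mv (w : E → ℝ) (M : Finset E) (r : ℝ) (e : E) : ℝ :=
  (1 + r) * w e - r * (if e ∈ M then 1 else 0)

lemma cn_cast (s t : E → V) (M : Finset E) (X : Finset V) :
    (cn s t M X : ℝ) = ∑ e, if cr s t X e then (if e ∈ M then (1 : ℝ) else 0) else 0 := by
  unfold cn ci
  push_cast
  rw [← Finset.sum_filter_add_sum_filter_not univ (fun e => e ∈ M)]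
  have h1 : (univ.filter fun e => e ∈ M) = M := by ext e; simp
  rw [h1]
  have h2 : ∑ e ∈ univ.filter (fun e => e ∉ M),
      (if cr s t X e then (if e ∈ M then (1 : ℝ) else 0) else 0) = 0 := by
    refine Finset.sum_eq_zero fun e he => ?_
    rw [if_neg (mem_filter.1 he).2]
    split_ifs <;> rfl
  rw [h2, add_zero]
  refine Finset.sum_congr rfl fun e he => ?_
  rw [if_pos he]

lemma wt_mv (s t : E → V) (w : E → ℝ) (M : Finset E) (r : ℝ) (X : Finset V) :
    wt s t (mv w M r) X = (1 + r) * wt s t w X - r * cn s t M X := by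
  rw [cn_cast]
  unfold wt mv
  rw [Finset.mul_sum, Finset.mul_sum, ← Finset.sum_sub_distrib]
  refine Finset.sum_congr rfl fun e _ => ?_
  split_ifs <;> ring

lemma le_one (hw : Frac s t vs w) {e : E} (he : w e ≠ 0) : w e ≤ 1 := by
  obtain ⟨h1, h2, h3⟩ := hw.ends e he
  rw [← hw.deg _ h1]
  unfold wt
  have := Finset.single_le_sum (f := fun f => if cr s t {s e} f then w f else 0)
    (fun f _ => by
      show (0 : ℝ) ≤ if cr s t {s e} f then w f else 0
      split_ifs
      · exact hw.nn f
      · exact le_refl _) (mem_univ e)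
  rw [if_pos ((cr_sing h3 _).2 (Or.inl rfl))] at this
  exact this

/-- a nontrivial tight set -/
def NT (s t : E → V) (vs : Finset V) (w : E → ℝ) (Z : Finset V) : Prop :=
  Z ⊆ vs ∧ Odd Z.card ∧ 2 ≤ Z.card ∧ 2 ≤ (vs \ Z).card ∧ wt s t w Z = 1

lemma cn_comp (hw : Frac s t vs w) {M : Finset E} (hM : PM s t vs w M) (X : Finset V) :
    cn s t M (vs \ X) = cn s t M X :=
  by
  unfold cn ci
  refine Finset.sum_congr rfl fun e he => ?_
  rw [if_congr (cr_comp hw (hM.pos e he) X) rfl rfl]

lemma triv (hw : Frac s t vs w) {M : Finset E} (hM : PM s t vs w M) {Z : Finset V}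
    (hZ : Z ⊆ vs) (hodd : Odd Z.card) (hq : wt s t w Z < cn s t M Z) :
    2 ≤ Z.card ∧ 2 ≤ (vs \ Z).card := by
  have one : ∀ Y ⊆ vs, Y.card = 1 → wt s t w Y = 1 ∧ cn s t M Y = 1 := by
    intro Y hY h
    obtain ⟨v, rfl⟩ := card_eq_one.1 h
    exact ⟨hw.deg v (singleton_subset_iff.1 hY), hM.one v (singleton_subset_iff.1 hY)⟩
  constructor
  · by_contra h
    have h1 : Z.card = 1 := by
      obtain ⟨a, ha⟩ := hodd
      omega
    obtain ⟨h2, h3⟩ := one Z hZ h1
    rw [h2, h3] at hq
    norm_num at hq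
  · by_contra h
    have h1 : (vs \ Z).card = 1 := by
      rw [card_sdiff_of_subset hZ] at h ⊢
      have h3 := card_le_card hZ
      obtain ⟨a, ha⟩ := hodd
      obtain ⟨b, hb⟩ := even_vs hw
      omega
    obtain ⟨h2, h3⟩ := one _ sdiff_subset h1
    rw [wt_comp hw] at h2
    rw [cn_comp hw hM] at h3
    rw [h2, h3] at hq
    norm_num at hq

theorem move (hw : Frac s t vs w) {M : Finset E} (hM : PM s t vs w M)
    (hno : ∀ Z, ¬ NT s t vs w Z) (hex : ∃ e ∈ M, w e ≠ 1) :
    ∃ r : ℝ, 0 < r ∧ Frac s t vs (mv w M r) ∧ (∀ e, w e = 0 → mv w M r e = 0) ∧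
      ((∃ e, w e ≠ 0 ∧ mv w M r e = 0) ∨ ∃ Z, NT s t vs (mv w M r) Z) := by
  let S : Finset (E ⊕ Finset V) := M.disjSum (vs.powerset.filter fun Z => Odd Z.card)
  let p : E ⊕ Finset V → ℝ := Sum.elim w fun Z => wt s t w Z - 1
  let q : E ⊕ Finset V → ℝ := Sum.elim (fun e => 1 - w e) fun Z => cn s t M Z - wt s t w Z
  have hpos : ∀ e ∈ M, 0 < w e := fun e he => lt_of_le_of_ne (hw.nn e) (hM.pos e he).symm
  obtain ⟨r, hr, hall, i, hi, hqi, hpi⟩ := ratio S p q
    (by
      rintro (e | Z) hi
      · exact hw.nn e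
      · have h1 := Finset.inr_mem_disjSum.1 hi
        rw [mem_filter, mem_powerset] at h1
        exact sub_nonneg.2 (hw.odd Z h1.1 h1.2))
    (by
      rintro (e | Z) hi hq
      · exact hpos e (Finset.inl_mem_disjSum.1 hi)
      · have h1 := Finset.inr_mem_disjSum.1 hi
        rw [mem_filter, mem_powerset] at h1
        have h2 : wt s t w Z < cn s t M Z := sub_pos.1 hq
        obtain ⟨h3, h4⟩ := triv hw hM h1.1 h1.2 h2
        have h5 := hw.odd Z h1.1 h1.2
        have h6 : wt s t w Z ≠ 1 := fun h => hno Z ⟨h1.1, h1.2, h3, h4, h⟩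
        show 0 < wt s t w Z - 1
        exact sub_pos.2 (lt_of_le_of_ne h5 h6.symm))
    (by
      obtain ⟨e, he, h1⟩ := hex
      refine ⟨Sum.inl e, Finset.inl_mem_disjSum.2 he, ?_⟩
      show 0 < 1 - w e
      exact sub_pos.2 (lt_of_le_of_ne (le_one hw (hM.pos e he)) h1))
  have hz : ∀ e, w e = 0 → mv w M r e = 0 := by
    intro e he
    unfold mv
    rw [he, if_neg fun h => hM.pos e h he]
    ring
  have hfr : Frac s t vs (mv w M r) := by
    refine ⟨?_, ?_, ?_, ?_⟩
    · intro e
      unfold mv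
      by_cases he : e ∈ M
      · rw [if_pos he]
        have h1 := hall (Sum.inl e) (Finset.inl_mem_disjSum.2 he)
        have h2 : 0 ≤ w e - r * (1 - w e) := h1
        linarith
      · rw [if_neg he, mul_zero, sub_zero]
        exact mul_nonneg (by linarith) (hw.nn e)
    · intro e he
      exact hw.ends e fun h => he (hz e h)
    · intro v hv
      rw [wt_mv, hw.deg v hv, hM.one v hv]
      push_cast
      ring
    · intro X hX hXo
      rw [wt_mv]
      have h1 := hall (Sum.inr X) (Finset.inr_mem_disjSum.2 (mem_filter.2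
        ⟨mem_powerset.2 hX, hXo⟩))
      have h2 : 0 ≤ (wt s t w X - 1) - r * (cn s t M X - wt s t w X) := h1
      linarith
  refine ⟨r, hr, hfr, hz, ?_⟩
  rcases i with e | Z
  · left
    have he := Finset.inl_mem_disjSum.1 hi
    refine ⟨e, hM.pos e he, ?_⟩
    unfold mv
    rw [if_pos he]
    have h2 : w e - r * (1 - w e) = 0 := hpi
    linarith
  · right
    have h1 := Finset.inr_mem_disjSum.1 hi
    rw [mem_filter, mem_powerset] at h1
    have h2 : wt s t w Z < cn s t M Z := sub_pos.1 hqi
    obtain ⟨h3, h4⟩ := triv hw hM h1.1 h1.2 h2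
    refine ⟨Z, h1.1, h1.2, h3, h4, ?_⟩
    rw [wt_mv]
    have h5 : (wt s t w Z - 1) - r * (cn s t M Z - wt s t w Z) = 0 := hpi
    linarith

lemma edm_one (hw : Frac s t vs w) {M : Finset E} (hM : PM s t vs w M)
    (h1 : ∀ e ∈ M, w e = 1) : Edm s t vs w := by
  intro c
  refine ⟨M, hM, ?_⟩
  have hz : ∀ e, e ∉ M → w e = 0 := by
    intro e he
    by_contra hne
    obtain ⟨h2, h3, h4⟩ := hw.ends e hne
    have h5 := hM.one _ h2
    rw [cn_eq_card, card_eq_one] at h5
    obtain ⟨f, hf⟩ := h5
    have h6 : f ∈ M.filter (cr s t {s e}) := by rw [hf]; exact mem_singleton_self _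
    rw [mem_filter] at h6
    have hef : e ≠ f := fun h => he (by rw [h]; exact h6.1)
    have h7 := hw.deg _ h2
    rw [wt_eq_filter] at h7
    have h8 : ({e, f} : Finset E) ⊆ univ.filter (cr s t {s e}) := by
      intro x hx
      rw [mem_insert, mem_singleton] at hx
      rw [mem_filter]
      refine ⟨mem_univ _, ?_⟩
      rcases hx with rfl | rfl
      · exact (cr_sing h4 _).2 (Or.inl rfl)
      · exact h6.2
    have h9 := Finset.sum_le_sum_of_subset_of_nonneg h8 (f := w) fun i _ _ => hw.nn i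
    rw [h7, Finset.sum_pair hef, h1 f h6.1] at h9
    have := hw.nn e
    exact hne (by linarith)
  have : ∑ e, w e * c e = ∑ e ∈ M, c e := by
    rw [← Finset.sum_filter_add_sum_filter_not univ (fun e => e ∈ M)]
    have h1' : (univ.filter fun e => e ∈ M) = M := by ext e; simp
    rw [h1']
    have h2 : ∑ e ∈ univ.filter (fun e => e ∉ M), w e * c e = 0 :=
      Finset.sum_eq_zero fun e he => by rw [hz e (mem_filter.1 he).2, zero_mul]
    rw [h2, add_zero]
    exact Finset.sum_congr rfl fun e he => by rw [h1 e he, one_mul]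
  rw [this]

/-- **Edmonds' theorem** (cost form): every point `w` of the perfect matching polytope dominates,
for every cost, some perfect matching in its support. -/
theorem edm {V E : Type*} [Fintype E] : ∀ (n : ℕ) (s t : E → V) (vs : Finset V) (w : E → ℝ),
    vs.card = n → Frac s t vs w → Edm s t vs w := by
  intro n
  induction n using Nat.strong_induction_on with
  | _ n ih =>
  intro s t vs w hn hw
  have hE : ∀ (s t : E → V) (vs' : Finset V) (w : E → ℝ), vs'.card < vs.card →
      Frac s t vs' w → Edm s t vs' w := fun s t vs' w h hf => ih _ (by omega) s t vs' w rfl hf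
  have main : ∀ (k : ℕ) (w : E → ℝ), (univ.filter fun e => w e ≠ 0).card = k →
      Frac s t vs w → Edm s t vs w := by
    intro k
    induction k using Nat.strong_induction_on with
    | _ k ihk =>
    intro w hk hw
    by_cases hT : ∃ Z, NT s t vs w Z
    · obtain ⟨Z, h1, h2, h3, h4, h5⟩ := hT
      exact glue hE hw h1 h2 h5 h3 h4
    · obtain ⟨M, hM⟩ := exists_pm hw
      by_cases h1 : ∀ e ∈ M, w e = 1
      · exact edm_one hw hM h1
      · push Not at h1
        obtain ⟨r, hr, hfr, hz, hcase⟩ := move hw hM (fun Z h => hT ⟨Z, h⟩) h1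
        have hedm : Edm s t vs (mv w M r) := by
          rcases hcase with ⟨e, he, he'⟩ | ⟨Z, h1, h2, h3, h4, h5⟩
          · refine ihk _ ?_ _ rfl hfr
            rw [← hk]
            apply card_lt_card
            rw [Finset.ssubset_iff_of_subset]
            · exact ⟨e, mem_filter.2 ⟨mem_univ _, he⟩, fun h => (mem_filter.1 h).2 he'⟩
            · intro x hx
              rw [mem_filter] at hx ⊢
              exact ⟨mem_univ _, fun h => hx.2 (hz x h)⟩
          · exact glue hE hfr h1 h2 h5 h3 h4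
        intro c
        by_cases hc : ∑ e ∈ M, c e ≤ ∑ e, w e * c e
        · exact ⟨M, hM, hc⟩
        · obtain ⟨N, hN, hcN⟩ := hedm c
          refine ⟨N, ⟨fun e he h => hN.pos e he (hz e h), hN.one⟩, ?_⟩
          have h2 : ∑ e, mv w M r e * c e = (1 + r) * ∑ e, w e * c e - r * ∑ e ∈ M, c e := by
            have h3 : ∑ e ∈ M, c e = ∑ e, (if e ∈ M then (1 : ℝ) else 0) * c e := by
              rw [← Finset.sum_filter_add_sum_filter_not univ (fun e => e ∈ M)]
              have h1' : (univ.filter fun e => e ∈ M) = M := by ext e; simp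
              rw [h1']
              have h2 : ∑ e ∈ univ.filter (fun e => e ∉ M),
                  (if e ∈ M then (1 : ℝ) else 0) * c e = 0 :=
                Finset.sum_eq_zero fun e he => by rw [if_neg (mem_filter.1 he).2, zero_mul]
              rw [h2, add_zero]
              exact Finset.sum_congr rfl fun e he => by rw [if_pos he, one_mul]
            rw [h3, Finset.mul_sum, Finset.mul_sum, ← Finset.sum_sub_distrib]
            refine Finset.sum_congr rfl fun e _ => ?_
            unfold mv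
            ring
          rw [h2] at hcN
          rw [not_le] at hc
          nlinarith
  exact main _ w rfl hw

end EdP
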