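import Pool.Agent.Lib.EdP.Join

/-! A perfect matching `M` and an odd join `N` of a cubic multigraph such that `J ∩ M ∩ N` has
small weight, where `J` is a given perfect matching. -/

set_option autoImplicit false
set_option linter.unusedSectionVars false

namespace EdP

open Finset Classical OddFour

section cubic

variable {V E : Type*} [Fintype V] [Fintype E] {s t : E → V}

lemma cn_eq_one_of {B : Finset E} {S : Finset V} {e : E} (he : e ∈ B) (h : cr s t S e)
    (hu : ∀ e' ∈ B, e' ≠ e → ¬ cr s t S e') : cn s t B S = 1 := by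
  unfold cn
  rw [Finset.sum_eq_single e]
  · exact ci_eq_one.2 h
  · intro e' he' hne
    exact ci_eq_zero.2 (hu e' he' hne)
  · intro h'
    exact absurd he h'

lemma even_off (hst : ∀ e, s e ≠ t e) (hcub : ∀ v, cn s t univ {v} = 3) {A : Finset E}
    (hA : ∀ v, Odd (cn s t A {v})) (S : Finset V) : Even (cn s t (univ \ A) S) := by
  have e1 := cn_union (s := s) (t := t) (sdiff_disjoint : Disjoint (univ \ A) A) S
  rw [sdiff_union_of_subset (subset_univ A)] at e1
  have h1 : Odd (cn s t A S) ↔ Odd S.card := odd_cn (fun e _ => hst e) fun v _ => hA v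
  have h2 : Odd (cn s t univ S) ↔ Odd S.card :=
    odd_cn (fun e _ => hst e) fun v _ => by rw [hcub v]; decide
  rw [e1, ← h1, Nat.odd_add'] at h2
  by_contra hcon
  rw [Nat.not_even_iff_odd] at hcon
  by_cases h3 : Odd (cn s t A S)
  · exact (Nat.not_even_iff_odd.2 hcon) ((h2.2 h3).1 h3)
  · have h4 : Even (cn s t A S) := Nat.not_odd_iff_even.1 h3
    exact h3 (h2.1 ⟨fun h => absurd h h3, fun h => absurd h (Nat.not_even_iff_odd.2 hcon)⟩)

lemma another_off (hst : ∀ e, s e ≠ t e) (hcub : ∀ v, cn s t univ {v} = 3) {A : Finset E}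
    (hA : ∀ v, Odd (cn s t A {v})) {S : Finset V} {e : E} (he : e ∉ A) (h : cr s t S e) :
    ∃ e', e' ≠ e ∧ e' ∉ A ∧ cr s t S e' := by
  by_contra hcon
  push Not at hcon
  have h1 : cn s t (univ \ A) S = 1 := by
    refine cn_eq_one_of (mem_sdiff.2 ⟨mem_univ _, he⟩) h fun e' he' hne => ?_
    exact hcon e' hne (mem_sdiff.1 he').2
  have h2 := even_off hst hcub hA S
  rw [h1] at h2
  exact absurd h2 (by decide)

lemma another (hst : ∀ e, s e ≠ t e) (hcub : ∀ v, cn s t univ {v} = 3)
    (hcut : ∀ X : Finset V, Odd X.card → 3 ≤ cn s t univ X) {S : Finset V} {e : E}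
    (h : cr s t S e) : ∃ e', e' ≠ e ∧ cr s t S e' := by
  by_contra hcon
  push Not at hcon
  have h1 : cn s t univ S = 1 := cn_eq_one_of (mem_univ e) h fun e' _ hne => hcon e' hne
  have h2 : Odd (cn s t univ S) ↔ Odd S.card :=
    odd_cn (fun e _ => hst e) fun v _ => by rw [hcub v]; decide
  have h3 := hcut S (h2.1 (by rw [h1]; decide))
  omega

/-- Let `J` be a perfect matching of a bridgeless cubic multigraph and let `k ≥ 3` be odd such
that every odd cut contained in `J` has at least `k` edges. For every real cost `c` there are a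
perfect matching `M` and a set `N` of edges with odd degrees such that
`k (k + 2) c(J ∩ M ∩ N) ≤ c(J)`. -/
theorem weighted (hst : ∀ e, s e ≠ t e) (hcub : ∀ v, cn s t univ {v} = 3)
    (hcut : ∀ X : Finset V, Odd X.card → 3 ≤ cn s t univ X)
    (k : ℕ) (hk : 3 ≤ k) (hko : Odd k) {J : Finset E} (hJ : ∀ v, cn s t J {v} = 1)
    (ha : ∀ X : Finset V, Odd X.card → (∀ e, cr s t X e → e ∈ J) → k ≤ cn s t univ X)
    (c : E → ℝ) :
    ∃ M N : Finset E, (∀ v, cn s t M {v} = 1) ∧ (∀ v, Odd (cn s t N {v})) ∧
      (k : ℝ) * (k + 2) * ∑ e ∈ J ∩ M ∩ N, c e ≤ ∑ e ∈ J, c e := by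
  have hkR : (3 : ℝ) ≤ k := by exact_mod_cast hk
  have hk0 : (0 : ℝ) < k := by linarith
  set K : ℝ := (k : ℝ) with hK
  have hfull : ∀ (A : Finset E) (X : Finset V), (∀ e, cr s t X e → e ∈ A) →
      cn s t A X = cn s t univ X := by
    intro A X h
    unfold cn
    refine Finset.sum_subset (subset_univ A) fun e _ he => ?_
    rw [ci_eq_zero]
    exact fun h' => he (h e h')
  have hoJ : ∀ v, Odd (cn s t J {v}) := fun v => by rw [hJ v]; decide
  -- the matching
  have hw2 : Frac s t univ
      (fun e => (K - 1) / (2 * K) - (K - 3) / (2 * K) * (if e ∈ J then 1 else 0) -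
        0 * (if e ∈ J then 1 else 0)) := by
    refine ⟨fun e => ?_, fun e _ => ⟨mem_univ _, mem_univ _, hst e⟩, ?_, ?_⟩
    · split_ifs
      · have : (K - 1) / (2 * K) - (K - 3) / (2 * K) * 1 - 0 * 1 = 1 / K := by
          field_simp
          ring
        rw [this]
        positivity
      · have : (K - 1) / (2 * K) - (K - 3) / (2 * K) * 0 - 0 * 0 = (K - 1) / (2 * K) := by
          ring
        rw [this]
        exact div_nonneg (by linarith) (by linarith)
    · intro v _
      rw [wt_lin, hcub v, hJ v]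
      push_cast
      field_simp
      ring
    · intro X _ hX
      rw [wt_lin]
      have h1 : (K - 1) / (2 * K) * (cn s t univ X : ℝ) - (K - 3) / (2 * K) * (cn s t J X : ℝ) -
          0 * (cn s t J X : ℝ) =
          ((K - 1) * cn s t univ X - (K - 3) * cn s t J X) / (2 * K) := by ring
      rw [h1, le_div_iff₀ (by linarith)]
      have hJo : 1 ≤ cn s t J X := (pm_odd hst hJ hX).pos
      have hJo' : (1 : ℝ) ≤ cn s t J X := by exact_mod_cast hJo
      by_cases h2 : ∀ e, cr s t X e → e ∈ J
      · have h4 : K ≤ cn s t univ X := by rw [hK]; exact_mod_cast ha X hX h2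
        rw [hfull J X h2]
        nlinarith
      · push Not at h2
        obtain ⟨e, he, heJ⟩ := h2
        have e1 := cn_union (s := s) (t := t) (sdiff_disjoint : Disjoint (univ \ J) J) X
        rw [sdiff_union_of_subset (subset_univ J)] at e1
        have h3 : 2 ≤ cn s t (univ \ J) X := by
          obtain ⟨a, ha⟩ := even_off hst hcub hoJ X
          have h5 : cn s t (univ \ J) X ≠ 0 := by
            intro h
            exact (cn_eq_zero.1 h) e (mem_sdiff.2 ⟨mem_univ _, heJ⟩) he
          omega
        have h4 : (cn s t J X : ℝ) + 2 ≤ cn s t univ X := by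
          rw [e1]
          push_cast
          have : (2 : ℝ) ≤ cn s t (univ \ J) X := by exact_mod_cast h3
          linarith
        nlinarith
  obtain ⟨M, hM, hMT, hMc⟩ := edm_tight hst hw2
    (univ.filter fun X => Odd X.card ∧ cn s t univ X = k ∧ cn s t J X = k) (by
      intro Z hZ
      rw [mem_filter] at hZ
      refine ⟨hZ.2.1, ?_⟩
      rw [wt_lin, hZ.2.2.1, hZ.2.2.2, ← hK]
      field_simp
      ring) (fun e => if e ∈ J then c e else 0)
  have hMk : ∀ X : Finset V, Odd X.card → cn s t univ X = k → cn s t J X = k →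
      cn s t M X = 1 :=
    fun X hX h h' => hMT X (mem_filter.2 ⟨mem_univ _, hX, h, h'⟩)
  have hoM : ∀ v, Odd (cn s t M {v}) := fun v => by rw [hM v]; decide
  have hb : K * ∑ e ∈ J ∩ M, c e ≤ ∑ e ∈ J, c e := by
    have h1 : ∑ e ∈ M, (if e ∈ J then c e else 0) = ∑ e ∈ J ∩ M, c e := by
      rw [Finset.sum_ite_mem, inter_comm]
    have h2 : ∑ e, ((K - 1) / (2 * K) - (K - 3) / (2 * K) * (if e ∈ J then 1 else 0) -
        0 * (if e ∈ J then 1 else 0)) * (if e ∈ J then c e else 0) =
        1 / K * ∑ e ∈ J, c e := by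
      rw [Finset.mul_sum, ← Finset.sum_filter_add_sum_filter_not univ (fun e => e ∈ J)]
      have h3 : (univ.filter fun e => e ∈ J) = J := by ext e; simp
      rw [h3, Finset.sum_eq_zero (s := univ.filter fun e => e ∉ J), add_zero]
      · refine Finset.sum_congr rfl fun e he => ?_
        rw [if_pos he, if_pos he]
        field_simp
        ring
      · intro e he
        rw [if_neg (mem_filter.1 he).2, if_neg (mem_filter.1 he).2, mul_zero]
    rw [h1, h2] at hMc
    have h4 := mul_le_mul_of_nonneg_left hMc hk0.le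
    have h5 : K * (1 / K * ∑ e ∈ J, c e) = ∑ e ∈ J, c e := by
      field_simp
    rwa [h5] at h4
  -- the join
  set x : E → ℝ := fun e => if e ∈ J ∩ M then 1 / (K + 2) else 1 / 2 with hx
  have hx1 : ∀ e ∈ J ∩ M, x e = 1 / (K + 2) := fun e he => if_pos he
  have hx2 : ∀ e, e ∉ J ∩ M → x e = 1 / 2 := fun e he => if_neg he
  have hlow : ∀ e, 1 / (K + 2) ≤ x e := by
    intro e
    by_cases he : e ∈ J ∩ M
    · rw [hx1 e he]
    · rw [hx2 e he]
      exact one_div_le_one_div_of_le (by norm_num) (by linarith)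
  have hoff : ∀ (S : Finset V) (e : E), cr s t S e → e ∉ J ∩ M →
      ∃ e', e' ≠ e ∧ cr s t S e' ∧ e' ∉ J ∩ M := by
    intro S e he heD
    by_cases h1 : e ∈ J
    · have h2 : e ∉ M := fun h => heD (mem_inter.2 ⟨h1, h⟩)
      obtain ⟨e', a1, a2, a3⟩ := another_off hst hcub hoM h2 he
      exact ⟨e', a1, a3, fun h => a2 (mem_inter.1 h).2⟩
    · obtain ⟨e', a1, a2, a3⟩ := another_off hst hcub hoJ h1 he
      exact ⟨e', a1, a3, fun h => a2 (mem_inter.1 h).1⟩
  obtain ⟨N, hN, hNc⟩ := exists_join hst hcub (x := x)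
    (fun e => le_trans (by positivity) (hlow e))
    (fun e => by
      by_cases he : e ∈ J ∩ M
      · rw [hx1 e he]
        exact one_div_le_one_div_of_le (by norm_num) (by linarith)
      · rw [hx2 e he])
    (by
      intro S hS
      by_cases hall : ∀ e, cr s t S e → e ∈ J ∩ M
      · have h1 : wt s t x S = (cn s t univ S : ℝ) * (1 / (K + 2)) := by
          rw [cn_cast, Finset.sum_mul]
          unfold wt
          refine Finset.sum_congr rfl fun e _ => ?_
          by_cases h : cr s t S e
          · rw [if_pos h, hx1 e (hall e h)]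
            simp [h]
          · rw [if_neg h]
            simp [h]
        have h2 : k ≤ cn s t univ S := ha S hS fun e he => (mem_inter.1 (hall e he)).1
        have h3 : cn s t univ S ≠ k := by
          intro h
          have e1 := hfull J S fun e he => (mem_inter.1 (hall e he)).1
          have e2 := hfull M S fun e he => (mem_inter.1 (hall e he)).2
          have e3 := hMk S hS h (by rw [e1, h])
          omega
        have h4 : k + 2 ≤ cn s t univ S := by
          obtain ⟨a, ha'⟩ := odd_univ hst hcub hS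
          obtain ⟨b, hb'⟩ := hko
          omega
        have h5 : K + 2 ≤ cn s t univ S := by rw [hK]; exact_mod_cast h4
        rw [h1, mul_one_div, le_div_iff₀ (by linarith)]
        linarith
      · push Not at hall
        obtain ⟨e, he, heD⟩ := hall
        obtain ⟨e', hne, he', heD'⟩ := hoff S e he heD
        have h1 : ∑ f ∈ ({e', e} : Finset E), (if cr s t S f then x f else 0) ≤ wt s t x S := by
          unfold wt
          refine Finset.sum_le_sum_of_subset_of_nonneg (subset_univ _) fun f _ _ => ?_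
          split_ifs
          · exact le_trans (by positivity) (hlow f)
          · exact le_refl _
        rw [Finset.sum_pair hne, if_pos he, if_pos he', hx2 e heD, hx2 e' heD'] at h1
        linarith)
    (by
      intro S e he
      by_cases heD : e ∈ J ∩ M
      · obtain ⟨e', hne, he'⟩ := another hst hcub hcut he
        exact ⟨e', hne, he', by rw [hx1 e heD]; exact hlow e'⟩
      · obtain ⟨e', hne, he', heD'⟩ := hoff S e he heD
        exact ⟨e', hne, he', by rw [hx2 e heD, hx2 e' heD']⟩)
    (fun e => if e ∈ J ∩ M then c e else 0)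
  refine ⟨M, N, hM, hN, ?_⟩
  have h1 : ∑ e ∈ N, (if e ∈ J ∩ M then c e else 0) = ∑ e ∈ J ∩ M ∩ N, c e := by
    rw [Finset.sum_ite_mem, inter_comm]
  have h2 : ∑ e, x e * (if e ∈ J ∩ M then c e else 0) = 1 / (K + 2) * ∑ e ∈ J ∩ M, c e := by
    rw [Finset.mul_sum, ← Finset.sum_filter_add_sum_filter_not univ (fun e => e ∈ J ∩ M)]
    have h3 : (univ.filter fun e => e ∈ J ∩ M) = J ∩ M := by ext e; simp
    rw [h3, Finset.sum_eq_zero (s := univ.filter fun e => e ∉ J ∩ M), add_zero]
    · refine Finset.sum_congr rfl fun e he => ?_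
      rw [if_pos he, hx1 e he]
    · intro e he
      rw [if_neg (mem_filter.1 he).2, mul_zero]
  rw [h1, h2] at hNc
  have h4 := mul_le_mul_of_nonneg_left hNc (show (0 : ℝ) ≤ K + 2 by linarith)
  have h5 : (K + 2) * (1 / (K + 2) * ∑ e ∈ J ∩ M, c e) = ∑ e ∈ J ∩ M, c e := by
    field_simp
  rw [h5] at h4
  have h6 := mul_le_mul_of_nonneg_left h4 hk0.le
  calc K * (K + 2) * ∑ e ∈ J ∩ M ∩ N, c e = K * ((K + 2) * ∑ e ∈ J ∩ M ∩ N, c e) := by ring
    _ ≤ K * ∑ e ∈ J ∩ M, c e := h6
    _ ≤ ∑ e ∈ J, c e := hb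

end cubic

end EdP
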