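import Pool.Agent.Results.MP_c95763_co.WeightedCover
import Pool.Agent.Lib.EdP.Few

/-! Consequences of the weighted cover theorem `WeightedCover.result`, and the existence of
2-factors with large closed cuts. -/

set_option autoImplicit false

namespace EdP

open Finset OddFour Pool.Agent.Results.MP_c95763_co.WeightedCover

section

variable {V E : Type*} [Fintype V] [Fintype E]

/-- the subgraph of `G` induced by `Z` is bipartite, with classes `Z ∩ A` and `Z \ A` -/
def InducesBipartite (G : Multigraph V E) (Z : Finset V) : Prop :=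
  ∃ A : Finset V, ∀ e, G.src e ∈ Z → G.tgt e ∈ Z → (G.src e ∈ A ↔ G.tgt e ∉ A)

open Classical in
/-- the edge sets with at least five and fewer than `k` elements that form the cut of an odd
vertex set `Z` such that neither `Z` nor its complement induces a bipartite subgraph -/
noncomputable def smallCuts (G : Multigraph V E) (k : ℕ) : Finset (Finset E) :=
  {D | 5 ≤ D.card ∧ D.card < k ∧ ∃ Z : Finset V, Odd Z.card ∧ D = cut G Z ∧
    ¬ InducesBipartite G Z ∧ ¬ InducesBipartite G (univ \ Z)}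

open Classical in
/-- a 2-factor with closed cuts of at least `k` edges exists if there are few small cuts -/
theorem exists_closed (G : Multigraph V E) (hcubic : G.Cubic) (hbridgeless : G.Bridgeless)
    (k : ℕ) (hs : ∑ D ∈ smallCuts G k, ((D.card : ℝ) - 3) / ((D.card : ℝ) - 1) < 3) :
    ∃ C1 : Finset E, G.IsTwoFactor C1 ∧ ClosedCutsAtLeast G C1 k := by
  have hst : ∀ e, G.src e ≠ G.tgt e := G.loopless
  have hcr : ∀ (Z : Finset V) (e : E), e ∈ cut G Z ↔ cr G.src G.tgt Z e := by
    intro Z e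
    unfold cut cr
    simp
  have card_cut : ∀ Z : Finset V, (cut G Z).card = cn G.src G.tgt univ Z := by
    intro Z
    rw [cn_eq_card]
    congr 1
    ext e
    simp [hcr]
  have hcub : ∀ v, cn G.src G.tgt univ {v} = 3 := fun v => by rw [← deg_eq]; exact hcubic v
  have hcut := oddcut_of_bridgeless G hcubic hbridgeless
  have hbad : smallCuts G k = univ.filter (fun D : Finset E => 5 ≤ D.card ∧ D.card < k ∧
      ∃ X : Finset V, Odd X.card ∧ (∀ e, e ∈ D ↔ cr G.src G.tgt X e) ∧
        ¬ EdP.Bip G.src G.tgt X ∧ ¬ EdP.Bip G.src G.tgt (univ \ X)) := by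
    unfold smallCuts
    ext D
    simp only [mem_filter, mem_univ, true_and]
    refine and_congr_right fun _ => and_congr_right fun _ => exists_congr fun Z =>
      and_congr_right fun _ => and_congr ?_ Iff.rfl
    constructor
    · intro h e
      rw [h, hcr]
    · intro h
      ext e
      rw [h, hcr]
  rw [hbad] at hs
  obtain ⟨J, hJ, -, hJk⟩ := EdP.exists_few hst hcub hcut k hs
  refine ⟨univ \ J, fun v => ?_, fun Z hZ hc => ?_⟩
  · have e1 := cn_union (s := G.src) (t := G.tgt) (sdiff_disjoint : Disjoint (univ \ J) J) {v}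
    rw [sdiff_union_of_subset (subset_univ J), hcub v, hJ v] at e1
    rw [deg_eq]
    omega
  · rw [card_cut]
    refine hJk Z hZ fun e he => ?_
    by_contra heJ
    exact hc e ((hcr Z e).2 he) (mem_sdiff.2 ⟨mem_univ _, heJ⟩)

open Classical in
/-- any set of fewer than `k (k + 2)` edges can be covered -/
theorem cover_set (G : Multigraph V E) (hcubic : G.Cubic) (hbridgeless : G.Bridgeless)
    (k : ℕ) (hk : 3 ≤ k) (hodd : Odd k) (C1 : Finset E) (hC1 : G.IsTwoFactor C1)
    (hcuts : ClosedCutsAtLeast G C1 k) (A : Finset E) (hA : (A \ C1).card < k * (k + 2)) :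
    ∃ C2 C3 : Finset E, G.IsTwoFactor C2 ∧ G.IsCycle C3 ∧ A ⊆ C1 ∪ C2 ∪ C3 := by
  obtain ⟨C2, C3, h2, h3, hc⟩ := result G hcubic hbridgeless k hk hodd C1 hC1 hcuts
    (fun e => if e ∈ A then 1 else 0)
  refine ⟨C2, C3, h2, h3, ?_⟩
  rw [Finset.sum_ite_mem, Finset.sum_ite_mem, Finset.sum_const, Finset.sum_const, nsmul_eq_mul,
    nsmul_eq_mul, mul_one, mul_one] at hc
  have e1 : (univ \ C1) ∩ A = A \ C1 := by ext e; simp [and_comm]
  rw [e1] at hc
  have h4 : k * (k + 2) * ((univ \ (C1 ∪ C2 ∪ C3)) ∩ A).card ≤ (A \ C1).card := by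
    exact_mod_cast hc
  have h5 : ((univ \ (C1 ∪ C2 ∪ C3)) ∩ A).card = 0 := by
    by_contra h
    have h6 : 1 ≤ ((univ \ (C1 ∪ C2 ∪ C3)) ∩ A).card := Nat.one_le_iff_ne_zero.2 h
    have h7 : k * (k + 2) * 1 ≤ k * (k + 2) * ((univ \ (C1 ∪ C2 ∪ C3)) ∩ A).card :=
      Nat.mul_le_mul_left _ h6
    omega
  rw [card_eq_zero] at h5
  intro e he
  by_contra hcon
  have : e ∈ (univ \ (C1 ∪ C2 ∪ C3)) ∩ A := mem_inter.2 ⟨mem_sdiff.2 ⟨mem_univ _, hcon⟩, he⟩
  rw [h5] at this
  simp at this

open Classical in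
/-- half as many edges outside a 2-factor as vertices -/
lemma card_off (G : Multigraph V E) (hcubic : G.Cubic) (C1 : Finset E)
    (hC1 : G.IsTwoFactor C1) : 2 * (univ \ C1).card = Fintype.card V := by
  have hcub : ∀ v, cn G.src G.tgt univ {v} = 3 := fun v => by rw [← deg_eq]; exact hcubic v
  refine card_pm (s := G.src) (t := G.tgt) G.loopless fun v => ?_
  have e1 := cn_union (s := G.src) (t := G.tgt) (sdiff_disjoint : Disjoint (univ \ C1) C1) {v}
  rw [sdiff_union_of_subset (subset_univ C1), hcub v, ← deg_eq G C1, hC1 v] at e1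
  omega

open Classical in
/-- with fewer than `2 k (k + 2)` vertices every such 2-factor extends -/
theorem cover_all (G : Multigraph V E) (hcubic : G.Cubic) (hbridgeless : G.Bridgeless)
    (k : ℕ) (hk : 3 ≤ k) (hodd : Odd k) (hn : Fintype.card V < 2 * (k * (k + 2)))
    (C1 : Finset E) (hC1 : G.IsTwoFactor C1) (hcuts : ClosedCutsAtLeast G C1 k) :
    ∃ C2 C3 : Finset E, G.IsTwoFactor C2 ∧ G.IsCycle C3 ∧ C1 ∪ C2 ∪ C3 = univ := by
  have h1 := card_off G hcubic C1 hC1
  obtain ⟨C2, C3, h2, h3, h4⟩ := cover_set G hcubic hbridgeless k hk hodd C1 hC1 hcuts univ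
    (by omega)
  exact ⟨C2, C3, h2, h3, univ_subset_iff.1 h4⟩

open Classical in
/-- the closed cut condition is void for `k = 3` -/
lemma closed_three (G : Multigraph V E) (hcubic : G.Cubic) (hbridgeless : G.Bridgeless)
    (C1 : Finset E) : ClosedCutsAtLeast G C1 3 := by
  intro Z hZ _
  have h1 := oddcut_of_bridgeless G hcubic hbridgeless Z hZ
  have h2 : (cut G Z).card = cn G.src G.tgt univ Z := by
    rw [cn_eq_card]
    congr 1
    ext e
    unfold cut cr
    simp
  rw [h2]
  exact h1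

open Classical in
/-- every 2-factor of a bridgeless cubic multigraph with fewer than 30 vertices extends -/
theorem every_two_factor (G : Multigraph V E) (hcubic : G.Cubic) (hbridgeless : G.Bridgeless)
    (hn : Fintype.card V < 30) (C1 : Finset E) (hC1 : G.IsTwoFactor C1) :
    ∃ C2 C3 : Finset E, G.IsTwoFactor C2 ∧ G.IsCycle C3 ∧ C1 ∪ C2 ∪ C3 = univ :=
  cover_all G hcubic hbridgeless 3 (by decide) (by decide) (by omega) C1 hC1
    (closed_three G hcubic hbridgeless C1)

open Classical in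
/-- `k = 5`: in every bridgeless cubic multigraph some 2-factor `C1` has the property that any
34 further edges can be covered -/
theorem thirty_four (G : Multigraph V E) (hcubic : G.Cubic) (hbridgeless : G.Bridgeless) :
    ∃ C1 : Finset E, G.IsTwoFactor C1 ∧ ∀ A : Finset E, (A \ C1).card ≤ 34 →
      ∃ C2 C3 : Finset E, G.IsTwoFactor C2 ∧ G.IsCycle C3 ∧ A ⊆ C1 ∪ C2 ∪ C3 := by
  obtain ⟨C1, h1, h2⟩ := exists_closed G hcubic hbridgeless 5 (by
    have : smallCuts G 5 = ∅ := by
      unfold smallCuts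
      ext D
      simp only [mem_filter, mem_univ, true_and, notMem_empty, iff_false]
      rintro ⟨h1, h2, -⟩
      omega
    rw [this]
    norm_num)
  exact ⟨C1, h1, fun A hA => cover_set G hcubic hbridgeless 5 (by decide) (by decide) C1 h1 h2 A
    (by omega)⟩

open Classical in
/-- Q1 for graphs with few small cuts and few vertices -/
theorem q1_few (G : Multigraph V E) (hcubic : G.Cubic) (hbridgeless : G.Bridgeless)
    (k : ℕ) (hk : 3 ≤ k) (hodd : Odd k) (hn : Fintype.card V < 2 * (k * (k + 2)))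
    (hs : ∑ D ∈ smallCuts G k, ((D.card : ℝ) - 3) / ((D.card : ℝ) - 1) < 3) :
    ∃ C1 C2 C3 : Finset E, G.IsTwoFactor C1 ∧ G.IsTwoFactor C2 ∧ G.IsCycle C3 ∧
      C1 ∪ C2 ∪ C3 = univ := by
  obtain ⟨C1, h1, h2⟩ := exists_closed G hcubic hbridgeless k hs
  obtain ⟨C2, C3, h3, h4, h5⟩ := cover_all G hcubic hbridgeless k hk hodd hn C1 h1 h2
  exact ⟨C1, C2, C3, h1, h3, h4, h5⟩

end

end EdP
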